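import Pool.Agent.Lib_MP_c56c8e_an.TreeMeasure

namespace Pool.Agent.Lib_MP_c56c8e_an

open Set Filter Topology MeasureTheory
open scoped ENNReal NNReal

/-! ### The finset of words of given length -/

section Words

variable {α : Type*} [Fintype α] [DecidableEq α]

/-- words of length `k` -/
def wds : ℕ → Finset (List α)
  | 0 => {[]}
  | k + 1 => (Finset.univ ×ˢ wds k).image (fun p => p.1 :: p.2)

lemma mem_wds {k : ℕ} {u : List α} : u ∈ wds k ↔ u.length = k := by
  induction k generalizing u with
  | zero => simp [wds]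
  | succ k ih =>
    simp only [wds, Finset.mem_image, Finset.mem_product, Finset.mem_univ, true_and, Prod.exists]
    constructor
    · rintro ⟨a, v, hv, rfl⟩
      rw [List.length_cons, ih.1 hv]
    · intro h
      cases u with
      | nil => simp at h
      | cons a v => exact ⟨a, v, ih.2 (by simpa using h), rfl⟩

lemma gsum_eq_sum {M : Type*} [AddCommMonoid M] (k : ℕ) (f : List α → M) :
    gsum k f = ∑ u ∈ wds k, f u := by
  induction k generalizing f with
  | zero => simp [gsum_zero, wds]
  | succ k ih =>
    rw [gsum_succ, ih, wds, Finset.sum_image, Finset.sum_product, Finset.sum_comm]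
    intro p _ q _ h
    exact Prod.ext (List.cons.inj h).1 (List.cons.inj h).2

variable [TopologicalSpace α] [DiscreteTopology α] [MeasurableSpace α] [BorelSpace α]

lemma lintegral_pre (μ : Measure (ℕ → α)) (k : ℕ) (f : List α → ℝ≥0∞) :
    ∫⁻ x, f (pre x k) ∂μ = gsum k (fun u => f u * μ (cyl u)) := by
  have h1 : ∀ x : ℕ → α, f (pre x k) = ∑ u ∈ wds k, (cyl u).indicator (fun _ => f u) x := by
    intro x
    rw [Finset.sum_eq_single (pre x k)]
    · rw [indicator_of_mem]
      simp [cyl]
    · intro u hu hne
      rw [indicator_of_notMem]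
      intro hx
      have h2 : pre x u.length = u := hx
      rw [mem_wds.1 hu] at h2
      exact hne h2.symm
    · intro h
      exact absurd (mem_wds.2 (length_pre x k)) h
  simp_rw [h1]
  rw [lintegral_finsetSum, gsum_eq_sum]
  · apply Finset.sum_congr rfl
    intro u _
    rw [lintegral_indicator (isClopen_cyl u).2.measurableSet, setLIntegral_const]
  · intro u _
    exact measurable_const.indicator (isClopen_cyl u).2.measurableSet

end Words

/-! ### Coding of points of `ℝⁿ` -/

variable {n : ℕ}

/-- the coding map -/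
noncomputable def code (v : Fin n → ℤ) (x : ℕ → (Fin n → Fin 2)) : EuclideanSpace ℝ (Fin n) :=
  WithLp.toLp 2 (fun i => (v i : ℝ) + Real.ofDigits (fun k => x k i))

lemma code_apply (v : Fin n → ℤ) (x : ℕ → (Fin n → Fin 2)) (i : Fin n) :
    code v x i = (v i : ℝ) + Real.ofDigits (fun k => x k i) := rfl

lemma continuous_code (v : Fin n → ℤ) : Continuous (code v) := by
  apply (PiLp.continuous_toLp 2 _).comp
  apply continuous_pi
  intro i
  apply continuous_const.add
  apply Real.continuous_ofDigits.comp
  apply continuous_pi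
  intro k
  exact (continuous_apply i).comp (continuous_apply k)

lemma exists_code (y : EuclideanSpace ℝ (Fin n)) : ∃ v x, code v x = y := by
  refine ⟨fun i => ⌊y i⌋, fun k i => Real.digits (Int.fract (y i)) 2 k, ?_⟩
  ext i
  rw [code_apply]
  have h := Real.ofDigits_digits (b := 2) (x := Int.fract (y i)) (by norm_num)
    ⟨Int.fract_nonneg _, Int.fract_lt_one _⟩
  rw [h]
  exact Int.floor_add_fract _

/-- dyadic index of a word -/
def idx : List (Fin n → Fin 2) → (Fin n → ℕ)
  | [] => fun _ => 0
  | a :: u => fun i => 2 * idx u i + (a i : ℕ)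

lemma sum_digits (x : ℕ → (Fin n → Fin 2)) (i : Fin n) (k : ℕ) :
    ∑ j ∈ Finset.range k, Real.ofDigitsTerm (fun k => x k i) j = (idx (pre x k) i : ℝ) / 2 ^ k := by
  induction k with
  | zero => simp [idx]
  | succ k ih =>
    rw [Finset.sum_range_succ, ih, pre_succ]
    simp only [idx, Real.ofDigitsTerm]
    push_cast
    field_simp
    ring

lemma code_bounds (v : Fin n → ℤ) (x : ℕ → (Fin n → Fin 2)) (i : Fin n) (k : ℕ) :
    (v i : ℝ) + (idx (pre x k) i : ℝ) / 2 ^ k ≤ code v x i ∧
      code v x i ≤ (v i : ℝ) + ((idx (pre x k) i : ℝ) + 1) / 2 ^ k := by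
  rw [code_apply, Real.ofDigits_eq_sum_add_ofDigits _ k, sum_digits]
  have h0 := Real.ofDigits_nonneg (fun j => x (j + k) i)
  have h1 := Real.ofDigits_le_one (fun j => x (j + k) i)
  have h2 : (0 : ℝ) < (2 ^ k)⁻¹ := by positivity
  constructor
  · have : 0 ≤ (2 ^ k : ℝ)⁻¹ * Real.ofDigits (fun j => x (j + k) i) := by positivity
    push_cast
    linarith
  · rw [add_div]
    have : (2 ^ k : ℝ)⁻¹ * Real.ofDigits (fun j => x (j + k) i) ≤ 1 / 2 ^ k := by
      rw [one_div]; nlinarith
    push_cast
    linarith

/-- adjacency of words -/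
def Adj (u u' : List (Fin n → Fin 2)) : Prop :=
  ∀ i, idx u i ≤ idx u' i + 2 ∧ idx u' i ≤ idx u i + 2

instance (u u' : List (Fin n → Fin 2)) : Decidable (Adj u u') := by unfold Adj; infer_instance

lemma adj_comm (u u' : List (Fin n → Fin 2)) : Adj u u' ↔ Adj u' u :=
  ⟨fun h i => ⟨(h i).2, (h i).1⟩, fun h i => ⟨(h i).2, (h i).1⟩⟩

lemma adj_of_close (v : Fin n → ℤ) (x y : ℕ → (Fin n → Fin 2)) (k : ℕ)
    (h : ∀ i, |code v x i - code v y i| ≤ 1 / 2 ^ k) : Adj (pre x k) (pre y k) := by
  intro i
  have hx := code_bounds v x i k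
  have hy := code_bounds v y i k
  have hxy := abs_le.1 (h i)
  have h2 : (0 : ℝ) < 2 ^ k := by positivity
  constructor
  · have h3 : (idx (pre x k) i : ℝ) / 2 ^ k ≤ ((idx (pre y k) i : ℝ) + 2) / 2 ^ k := by
      have e : ((idx (pre y k) i : ℝ) + 2) / 2 ^ k
        = ((idx (pre y k) i : ℝ) + 1) / 2 ^ k + 1 / 2 ^ k := by ring
      rw [e]; linarith
    rw [div_le_div_iff_of_pos_right h2] at h3
    exact_mod_cast h3
  · have h3 : (idx (pre y k) i : ℝ) / 2 ^ k ≤ ((idx (pre x k) i : ℝ) + 2) / 2 ^ k := by
      have e : ((idx (pre x k) i : ℝ) + 2) / 2 ^ k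
        = ((idx (pre x k) i : ℝ) + 1) / 2 ^ k + 1 / 2 ^ k := by ring
      rw [e]; linarith
    rw [div_le_div_iff_of_pos_right h2] at h3
    exact_mod_cast h3

lemma idx_inj : ∀ {u u' : List (Fin n → Fin 2)}, u.length = u'.length → idx u = idx u' → u = u' := by
  intro u
  induction u with
  | nil => intro u' hl _; exact (List.length_eq_zero_iff.1 hl.symm).symm
  | cons a u ih =>
    intro u' hl hidx
    cases u' with
    | nil => simp at hl
    | cons a' u' =>
      have h1 : ∀ i, 2 * idx u i + (a i : ℕ) = 2 * idx u' i + (a' i : ℕ) := fun i => congrFun hidx i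
      have ha : a = a' := by
        ext i
        have := h1 i
        have := (a i).2
        have := (a' i).2
        omega
      subst ha
      have hu : idx u = idx u' := by
        ext i
        have := h1 i
        omega
      rw [ih (by simpa using hl) hu]

lemma card_adj (k : ℕ) (u : List (Fin n → Fin 2)) :
    ((wds k).filter (fun u' => Adj u u')).card ≤ 5 ^ n := by
  classical
  have h : ((wds k).filter (fun u' => Adj u u')).card
      ≤ (Finset.univ : Finset (Fin n → Fin 5)).card := by
    apply Finset.card_le_card_of_injOn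
      (fun u' => fun i => (Fin.ofNat 5 (idx u' i + 2 - idx u i)))
    · intro u' _; exact Finset.mem_coe.2 (Finset.mem_univ _)
    · intro u1 h1 u2 h2 heq
      rw [Finset.mem_coe, Finset.mem_filter] at h1 h2
      apply idx_inj
      · rw [mem_wds.1 h1.1, mem_wds.1 h2.1]
      · ext i
        have e := congrFun heq i
        have e' := congrArg Fin.val e
        simp only [Fin.val_ofNat] at e'
        have a1 := h1.2 i
        have a2 := h2.2 i
        omega
  simpa using h

end Pool.Agent.Lib_MP_c56c8e_an
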