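import Mathlib

namespace Pool.Agent.Lib_MP_c56c8e_an

open Set MeasureTheory
open scoped InnerProductSpace ENNReal

variable {E V : Type*} [NormedAddCommGroup E] [NormedSpace ℝ E]
  [NormedAddCommGroup V] [InnerProductSpace ℝ V]

/-- The directional derivative `∂_a φ (u) = Dφ(u) a`. -/
noncomputable def D1 (φ : E → V) (u a : E) : V := fderiv ℝ φ u a

/-- The second directional derivative `∂_b ∂_a φ (u)`. -/
noncomputable def D2 (φ : E → V) (u a b : E) : V := D1 (fun v => D1 φ v a) u b

/-- The normal space of the immersion `φ` at `u`: the orthogonal complement of the tangent space,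
the tangent space being the range of the derivative of `φ` at `u`. -/
noncomputable def normalSpace (φ : E → V) (u : E) : Submodule ℝ V :=
  (LinearMap.range (fderiv ℝ φ u : E →ₗ[ℝ] V))ᗮ

/-- The second fundamental form of the immersion `φ` at `u`, applied to the coordinate vectors
`a, b`: the component of `∂_b ∂_a φ (u)` in the normal space. -/
noncomputable def secondFF [FiniteDimensional ℝ V] (φ : E → V) (u a b : E) : V :=
  (normalSpace φ u).starProjection (D2 φ u a b)

/-- The Gram determinant `|∂_a φ|² |∂_b φ|² - ⟨∂_a φ, ∂_b φ⟩²` at `u`. -/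
noncomputable def gram (φ : E → V) (u a b : E) : ℝ :=
  ‖D1 φ u a‖ ^ 2 * ‖D1 φ u b‖ ^ 2 - ⟪D1 φ u a, D1 φ u b⟫_ℝ ^ 2

/-- The sectional curvature (of the metric induced from `V`) at the point `φ u` of the plane
spanned by the tangent vectors `∂_a φ (u)` and `∂_b φ (u)`, by the Gauss formula
`(⟨II(a,a), II(b,b)⟩ - |II(a,b)|²) / (|∂_a φ|² |∂_b φ|² - ⟨∂_a φ, ∂_b φ⟩²)`. -/
noncomputable def secCurv [FiniteDimensional ℝ V] (φ : E → V) (u a b : E) : ℝ :=
  (⟪secondFF φ u a a, secondFF φ u b b⟫_ℝ - ‖secondFF φ u a b‖ ^ 2) / gram φ u a b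

/-- `φ`, restricted to the open set `U ⊆ E`, is a local `C²` parametrization of `S ⊆ V`:
an injective `C²` immersion mapping open subsets of `U` onto relatively open subsets of `S`
(so it is a homeomorphism of `U` onto a relatively open subset of `S`). -/
structure IsLocalParam (S : Set V) (U : Set E) (φ : E → V) : Prop where
  isOpen : IsOpen U
  contDiffOn : ContDiffOn ℝ 2 φ U
  immersion : ∀ u ∈ U, Function.Injective (fderiv ℝ φ u)
  injOn : InjOn φ U
  isOpen_image : ∀ W ⊆ U, IsOpen W → ∃ O, IsOpen O ∧ φ '' W = S ∩ O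

/-- `S ⊆ V` is a `C²` submanifold of dimension `d`. -/
def IsC2Submanifold (d : ℕ) (S : Set V) : Prop :=
  ∀ p ∈ S, ∃ (U : Set (EuclideanSpace ℝ (Fin d))) (φ : EuclideanSpace ℝ (Fin d) → V),
    IsLocalParam S U φ ∧ p ∈ φ '' U

/-- Every sectional curvature of the `d`-dimensional `C²` submanifold `S` (with the metric induced
from `V`), at every point, is greater than `κ`. -/
def SecCurvGt [FiniteDimensional ℝ V] (d : ℕ) (S : Set V) (κ : ℝ) : Prop :=
  ∀ (U : Set (EuclideanSpace ℝ (Fin d))) (φ : EuclideanSpace ℝ (Fin d) → V),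
    IsLocalParam S U φ → ∀ u ∈ U, ∀ a b : EuclideanSpace ℝ (Fin d),
    LinearIndependent ℝ ![a, b] → κ < secCurv φ u a b

/-- The hyperplane `x^⊥`; for `x` in the unit sphere it is the tangent space of the sphere
at `x`. -/
noncomputable def perp (x : V) : Submodule ℝ V := (ℝ ∙ x)ᗮ

/-- The Hausdorff dimension of the orthogonal projection of `Z` to the subspace `W`. -/
noncomputable def dimProj [FiniteDimensional ℝ V] (W : Submodule ℝ V) (Z : Set V) : ℝ≥0∞ :=
  dimH (W.orthogonalProjectionOnto '' Z)

end Pool.Agent.Lib_MP_c56c8e_an
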