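import Pool.Agent.Lib_MP_c56c8e_an.Key
namespace Pool.Agent.Lib_MP_c56c8e_an

open MeasureTheory Set Filter Topology
open scoped ENNReal NNReal InnerProductSpace

variable {n : ℕ}

/-- constant in the Riesz kernel formula -/
noncomputable def cM (m : ℕ) (s : ℝ) : ℝ :=
  (√(4 * Real.pi) ^ m)⁻¹ * (Real.Gamma ((m - s) / 2) * (4 : ℝ) ^ (((m : ℝ) - s) / 2))

lemma cM_pos {m : ℕ} {s : ℝ} (h : s < m) : 0 < cM m s := by
  have h1 : 0 < Real.Gamma ((m - s) / 2) := Real.Gamma_pos_of_pos (by linarith)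
  have hpi := Real.pi_pos
  unfold cM
  positivity

lemma riesz_integral {m : ℕ} {s : ℝ} (h : s < m) {r : ℝ} (hr : 0 < r) :
    ∫⁻ t in Ioi (0 : ℝ), ENNReal.ofReal (t ^ (s / 2 - 1) * ((√(4 * Real.pi * t) ^ m)⁻¹ *
      Real.exp (-(r ^ 2 / (4 * t))))) = ENNReal.ofReal (cM m s * r ^ (s - m)) := by
  have hpi := Real.pi_pos
  set b : ℝ := (m - s) / 2 with hb
  have hb0 : 0 < b := by rw [hb]; linarith
  have h1 := mellin_two hb0 (r := r ^ 2 / 4) (by positivity)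
  have h2 : ∀ t ∈ Ioi (0 : ℝ), ENNReal.ofReal (t ^ (s / 2 - 1) * ((√(4 * Real.pi * t) ^ m)⁻¹ *
      Real.exp (-(r ^ 2 / (4 * t))))) = ENNReal.ofReal ((√(4 * Real.pi) ^ m)⁻¹) *
        ENNReal.ofReal (t ^ (-b - 1) * Real.exp (-(r ^ 2 / 4 / t))) := by
    intro t ht
    have ht' : (0 : ℝ) < t := ht
    rw [← ENNReal.ofReal_mul (by positivity)]
    congr 1
    have h3 : √(4 * Real.pi * t) ^ m = √(4 * Real.pi) ^ m * t ^ ((m : ℝ) / 2) := by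
      rw [Real.sqrt_mul (by positivity), mul_pow]
      congr 1
      rw [Real.sqrt_eq_rpow, ← Real.rpow_natCast, ← Real.rpow_mul ht'.le]
      congr 1
      ring
    have h4 : t ^ (-b - 1) = t ^ (s / 2 - 1) * (t ^ ((m : ℝ) / 2))⁻¹ := by
      rw [← Real.rpow_neg ht'.le, ← Real.rpow_add ht']
      congr 1
      rw [hb]; ring
    have h5 : r ^ 2 / (4 * t) = r ^ 2 / 4 / t := by field_simp
    rw [h3, h4, h5, mul_inv]
    ring
  rw [setLIntegral_congr_fun measurableSet_Ioi h2, lintegral_const_mul' _ _ ENNReal.ofReal_ne_top,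
    h1, ← ENNReal.ofReal_mul (by positivity)]
  congr 1
  have h6 : ((r ^ 2 / 4) ^ b)⁻¹ = (4 : ℝ) ^ b * r ^ (s - m) := by
    rw [Real.div_rpow (by positivity) (by norm_num), inv_div, div_eq_mul_inv]
    congr 1
    rw [← Real.rpow_natCast, ← Real.rpow_mul hr.le, ← Real.rpow_neg hr.le]
    congr 1
    rw [hb]
    push_cast
    ring
  rw [h6, cM]
  ring

variable {Θ : Type*} [MeasurableSpace Θ]

/-- The weighted Fourier integral. -/
noncomputable def JF (μ : Measure (En n)) (s : ℝ) : ℝ≥0∞ :=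
  ∫⁻ ξ, ENNReal.ofReal (‖ξ‖ ^ (s - n)) * MF μ ξ

lemma ae_ne_zero (hn : 0 < n) : ∀ᵐ ξ : En n, ξ ≠ 0 := by
  have : Nonempty (Fin n) := ⟨⟨0, hn⟩⟩
  have : (volume : Measure (En n)) {(0 : En n)} = 0 := measure_singleton _
  exact compl_mem_ae_iff.2 this

/-- Riesz energy via Fourier transform -/
lemma riesz_energy (hn : 0 < n) (μ : Measure (En n)) [IsFiniteMeasure μ] {s : ℝ} (hs : 0 < s)
    (hsn : s < n) :
    ENNReal.ofReal (Real.Gamma (s / 2)) *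
      ∫⁻ p : En n × En n, (ENNReal.ofReal (‖p.1 - p.2‖ ^ 2)) ^ (-(s / 2)) ∂(μ.prod μ) =
      ENNReal.ofReal (cM n s) * JF μ s := by
  have hpi := Real.pi_pos
  obtain ⟨x, hx⟩ : ∃ x : En n, ‖x‖ = 1 := by
    refine ⟨EuclideanSpace.single ⟨0, hn⟩ 1, by simp⟩
  have hm0 : Measurable (fun q : (En n × En n) × ℝ =>
      ENNReal.ofReal (q.2 ^ (s / 2 - 1) * Real.exp (-(q.2 * ‖q.1.1 - q.1.2‖ ^ 2)))) := by
    fun_prop
  have hm1 : Measurable (fun q : ℝ × En n => ENNReal.ofReal (q.1 ^ (s / 2 - 1) *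
      ((√(4 * Real.pi * q.1) ^ n)⁻¹ * Real.exp (-(‖q.2‖ ^ 2 / (4 * q.1))))) * MF μ q.2) := by
    have ha : Measurable (fun q : ℝ × En n => ENNReal.ofReal (q.1 ^ (s / 2 - 1) *
      ((√(4 * Real.pi * q.1) ^ n)⁻¹ * Real.exp (-(‖q.2‖ ^ 2 / (4 * q.1)))))) := by fun_prop
    exact ha.mul ((measurable_MF μ).comp measurable_snd)
  have hiso : ∀ t ∈ Ioi (0 : ℝ), ∫⁻ p : En n × En n,
      ENNReal.ofReal (t ^ (s / 2 - 1) * Real.exp (-(t * ‖p.1 - p.2‖ ^ 2))) ∂(μ.prod μ) =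
      ∫⁻ ξ, ENNReal.ofReal (t ^ (s / 2 - 1) * ((√(4 * Real.pi * t) ^ n)⁻¹ *
        Real.exp (-(‖ξ‖ ^ 2 / (4 * t))))) * MF μ ξ := by
    intro t ht
    have ht' : (0 : ℝ) < t := ht
    have h1 := gauss_parseval hn μ x hx ht' ht'
    have hk : kap n t t = √(4 * Real.pi * t) ^ n := by
      rw [kap, ← pow_succ', Nat.sub_add_cancel hn]
    have h2 : ∀ ξ : En n, QF x (1 / (4 * t)) (1 / (4 * t)) ξ = ‖ξ‖ ^ 2 / (4 * t) := by
      intro ξ; unfold QF; ring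
    have h3 : ∀ u : En n, QF x t t u = t * ‖u‖ ^ 2 := by
      intro ξ; unfold QF; ring
    simp_rw [h2, h3] at h1
    rw [hk] at h1
    have hk0 : 0 < √(4 * Real.pi * t) ^ n := by positivity
    have h4 : ∀ ξ : En n, ENNReal.ofReal (t ^ (s / 2 - 1) * ((√(4 * Real.pi * t) ^ n)⁻¹ *
        Real.exp (-(‖ξ‖ ^ 2 / (4 * t))))) * MF μ ξ =
        ENNReal.ofReal (t ^ (s / 2 - 1) * (√(4 * Real.pi * t) ^ n)⁻¹) *
          (ENNReal.ofReal (Real.exp (-(‖ξ‖ ^ 2 / (4 * t)))) * MF μ ξ) := by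
      intro ξ
      rw [← mul_assoc, ← mul_assoc, ENNReal.ofReal_mul (by positivity)]
    simp_rw [h4]
    rw [lintegral_const_mul' _ _ ENNReal.ofReal_ne_top, h1, ← mul_assoc,
      ← ENNReal.ofReal_mul (by positivity), mul_assoc, inv_mul_cancel₀ hk0.ne', mul_one,
      ← lintegral_const_mul' _ _ ENNReal.ofReal_ne_top]
    apply lintegral_congr
    intro p
    rw [ENNReal.ofReal_mul (by positivity)]
  calc ENNReal.ofReal (Real.Gamma (s / 2)) *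
      ∫⁻ p : En n × En n, (ENNReal.ofReal (‖p.1 - p.2‖ ^ 2)) ^ (-(s / 2)) ∂(μ.prod μ)
      = ∫⁻ p : En n × En n, (∫⁻ t in Ioi (0 : ℝ),
        ENNReal.ofReal (t ^ (s / 2 - 1) * Real.exp (-(t * ‖p.1 - p.2‖ ^ 2)))) ∂(μ.prod μ) := by
        rw [← lintegral_const_mul' _ _ ENNReal.ofReal_ne_top]
        apply lintegral_congr
        intro p
        rw [mellin_one (by positivity) (by positivity)]
    _ = ∫⁻ t in Ioi (0 : ℝ), ∫⁻ p : En n × En n,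
        ENNReal.ofReal (t ^ (s / 2 - 1) * Real.exp (-(t * ‖p.1 - p.2‖ ^ 2))) ∂(μ.prod μ) := by
        rw [lintegral_lintegral_swap]
        exact hm0.aemeasurable
    _ = ∫⁻ t in Ioi (0 : ℝ), ∫⁻ ξ, ENNReal.ofReal (t ^ (s / 2 - 1) *
        ((√(4 * Real.pi * t) ^ n)⁻¹ * Real.exp (-(‖ξ‖ ^ 2 / (4 * t))))) * MF μ ξ :=
        setLIntegral_congr_fun measurableSet_Ioi hiso
    _ = ∫⁻ ξ, ∫⁻ t in Ioi (0 : ℝ), ENNReal.ofReal (t ^ (s / 2 - 1) *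
        ((√(4 * Real.pi * t) ^ n)⁻¹ * Real.exp (-(‖ξ‖ ^ 2 / (4 * t))))) * MF μ ξ := by
        rw [lintegral_lintegral_swap]
        exact hm1.aemeasurable
    _ = ∫⁻ ξ, ENNReal.ofReal (cM n s) * (ENNReal.ofReal (‖ξ‖ ^ (s - n)) * MF μ ξ) := by
        apply lintegral_congr_ae
        filter_upwards [ae_ne_zero hn] with ξ hξ
        rw [lintegral_mul_const, riesz_integral hsn (norm_pos_iff.2 hξ),
          ENNReal.ofReal_mul (cM_pos hsn).le, mul_assoc]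
        fun_prop
    _ = ENNReal.ofReal (cM n s) * JF μ s := by
        rw [lintegral_const_mul' _ _ ENNReal.ofReal_ne_top, JF]

/-- projected energy via Fourier transform -/
lemma proj_energy (hn : 0 < n) (μ : Measure (En n)) [IsFiniteMeasure μ]
    (ρ : Measure Θ) [SFinite ρ]
    (x : Θ → En n) (hxm : Measurable x) (hx1 : ∀ θ, ‖x θ‖ = 1) {C₁ : ℝ} (hC₁ : 0 < C₁)
    (hT : ∀ a : ℝ, 0 < a → ∀ ξ : En n, ξ ≠ 0 →
      ∫⁻ θ, ENNReal.ofReal (Real.exp (-(a * ⟪x θ, ξ⟫_ℝ ^ 2))) ∂ρ ≤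
        ENNReal.ofReal (C₁ * ((√a)⁻¹ * ‖ξ‖⁻¹)))
    {s : ℝ} (hs : 0 < s) (hsn : s < (n - 1 : ℕ)) :
    ENNReal.ofReal (Real.Gamma (s / 2)) *
      ∫⁻ q : Θ × (En n × En n), (ENNReal.ofReal (‖q.2.1 - q.2.2‖ ^ 2 -
        ⟪x q.1, q.2.1 - q.2.2⟫_ℝ ^ 2)) ^ (-(s / 2)) ∂(ρ.prod (μ.prod μ)) ≤
      ENNReal.ofReal (C₁ * (√(Real.pi / 2))⁻¹ * cM (n - 1) s) * JF μ s := by
  have hpi := Real.pi_pos
  set K := C₁ * (√(Real.pi / 2))⁻¹ with hK
  have hK0 : 0 < K := by rw [hK]; positivity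
  have hr0 : ∀ q : Θ × (En n × En n), 0 ≤ ‖q.2.1 - q.2.2‖ ^ 2 - ⟪x q.1, q.2.1 - q.2.2⟫_ℝ ^ 2 := by
    intro q
    have := QF_nonneg (x q.1) (hx1 q.1) (t := 1) (ε := 0) zero_le_one le_rfl (q.2.1 - q.2.2)
    unfold QF at this
    linarith
  have hrm : Measurable (fun q : Θ × (En n × En n) =>
      ‖q.2.1 - q.2.2‖ ^ 2 - ⟪x q.1, q.2.1 - q.2.2⟫_ℝ ^ 2) := by
    have h2 := measurable_QF_comp x hxm 1 0
      (fun q : Θ × (En n × En n) => q.1) (fun q => q.2.1 - q.2.2) measurable_fst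
      ((measurable_fst.comp measurable_snd).sub (measurable_snd.comp measurable_snd))
    unfold QF at h2
    simpa using h2
  have hm0 : Measurable (fun q : (Θ × (En n × En n)) × ℝ =>
      ENNReal.ofReal (q.2 ^ (s / 2 - 1) * Real.exp (-(q.2 * (‖q.1.2.1 - q.1.2.2‖ ^ 2 -
        ⟪x q.1.1, q.1.2.1 - q.1.2.2⟫_ℝ ^ 2))))) := by
    have h3 := hrm.comp
      (measurable_fst : Measurable (Prod.fst : (Θ × (En n × En n)) × ℝ → Θ × (En n × En n)))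
    exact ((measurable_snd.pow_const _).mul
      (Real.measurable_exp.comp (measurable_snd.mul h3).neg)).ennreal_ofReal
  have hm1 : Measurable (fun q : ℝ × En n => ENNReal.ofReal (q.1 ^ (s / 2 - 1) *
      ((√(4 * Real.pi * q.1) ^ (n - 1))⁻¹ * Real.exp (-(‖q.2‖ ^ 2 / (4 * q.1))))) *
        (ENNReal.ofReal (K * ‖q.2‖⁻¹) * MF μ q.2)) := by
    have ha : Measurable (fun q : ℝ × En n => ENNReal.ofReal (q.1 ^ (s / 2 - 1) *
      ((√(4 * Real.pi * q.1) ^ (n - 1))⁻¹ * Real.exp (-(‖q.2‖ ^ 2 / (4 * q.1)))))) := by fun_prop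
    exact ha.mul (((measurable_snd.norm.inv.const_mul K).ennreal_ofReal).mul
        ((measurable_MF μ).comp measurable_snd))
  have hkey : ∀ t ∈ Ioi (0 : ℝ), ∫⁻ q : Θ × (En n × En n),
      ENNReal.ofReal (t ^ (s / 2 - 1) * Real.exp (-(t * (‖q.2.1 - q.2.2‖ ^ 2 -
        ⟪x q.1, q.2.1 - q.2.2⟫_ℝ ^ 2)))) ∂(ρ.prod (μ.prod μ)) ≤
      ∫⁻ ξ, ENNReal.ofReal (t ^ (s / 2 - 1) * ((√(4 * Real.pi * t) ^ (n - 1))⁻¹ *
        Real.exp (-(‖ξ‖ ^ 2 / (4 * t))))) * (ENNReal.ofReal (K * ‖ξ‖⁻¹) * MF μ ξ) := by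
    intro t ht
    have ht' : (0 : ℝ) < t := ht
    have h1 := key_t hn μ ρ x hxm hx1 hT ht'
    calc ∫⁻ q : Θ × (En n × En n),
      ENNReal.ofReal (t ^ (s / 2 - 1) * Real.exp (-(t * (‖q.2.1 - q.2.2‖ ^ 2 -
        ⟪x q.1, q.2.1 - q.2.2⟫_ℝ ^ 2)))) ∂(ρ.prod (μ.prod μ))
        = ENNReal.ofReal (t ^ (s / 2 - 1)) * ∫⁻ q : Θ × (En n × En n),
          ENNReal.ofReal (Real.exp (-(t * (‖q.2.1 - q.2.2‖ ^ 2 -
          ⟪x q.1, q.2.1 - q.2.2⟫_ℝ ^ 2)))) ∂(ρ.prod (μ.prod μ)) := by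
          rw [← lintegral_const_mul' _ _ ENNReal.ofReal_ne_top]
          apply lintegral_congr
          intro q
          rw [ENNReal.ofReal_mul (by positivity)]
      _ ≤ ENNReal.ofReal (t ^ (s / 2 - 1)) * ∫⁻ ξ, ENNReal.ofReal (K *
          ((√(4 * Real.pi * t) ^ (n - 1))⁻¹ * Real.exp (-(‖ξ‖ ^ 2 / (4 * t))) * ‖ξ‖⁻¹)) *
            MF μ ξ := by gcongr
      _ = _ := by
          rw [← lintegral_const_mul' _ _ ENNReal.ofReal_ne_top]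
          apply lintegral_congr
          intro ξ
          rw [← mul_assoc (ENNReal.ofReal _), ← mul_assoc (ENNReal.ofReal _),
            ← ENNReal.ofReal_mul (by positivity), ← ENNReal.ofReal_mul (by positivity)]
          congr 2
          ring
  calc ENNReal.ofReal (Real.Gamma (s / 2)) *
      ∫⁻ q : Θ × (En n × En n), (ENNReal.ofReal (‖q.2.1 - q.2.2‖ ^ 2 -
        ⟪x q.1, q.2.1 - q.2.2⟫_ℝ ^ 2)) ^ (-(s / 2)) ∂(ρ.prod (μ.prod μ))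
      = ∫⁻ q : Θ × (En n × En n), (∫⁻ t in Ioi (0 : ℝ),
        ENNReal.ofReal (t ^ (s / 2 - 1) * Real.exp (-(t * (‖q.2.1 - q.2.2‖ ^ 2 -
        ⟪x q.1, q.2.1 - q.2.2⟫_ℝ ^ 2))))) ∂(ρ.prod (μ.prod μ)) := by
        rw [← lintegral_const_mul' _ _ ENNReal.ofReal_ne_top]
        apply lintegral_congr
        intro q
        rw [mellin_one (by positivity) (hr0 q)]
    _ = ∫⁻ t in Ioi (0 : ℝ), ∫⁻ q : Θ × (En n × En n),
        ENNReal.ofReal (t ^ (s / 2 - 1) * Real.exp (-(t * (‖q.2.1 - q.2.2‖ ^ 2 -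
        ⟪x q.1, q.2.1 - q.2.2⟫_ℝ ^ 2)))) ∂(ρ.prod (μ.prod μ)) := by
        rw [lintegral_lintegral_swap]
        exact hm0.aemeasurable
    _ ≤ ∫⁻ t in Ioi (0 : ℝ), ∫⁻ ξ, ENNReal.ofReal (t ^ (s / 2 - 1) *
        ((√(4 * Real.pi * t) ^ (n - 1))⁻¹ *
        Real.exp (-(‖ξ‖ ^ 2 / (4 * t))))) * (ENNReal.ofReal (K * ‖ξ‖⁻¹) * MF μ ξ) :=
        setLIntegral_mono' measurableSet_Ioi hkey
    _ = ∫⁻ ξ, ∫⁻ t in Ioi (0 : ℝ), ENNReal.ofReal (t ^ (s / 2 - 1) *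
        ((√(4 * Real.pi * t) ^ (n - 1))⁻¹ *
        Real.exp (-(‖ξ‖ ^ 2 / (4 * t))))) * (ENNReal.ofReal (K * ‖ξ‖⁻¹) * MF μ ξ) := by
        rw [lintegral_lintegral_swap]
        exact hm1.aemeasurable
    _ = ∫⁻ ξ, ENNReal.ofReal (K * cM (n - 1) s) * (ENNReal.ofReal (‖ξ‖ ^ (s - n)) * MF μ ξ) := by
        apply lintegral_congr_ae
        filter_upwards [ae_ne_zero hn] with ξ hξ
        have hξ0 := norm_pos_iff.2 hξ
        rw [lintegral_mul_const, riesz_integral hsn hξ0, ← mul_assoc, ← mul_assoc,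
          ← ENNReal.ofReal_mul (by have := cM_pos hsn; positivity),
          ← ENNReal.ofReal_mul (by have := cM_pos hsn; positivity)]
        · congr 2
          have h7 : ‖ξ‖ ^ (s - n) = ‖ξ‖ ^ (s - (n - 1 : ℕ)) * ‖ξ‖⁻¹ := by
            rw [← Real.rpow_neg_one, ← Real.rpow_add hξ0]
            congr 1
            rw [Nat.cast_sub (Nat.succ_le_of_lt hn)]
            push_cast
            ring
          rw [h7]
          ring
        · fun_prop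
    _ = ENNReal.ofReal (K * cM (n - 1) s) * JF μ s := by
        rw [lintegral_const_mul' _ _ ENNReal.ofReal_ne_top, JF]

/-- **Energy inequality** (qualitative form). -/
theorem energy_finite (hn : 0 < n) (μ : Measure (En n)) [IsFiniteMeasure μ]
    (ρ : Measure Θ) [SFinite ρ]
    (x : Θ → En n) (hxm : Measurable x) (hx1 : ∀ θ, ‖x θ‖ = 1) {C : ℝ} (hC0 : 0 < C)
    (hC : ∀ e : En n, ‖e‖ = 1 → ∀ δ : ℝ, 0 < δ → ρ {θ | |⟪x θ, e⟫_ℝ| < δ} ≤ ENNReal.ofReal (C * δ))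
    {s : ℝ} (hs : 0 < s) (hsn : s < (n - 1 : ℕ))
    (hI : ∫⁻ p : En n × En n, (ENNReal.ofReal (‖p.1 - p.2‖ ^ 2)) ^ (-(s / 2)) ∂(μ.prod μ) ≠ ∞) :
    ∫⁻ q : Θ × (En n × En n), (ENNReal.ofReal (‖q.2.1 - q.2.2‖ ^ 2 -
        ⟪x q.1, q.2.1 - q.2.2⟫_ℝ ^ 2)) ^ (-(s / 2)) ∂(ρ.prod (μ.prod μ)) ≠ ∞ := by
  obtain ⟨C₁, hC₁, hT⟩ := tube_avg ρ x hxm hC0 hC
  have hG : 0 < Real.Gamma (s / 2) := Real.Gamma_pos_of_pos (by linarith)
  have hsn' : s < n := by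
    refine hsn.trans_le ?_
    exact_mod_cast Nat.sub_le n 1
  have h1 := riesz_energy hn μ hs hsn'
  have h2 := proj_energy hn μ ρ x hxm hx1 hC₁ hT hs hsn
  have hcn := cM_pos hsn'
  have hJ : JF μ s ≠ ∞ := by
    intro hJ
    rw [hJ, ENNReal.mul_top (by rw [Ne, ENNReal.ofReal_eq_zero, not_le]; exact hcn)] at h1
    exact ENNReal.mul_ne_top ENNReal.ofReal_ne_top hI h1
  intro hcon
  rw [hcon, ENNReal.mul_top (by rw [Ne, ENNReal.ofReal_eq_zero, not_le]; exact hG)] at h2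
  exact absurd (top_unique h2) (ENNReal.mul_ne_top ENNReal.ofReal_ne_top hJ)

end Pool.Agent.Lib_MP_c56c8e_an
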