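import Mathlib
namespace Pool.Agent.Lib_MP_c56c8e_an

open MeasureTheory Set Filter Topology Complex
open scoped ENNReal NNReal InnerProductSpace

/-- Euclidean space -/
abbrev En (n : ℕ) := EuclideanSpace ℝ (Fin n)

variable {n : ℕ}

lemma integral_basis (b : OrthonormalBasis (Fin n) ℝ (En n)) (f : (Fin n → ℝ) → ℂ) :
    ∫ ξ : En n, f (fun i => b.repr ξ i) = ∫ v : Fin n → ℝ, f v := by
  have h1 := b.measurePreserving_repr.integral_comp b.repr.toHomeomorph.measurableEmbedding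
    (fun y : En n => f (fun i => y i))
  rw [h1]
  have h2 := (PiLp.volume_preserving_ofLp (Fin n)).integral_comp
    (MeasurableEquiv.toLp 2 (Fin n → ℝ)).symm.measurableEmbedding f
  exact h2

/-- Fourier transform of an anisotropic Gaussian in an orthonormal basis. -/
lemma gauss_ft_basis (b : OrthonormalBasis (Fin n) ℝ (En n)) (w : Fin n → ℝ) (hw : ∀ i, 0 < w i)
    (u : En n) :
    ∫ ξ : En n, cexp (-(∑ i, ((1 / (4 * w i) * (b.repr ξ i) ^ 2 : ℝ) : ℂ)) + ⟪u, ξ⟫_ℝ * I) =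
      ((∏ i, √(4 * Real.pi * w i) : ℝ) : ℂ) *
        cexp (-(∑ i, ((w i * (b.repr u i) ^ 2 : ℝ) : ℂ))) := by
  have hin : ∀ ξ : En n, (⟪u, ξ⟫_ℝ : ℝ) = ∑ i, b.repr u i * b.repr ξ i := by
    intro ξ
    rw [← b.repr.inner_map_map u ξ, PiLp.inner_apply]
    apply Finset.sum_congr rfl
    intro i _
    simp [mul_comm]
  have h1 := integral_basis b (fun v => cexp (-(∑ i, ((1 / (4 * w i) * (v i) ^ 2 : ℝ) : ℂ)) +
    ((∑ i, b.repr u i * v i : ℝ) : ℂ) * I))
  simp_rw [hin]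
  rw [h1]
  have h2 := GaussianFourier.integral_cexp_neg_sum_mul_add (ι := Fin n)
    (b := fun i => ((1 / (4 * w i) : ℝ) : ℂ))
    (fun i => by rw [ofReal_re]; have := hw i; positivity) (fun i => (b.repr u i : ℂ) * I)
  have h3 : ∀ v : Fin n → ℝ, cexp (-(∑ i, ((1 / (4 * w i) * (v i) ^ 2 : ℝ) : ℂ)) +
    ((∑ i, b.repr u i * v i : ℝ) : ℂ) * I) = cexp (-∑ i, ((1 / (4 * w i) : ℝ) : ℂ) * (v i : ℂ) ^ 2 +
      ∑ i, (b.repr u i : ℂ) * I * v i) := by
    intro v
    congr 1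
    push_cast
    rw [Finset.sum_mul]
    congr 1
    apply Finset.sum_congr rfl
    intro i _
    ring
  simp_rw [h3]
  rw [h2, Finset.prod_mul_distrib, ← Complex.exp_sum]
  congr 1
  · push_cast
    apply Finset.prod_congr rfl
    intro i _
    have hwi := hw i
    have e1 : (Real.pi : ℂ) / (1 / (4 * (w i : ℂ))) = ((4 * Real.pi * w i : ℝ) : ℂ) := by
      push_cast; field_simp
    rw [e1, Real.sqrt_eq_rpow, ofReal_cpow (by positivity)]
    simp
  · congr 1
    rw [← Finset.sum_neg_distrib]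
    apply Finset.sum_congr rfl
    intro i _
    have hwi : (w i : ℂ) ≠ 0 := by exact_mod_cast (hw i).ne'
    push_cast
    rw [mul_pow, I_sq]
    field_simp

/-- the quadratic form with weight `t` on `x⊥` and `ε` on `x` -/
noncomputable def QF (x : En n) (t ε : ℝ) (u : En n) : ℝ :=
  t * (‖u‖ ^ 2 - ⟪x, u⟫_ℝ ^ 2) + ε * ⟪x, u⟫_ℝ ^ 2

/-- the normalising constant -/
noncomputable def kap (n : ℕ) (t ε : ℝ) : ℝ := √(4 * Real.pi * ε) * √(4 * Real.pi * t) ^ (n - 1)

lemma kap_pos (n : ℕ) {t ε : ℝ} (ht : 0 < t) (hε : 0 < ε) : 0 < kap n t ε := by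
  have := Real.pi_pos
  unfold kap; positivity

lemma exists_basis (hn : 0 < n) (x : En n) (hx : ‖x‖ = 1) :
    ∃ (b : OrthonormalBasis (Fin n) ℝ (En n)) (i0 : Fin n), b i0 = x := by
  have hv : Orthonormal ℝ (({⟨0, hn⟩} : Set (Fin n)).domRestrict (fun _ => x)) := by
    constructor
    · intro i; exact hx
    · intro i j hij
      exact absurd (Subsingleton.elim i j) hij
  obtain ⟨b, hb⟩ := Orthonormal.exists_orthonormalBasis_extension_of_card_eq (by simp) hv
  exact ⟨b, ⟨0, hn⟩, hb _ (by simp)⟩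

lemma QF_basis (b : OrthonormalBasis (Fin n) ℝ (En n)) (i0 : Fin n) (t ε : ℝ) (u : En n) :
    QF (b i0) t ε u = ∑ i, (Function.update (fun _ => t) i0 ε) i * (b.repr u i) ^ 2 := by
  have h1 : ‖u‖ ^ 2 = ∑ i, (b.repr u i) ^ 2 := by
    rw [← b.repr.norm_map u, EuclideanSpace.norm_sq_eq]
    simp
  have h2 : (⟪b i0, u⟫_ℝ : ℝ) = b.repr u i0 := (b.repr_apply_apply u i0).symm
  have h3 : ∀ i, (Function.update (fun _ => t) i0 ε) i * (b.repr u i) ^ 2 =
      t * (b.repr u i) ^ 2 + (if i = i0 then (ε - t) * (b.repr u i) ^ 2 else 0) := by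
    intro i
    by_cases hi : i = i0
    · subst hi; simp; ring
    · simp [hi]
  simp_rw [h3]
  rw [Finset.sum_add_distrib, Finset.sum_ite_eq' Finset.univ i0, if_pos (Finset.mem_univ _),
    ← Finset.mul_sum, ← h1, QF, h2]
  ring

/-- Fourier transform of the anisotropic Gaussian. -/
lemma gauss_ft (hn : 0 < n) (x : En n) (hx : ‖x‖ = 1) {t ε : ℝ} (ht : 0 < t) (hε : 0 < ε)
    (u : En n) :
    ∫ ξ : En n, cexp (-(QF x (1 / (4 * t)) (1 / (4 * ε)) ξ : ℂ) + ⟪u, ξ⟫_ℝ * I) =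
      (kap n t ε : ℂ) * cexp (-(QF x t ε u : ℂ)) := by
  obtain ⟨b, i0, rfl⟩ := exists_basis hn x hx
  set w : Fin n → ℝ := Function.update (fun _ => t) i0 ε with hw
  have hw0 : ∀ i, 0 < w i := by
    intro i
    by_cases hi : i = i0
    · subst hi; simp [hw, hε]
    · simp [hw, hi, ht]
  have hw1 : ∀ i, (Function.update (fun _ => (1 / (4 * t))) i0 (1 / (4 * ε))) i = 1 / (4 * w i) := by
    intro i
    by_cases hi : i = i0
    · subst hi; simp [hw]
    · simp [hw, hi]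
  have h := gauss_ft_basis b w hw0 u
  simp_rw [QF_basis, hw1]
  push_cast at h ⊢
  rw [h]
  congr 1
  have h2 : ∏ i, √(4 * Real.pi * w i) = kap n t ε := by
    have h3 : ∀ i, √(4 * Real.pi * w i) =
        Function.update (fun _ => √(4 * Real.pi * t)) i0 (√(4 * Real.pi * ε)) i := by
      intro i
      by_cases hi : i = i0
      · subst hi; simp [hw]
      · simp [hw, hi]
    simp_rw [h3]
    rw [Finset.prod_update_of_mem (Finset.mem_univ i0), Finset.prod_const, kap]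
    congr 2
    rw [Finset.card_sdiff]
    simp
  rw [← h2]
  push_cast
  rfl

end Pool.Agent.Lib_MP_c56c8e_an
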