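import Pool.Agent.Lib_MP_c56c8e_an.TubeConv
namespace Pool.Agent.Lib_MP_c56c8e_an

open MeasureTheory Set Filter Topology Metric
open scoped ENNReal NNReal InnerProductSpace

variable {d n : ℕ}

variable {φ : En d → En n} {U : Set (En d)}

lemma inner_fderiv_self (hU : IsOpen U) (hφ : ContDiffOn ℝ 2 φ U)
    (hsph : ∀ u ∈ U, ‖φ u‖ = 1) {u : En d} (hu : u ∈ U) (a : En d) :
    ⟪fderiv ℝ φ u a, φ u⟫_ℝ = 0 := by
  have h1 := (hasFDerivAt_of hU hφ hu).inner ℝ (hasFDerivAt_of hU hφ hu)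
  have h2 : HasFDerivAt (fun v => ⟪φ v, φ v⟫_ℝ) (0 : En d →L[ℝ] ℝ) u := by
    apply (hasFDerivAt_const (1 : ℝ) u).congr_of_eventuallyEq
    filter_upwards [hU.mem_nhds hu] with v hv
    rw [real_inner_self_eq_norm_sq, hsph v hv, one_pow]
  have h3 := h1.unique h2
  have h4 := congrArg (fun L : En d →L[ℝ] ℝ => L a) h3
  simp only [_root_.zero_apply] at h4
  have h5 : ⟪φ u, fderiv ℝ φ u a⟫_ℝ + ⟪fderiv ℝ φ u a, φ u⟫_ℝ = 0 := by
    simpa using h4
  rw [real_inner_comm] at h5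
  linarith

lemma inner_D2_self (hU : IsOpen U) (hφ : ContDiffOn ℝ 2 φ U)
    (hsph : ∀ u ∈ U, ‖φ u‖ = 1) {u : En d} (hu : u ∈ U) (a b : En d) :
    ⟪D2 φ u a b, φ u⟫_ℝ = -⟪fderiv ℝ φ u a, fderiv ℝ φ u b⟫_ℝ := by
  have h1 := (hasFDerivAt_dir hU hφ a hu).inner ℝ (hasFDerivAt_of hU hφ hu)
  have h2 : HasFDerivAt (fun v => ⟪fderiv ℝ φ v a, φ v⟫_ℝ) (0 : En d →L[ℝ] ℝ) u := by
    apply (hasFDerivAt_const (0 : ℝ) u).congr_of_eventuallyEq
    filter_upwards [hU.mem_nhds hu] with v hv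
    exact inner_fderiv_self hU hφ hsph hv a
  have h3 := h1.unique h2
  have h4 := congrArg (fun L : En d →L[ℝ] ℝ => L b) h3
  simp only [_root_.zero_apply] at h4
  have h5 : ⟪fderiv ℝ φ u a, fderiv ℝ φ u b⟫_ℝ + ⟪D2 φ u a b, φ u⟫_ℝ = 0 := by
    simpa [D2, D1] using h4
  linarith

/-- Orthogonal projection to a two-dimensional space with a known orthonormal basis. -/
lemma proj_two {N : Submodule ℝ (En n)} (hN : Module.finrank ℝ N = 2) {x e : En n}
    (hx : ‖x‖ = 1) (he : ‖e‖ = 1) (hxe : ⟪x, e⟫_ℝ = 0) (hxN : x ∈ N) (heN : e ∈ N) (v : En n) :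
    N.starProjection v = ⟪x, v⟫_ℝ • x + ⟪e, v⟫_ℝ • e := by
  have horth : Orthonormal ℝ ![x, e] := by
    constructor
    · intro i; fin_cases i
      · exact hx
      · exact he
    · intro i j hij
      fin_cases i <;> fin_cases j <;> simp_all [real_inner_comm]
  have hspan : Submodule.span ℝ (range ![x, e]) = N := by
    apply Submodule.eq_of_le_of_finrank_eq
    · rw [Submodule.span_le]
      rintro _ ⟨i, rfl⟩
      fin_cases i
      · exact hxN
      · exact heN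
    · rw [finrank_span_eq_card horth.linearIndependent, hN]
      rfl
  apply Submodule.eq_starProjection_of_mem_of_inner_eq_zero
  · exact N.add_mem (N.smul_mem _ hxN) (N.smul_mem _ heN)
  · intro w hw
    rw [← hspan] at hw
    have hex : ⟪e, x⟫_ℝ = 0 := by rw [real_inner_comm]; exact hxe
    have hxx : ⟪x, x⟫_ℝ = 1 := by rw [real_inner_self_eq_norm_sq, hx, one_pow]
    have hee : ⟪e, e⟫_ℝ = 1 := by rw [real_inner_self_eq_norm_sq, he, one_pow]
    induction hw using Submodule.span_induction with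
    | mem y hy =>
      obtain ⟨i, rfl⟩ := hy
      fin_cases i
      · simp only [Fin.zero_eta, Matrix.cons_val_zero]
        rw [inner_sub_left, inner_add_left, inner_smul_left, inner_smul_left, hxx, hex,
          real_inner_comm x v]
        simp
      · simp only [Fin.mk_one, Matrix.cons_val_one, Matrix.cons_val_zero]
        rw [inner_sub_left, inner_add_left, inner_smul_left, inner_smul_left, hxe, hee,
          real_inner_comm e v]
        simp
    | zero => simp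
    | add y z _ _ hy hz => rw [inner_add_right, hy, hz, add_zero]
    | smul c y _ hy => rw [inner_smul_right, hy, mul_zero]

/-- The Gauss equation for hypersurfaces of the sphere: positivity of the determinant of the
scalar second fundamental form. -/
lemma form_pos (hnd : n = d + 2) (hU : IsOpen U) (hφ : ContDiffOn ℝ 2 φ U)
    (himm : ∀ u ∈ U, Function.Injective (fderiv ℝ φ u)) (hsph : ∀ u ∈ U, ‖φ u‖ = 1)
    {u : En d} (hu : u ∈ U) {e : En n} (he : ‖e‖ = 1) (hxe : ⟪φ u, e⟫_ℝ = 0)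
    (hgrad : ∀ a : En d, ⟪fderiv ℝ φ u a, e⟫_ℝ = 0) {a b : En d}
    (hK : 1 < secCurv φ u a b) :
    ⟪D2 φ u a b, e⟫_ℝ ^ 2 < ⟪D2 φ u a a, e⟫_ℝ * ⟪D2 φ u b b, e⟫_ℝ := by
  set L := fderiv ℝ φ u with hL
  set N : Submodule ℝ (En n) := (LinearMap.range (L : En d →ₗ[ℝ] En n))ᗮ with hN
  have hfr : Module.finrank ℝ N = 2 := by
    have h1 : Module.finrank ℝ (LinearMap.range (L : En d →ₗ[ℝ] En n)) + Module.finrank ℝ N =
        Module.finrank ℝ (En n) :=
      Submodule.finrank_add_finrank_orthogonal (LinearMap.range (L : En d →ₗ[ℝ] En n))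
    have h2 : Module.finrank ℝ (LinearMap.range (L : En d →ₗ[ℝ] En n)) = d := by
      rw [LinearMap.finrank_range_of_inj (himm u hu)]
      simp
    have h3 : Module.finrank ℝ (En n) = n := by simp
    rw [h2, h3] at h1
    omega
  have hxN : φ u ∈ N := by
    rw [hN, Submodule.mem_orthogonal]
    rintro _ ⟨a, rfl⟩
    exact inner_fderiv_self hU hφ hsph hu a
  have heN : e ∈ N := by
    rw [hN, Submodule.mem_orthogonal]
    rintro _ ⟨a, rfl⟩
    exact hgrad a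
  have hII : ∀ a b : En d, secondFF φ u a b = (-⟪L a, L b⟫_ℝ) • φ u + ⟪D2 φ u a b, e⟫_ℝ • e := by
    intro a b
    have h0 : secondFF φ u a b = N.starProjection (D2 φ u a b) := rfl
    rw [h0, proj_two hfr (hsph u hu) he hxe hxN heN, real_inner_comm,
      inner_D2_self hU hφ hsph hu, real_inner_comm _ e]
  have hxx : ⟪φ u, φ u⟫_ℝ = 1 := by rw [real_inner_self_eq_norm_sq, hsph u hu, one_pow]
  have hee : ⟪e, e⟫_ℝ = 1 := by rw [real_inner_self_eq_norm_sq, he, one_pow]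
  have hex : ⟪e, φ u⟫_ℝ = 0 := by rw [real_inner_comm]; exact hxe
  have hin : ∀ p q p' q' : ℝ, ⟪p • φ u + q • e, p' • φ u + q' • e⟫_ℝ = p * p' + q * q' := by
    intro p q p' q'
    simp only [inner_add_left, inner_add_right, inner_smul_left, inner_smul_right, hxx, hee,
      hxe, hex, conj_trivial]
    ring
  have h1 : ⟪secondFF φ u a a, secondFF φ u b b⟫_ℝ =
      ‖L a‖ ^ 2 * ‖L b‖ ^ 2 + ⟪D2 φ u a a, e⟫_ℝ * ⟪D2 φ u b b, e⟫_ℝ := by
    rw [hII, hII, hin, real_inner_self_eq_norm_sq, real_inner_self_eq_norm_sq]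
    ring
  have h2 : ‖secondFF φ u a b‖ ^ 2 = ⟪L a, L b⟫_ℝ ^ 2 + ⟪D2 φ u a b, e⟫_ℝ ^ 2 := by
    rw [← real_inner_self_eq_norm_sq, hII, hin]
    ring
  have h3 : gram φ u a b = ‖L a‖ ^ 2 * ‖L b‖ ^ 2 - ⟪L a, L b⟫_ℝ ^ 2 := rfl
  rw [secCurv, h1, h2, h3] at hK
  set G := ‖L a‖ ^ 2 * ‖L b‖ ^ 2 - ⟪L a, L b⟫_ℝ ^ 2 with hG
  have hG0 : 0 ≤ G := by
    have := abs_real_inner_le_norm (L a) (L b)
    have h3 : ⟪L a, L b⟫_ℝ ^ 2 ≤ (‖L a‖ * ‖L b‖) ^ 2 := by
      rw [← sq_abs]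
      gcongr
    rw [hG]
    nlinarith
  have hG1 : G ≠ 0 := by
    intro h
    rw [h, div_zero] at hK
    linarith
  have hG2 : 0 < G := lt_of_le_of_ne hG0 (Ne.symm hG1)
  rw [lt_div_iff₀ hG2] at hK
  linarith

/-- Tube estimate near a point of the submanifold. -/
theorem exists_tube (hd : 2 ≤ d) (hnd : n = d + 2) (hU : IsOpen U) (hφ : ContDiffOn ℝ 2 φ U)
    (himm : ∀ u ∈ U, Function.Injective (fderiv ℝ φ u)) (hsph : ∀ u ∈ U, ‖φ u‖ = 1)
    (hK : ∀ u ∈ U, ∀ a b : En d, LinearIndependent ℝ ![a, b] → 1 < secCurv φ u a b)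
    {u₀ : En d} (hu₀ : u₀ ∈ U) :
    ∃ r : ℝ, 0 < r ∧ ∃ C : ℝ, 0 < C ∧ ∀ e : En n, ‖e‖ = 1 → ∀ δ : ℝ, 0 < δ →
      volume {u | u ∈ ball u₀ r ∧ |⟪φ u, e⟫_ℝ| < δ} ≤ ENNReal.ofReal (C * δ) := by
  apply tube_of_local
  intro e he
  by_cases h1 : ⟪φ u₀, e⟫_ℝ = 0
  swap
  · exact localTube_case1 hU hφ hu₀ h1
  by_cases h2 : ∀ a : En d, ⟪fderiv ℝ φ u₀ a, e⟫_ℝ = 0
  swap
  · push Not at h2
    obtain ⟨a, ha⟩ := h2
    rcases lt_or_gt_of_ne ha with h | h
    · apply localTube_case2 hd hU hφ hu₀ (-a)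
      rw [map_neg, inner_neg_left]
      linarith
    · exact localTube_case2 hd hU hφ hu₀ a h
  -- the critical case
  have hfin : 1 < Module.finrank ℝ (En d) := by simp; omega
  have hpair : ∀ a b : En d, LinearIndependent ℝ ![a, b] →
      0 < ⟪D2 φ u₀ a a, e⟫_ℝ * ⟪D2 φ u₀ b b, e⟫_ℝ := by
    intro a b hab
    have := form_pos hnd hU hφ himm hsph hu₀ he h1 h2 (hK u₀ hu₀ a b hab)
    exact (sq_nonneg _).trans_lt this
  have hsame : ∀ a b : En d, a ≠ 0 → b ≠ 0 →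
      0 < ⟪D2 φ u₀ a a, e⟫_ℝ * ⟪D2 φ u₀ b b, e⟫_ℝ := by
    intro a b ha hb
    by_cases hab : LinearIndependent ℝ ![a, b]
    · exact hpair a b hab
    · rw [LinearIndependent.pair_iff' ha] at hab
      push Not at hab
      obtain ⟨t, rfl⟩ := hab
      have ht : t ≠ 0 := by
        rintro rfl
        exact hb (zero_smul _ _)
      rw [D2_smul hU hφ hu₀, inner_smul_left, conj_trivial]
      obtain ⟨c, hc⟩ := exists_linearIndependent_pair_of_one_lt_finrank hfin ha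
      have h3 := hpair a c hc
      have h4 : ⟪D2 φ u₀ a a, e⟫_ℝ ≠ 0 := by
        intro h
        rw [h, zero_mul] at h3
        exact lt_irrefl _ h3
      have : 0 < t ^ 2 * (⟪D2 φ u₀ a a, e⟫_ℝ) ^ 2 := by positivity
      nlinarith
  have hposcase : ∀ e' : En n, (∀ a : En d, a ≠ 0 → 0 < ⟪D2 φ u₀ a a, e'⟫_ℝ) →
      LocalTube φ u₀ e' := by
    intro e' hpos
    have hne : (sphere (0 : En d) 1).Nonempty :=
      ⟨EuclideanSpace.single ⟨0, by omega⟩ 1, by simp⟩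
    have hcont : ContinuousOn (fun a : En d => hess φ (u₀, e') a) (sphere (0 : En d) 1) := by
      intro a _
      have h5 := continuousAt_hess hU hφ hu₀ e' a
      have h6 : ContinuousAt (fun a : En d => ((u₀, e'), a)) a := by fun_prop
      exact (ContinuousAt.comp (f := fun a : En d => ((u₀, e'), a))
        (g := fun q : (En d × En n) × En d => hess φ q.1 q.2) h5 h6).continuousWithinAt
    obtain ⟨a₀, ha₀, hmin⟩ := (isCompact_sphere (0 : En d) 1).exists_isMinOn hne hcont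
    have ha₀' : a₀ ≠ 0 := by
      rintro rfl
      simp at ha₀
    have hc0 : 0 < hess φ (u₀, e') a₀ := by
      rw [← hess_eq hU hφ hu₀]
      exact hpos a₀ ha₀'
    apply localTube_case3 hd hU hφ hu₀ (c := hess φ (u₀, e') a₀ / 2) (by positivity)
    intro a ha
    rw [hess_eq hU hφ hu₀]
    have h7 : hess φ (u₀, e') a₀ ≤ hess φ (u₀, e') a := hmin (by simpa using ha)
    linarith
  have hex : ∃ a₁ : En d, a₁ ≠ 0 := ⟨EuclideanSpace.single ⟨0, by omega⟩ 1, by
    intro h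
    have := congrArg norm h
    simp at this⟩
  obtain ⟨a₁, ha₁⟩ := hex
  have hne : ⟪D2 φ u₀ a₁ a₁, e⟫_ℝ ≠ 0 := by
    intro h
    have := hsame a₁ a₁ ha₁ ha₁
    rw [h, zero_mul] at this
    exact lt_irrefl _ this
  rcases lt_or_gt_of_ne hne with h | h
  · apply localTube_neg
    apply hposcase
    intro a ha
    have h8 := hsame a₁ a ha₁ ha
    rw [inner_neg_right]
    nlinarith
  · apply hposcase
    intro a ha
    have h8 := hsame a₁ a ha₁ ha
    exact (pos_iff_pos_of_mul_pos h8).1 h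

end Pool.Agent.Lib_MP_c56c8e_an
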