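import Pool.Agent.Lib_MP_c56c8e_an.TubeAvg
namespace Pool.Agent.Lib_MP_c56c8e_an

open MeasureTheory Set Filter Topology
open scoped ENNReal NNReal InnerProductSpace

variable {n : ℕ}

section Mellin

lemma mellin_pos {a : ℝ} (ha : 0 < a) {r : ℝ} (hr : 0 < r) :
    ∫⁻ t in Ioi (0 : ℝ), ENNReal.ofReal (t ^ (a - 1) * Real.exp (-(t * r))) =
      ENNReal.ofReal (Real.Gamma a) * (ENNReal.ofReal r) ^ (-a) := by
  have h1 := Real.integral_rpow_mul_exp_neg_mul_Ioi ha hr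
  have hG := Real.Gamma_pos_of_pos ha
  have hint : IntegrableOn (fun t : ℝ => t ^ (a - 1) * Real.exp (-(r * t))) (Ioi 0) := by
    by_contra hcon
    rw [integral_undef hcon] at h1
    have : (1 / r) ^ a * Real.Gamma a ≠ 0 := by positivity
    exact this h1.symm
  simp_rw [mul_comm _ r]
  rw [← ofReal_integral_eq_lintegral_ofReal hint, h1, mul_comm,
    ENNReal.ofReal_mul hG.le, ENNReal.ofReal_rpow_of_pos hr, Real.rpow_neg hr.le, one_div,
    Real.inv_rpow hr.le]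
  refine (ae_restrict_iff' measurableSet_Ioi).2 (ae_of_all _ ?_)
  intro t ht
  have ht' : (0 : ℝ) < t := ht
  simp only [Pi.zero_apply]
  positivity

lemma mellin_one {a : ℝ} (ha : 0 < a) {r : ℝ} (hr : 0 ≤ r) :
    ∫⁻ t in Ioi (0 : ℝ), ENNReal.ofReal (t ^ (a - 1) * Real.exp (-(t * r))) =
      ENNReal.ofReal (Real.Gamma a) * (ENNReal.ofReal r) ^ (-a) := by
  rcases hr.eq_or_lt with h0 | h0
  · subst h0
    have hG := Real.Gamma_pos_of_pos ha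
    have hval : ENNReal.ofReal (Real.Gamma a) * (ENNReal.ofReal 0) ^ (-a) = ∞ := by
      rw [ENNReal.ofReal_zero, ENNReal.zero_rpow_of_neg (by linarith), ENNReal.mul_top]
      rw [Ne, ENNReal.ofReal_eq_zero, not_le]
      exact hG
    rw [hval]
    apply top_unique
    rw [← hval]
    have hcont : Continuous (fun r : ℝ =>
        ENNReal.ofReal (Real.Gamma a) * (ENNReal.ofReal r) ^ (-a)) :=
      (ENNReal.continuous_const_mul ENNReal.ofReal_ne_top).comp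
        (ENNReal.continuous_rpow_const.comp ENNReal.continuous_ofReal)
    have hlim : Tendsto (fun r : ℝ => ENNReal.ofReal (Real.Gamma a) * (ENNReal.ofReal r) ^ (-a))
        (𝓝[>] 0) (𝓝 (ENNReal.ofReal (Real.Gamma a) * (ENNReal.ofReal 0) ^ (-a))) :=
      (hcont.tendsto 0).mono_left nhdsWithin_le_nhds
    apply le_of_tendsto hlim
    filter_upwards [self_mem_nhdsWithin] with r hr
    rw [← mellin_pos ha hr]
    apply setLIntegral_mono' measurableSet_Ioi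
    intro t ht
    have ht' : (0 : ℝ) < t := ht
    have hr' : (0 : ℝ) < r := hr
    apply ENNReal.ofReal_le_ofReal
    gcongr
  · exact mellin_pos ha h0

lemma mellin_two {b : ℝ} (hb : 0 < b) {r : ℝ} (hr : 0 < r) :
    ∫⁻ t in Ioi (0 : ℝ), ENNReal.ofReal (t ^ (-b - 1) * Real.exp (-(r / t))) =
      ENNReal.ofReal (Real.Gamma b * (r ^ b)⁻¹) := by
  have h1 := Real.integral_rpow_mul_exp_neg_mul_Ioi hb hr
  have hG := Real.Gamma_pos_of_pos hb
  have h2 := integral_comp_rpow_Ioi (fun y : ℝ => y ^ (b - 1) * Real.exp (-(r * y)))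
    (p := -1) (by norm_num)
  have h3 : ∫ t in Ioi (0 : ℝ), t ^ (-b - 1) * Real.exp (-(r / t)) =
      ∫ x in Ioi (0 : ℝ), (|(-1 : ℝ)| * x ^ ((-1 : ℝ) - 1)) •
        (fun y : ℝ => y ^ (b - 1) * Real.exp (-(r * y))) (x ^ (-1 : ℝ)) := by
    apply setIntegral_congr_fun measurableSet_Ioi
    intro x hx
    have hx' : (0 : ℝ) < x := hx
    simp only [smul_eq_mul, abs_neg, abs_one, one_mul]
    rw [← mul_assoc, ← Real.rpow_mul hx'.le, ← Real.rpow_add hx', Real.rpow_neg_one]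
    congr 2
    ring
  rw [h2, h1] at h3
  have hint : IntegrableOn (fun t : ℝ => t ^ (-b - 1) * Real.exp (-(r / t))) (Ioi 0) := by
    by_contra hcon
    rw [integral_undef hcon] at h3
    have : (1 / r) ^ b * Real.Gamma b ≠ 0 := by positivity
    exact this h3.symm
  rw [← ofReal_integral_eq_lintegral_ofReal hint, h3, one_div, Real.inv_rpow hr.le, mul_comm]
  refine (ae_restrict_iff' measurableSet_Ioi).2 (ae_of_all _ ?_)
  intro t ht
  have ht' : (0 : ℝ) < t := ht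
  simp only [Pi.zero_apply]
  positivity

end Mellin

section Key

variable {Θ : Type*} [MeasurableSpace Θ]

lemma measurable_QF_comp (x : Θ → En n) (hxm : Measurable x) (t ε : ℝ) {Ω : Type*}
    [MeasurableSpace Ω] (f : Ω → Θ) (g : Ω → En n) (hf : Measurable f) (hg : Measurable g) :
    Measurable (fun ω => QF (x (f ω)) t ε (g ω)) := by
  unfold QF
  have h1 : Measurable (fun ω => ⟪x (f ω), g ω⟫_ℝ) := (hxm.comp hf).inner hg
  have h2 : Measurable (fun ω => ‖g ω‖) := hg.norm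
  exact (((h2.pow_const 2).sub (h1.pow_const 2)).const_mul t).add ((h1.pow_const 2).const_mul ε)

lemma key_eps (hn : 0 < n) (μ : Measure (En n)) [IsFiniteMeasure μ] (ρ : Measure Θ) [SFinite ρ]
    (x : Θ → En n) (hxm : Measurable x) (hx1 : ∀ θ, ‖x θ‖ = 1) {C₁ : ℝ}
    (hT : ∀ a : ℝ, 0 < a → ∀ ξ : En n, ξ ≠ 0 →
      ∫⁻ θ, ENNReal.ofReal (Real.exp (-(a * ⟪x θ, ξ⟫_ℝ ^ 2))) ∂ρ ≤
        ENNReal.ofReal (C₁ * ((√a)⁻¹ * ‖ξ‖⁻¹)))
    {t ε : ℝ} (ht : 0 < t) (hε : 0 < ε) (hεt : ε ≤ t / 2) :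
    ∫⁻ θ, ∫⁻ p : En n × En n, ENNReal.ofReal (Real.exp (-QF (x θ) t ε (p.1 - p.2)))
        ∂(μ.prod μ) ∂ρ ≤
      ∫⁻ ξ, ENNReal.ofReal (C₁ * (√(Real.pi / 2))⁻¹ * ((√(4 * Real.pi * t) ^ (n - 1))⁻¹ *
        Real.exp (-(‖ξ‖ ^ 2 / (4 * t))) * ‖ξ‖⁻¹)) * MF μ ξ := by
  have : Nonempty (Fin n) := ⟨⟨0, hn⟩⟩
  have hk := kap_pos n ht hε
  have hpi := Real.pi_pos
  have h1 : ∀ θ, ∫⁻ p : En n × En n, ENNReal.ofReal (Real.exp (-QF (x θ) t ε (p.1 - p.2)))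
      ∂(μ.prod μ) = ENNReal.ofReal ((kap n t ε)⁻¹) *
        ∫⁻ ξ, ENNReal.ofReal (Real.exp (-QF (x θ) (1 / (4 * t)) (1 / (4 * ε)) ξ)) * MF μ ξ := by
    intro θ
    rw [gauss_parseval hn μ (x θ) (hx1 θ) ht hε, ← mul_assoc, ← ENNReal.ofReal_mul (by positivity),
      inv_mul_cancel₀ hk.ne', ENNReal.ofReal_one, one_mul]
  simp_rw [h1]
  rw [lintegral_const_mul' _ _ ENNReal.ofReal_ne_top]
  have hmF : Measurable (Function.uncurry (fun (θ : Θ) (ξ : En n) =>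
      ENNReal.ofReal (Real.exp (-QF (x θ) (1 / (4 * t)) (1 / (4 * ε)) ξ)) * MF μ ξ)) := by
    have h2 := measurable_QF_comp x hxm (1 / (4 * t)) (1 / (4 * ε))
      (fun q : Θ × En n => q.1) (fun q => q.2) measurable_fst measurable_snd
    exact (Real.measurable_exp.comp h2.neg).ennreal_ofReal.mul
      ((measurable_MF μ).comp measurable_snd)
  rw [lintegral_lintegral_swap hmF.aemeasurable, ← lintegral_const_mul' _ _ ENNReal.ofReal_ne_top]
  have hae : ∀ᵐ ξ : En n, ξ ≠ 0 := by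
    have : (volume : Measure (En n)) {(0 : En n)} = 0 := measure_singleton _
    exact compl_mem_ae_iff.2 this
  apply lintegral_mono_ae
  filter_upwards [hae] with ξ hξ
  have hm1 : Measurable (fun θ =>
      ENNReal.ofReal (Real.exp (-QF (x θ) (1 / (4 * t)) (1 / (4 * ε)) ξ))) := by
    have h2 := measurable_QF_comp x hxm (1 / (4 * t)) (1 / (4 * ε))
      (fun q : Θ => q) (fun _ => ξ) measurable_id measurable_const
    exact (Real.measurable_exp.comp h2.neg).ennreal_ofReal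
  rw [lintegral_mul_const _ hm1, ← mul_assoc]
  gcongr
  have h3 : ∀ θ, ENNReal.ofReal (Real.exp (-QF (x θ) (1 / (4 * t)) (1 / (4 * ε)) ξ)) ≤
      ENNReal.ofReal (Real.exp (-(‖ξ‖ ^ 2 / (4 * t)))) *
        ENNReal.ofReal (Real.exp (-(1 / (8 * ε) * ⟪x θ, ξ⟫_ℝ ^ 2))) := by
    intro θ
    rw [← ENNReal.ofReal_mul (by positivity), ← Real.exp_add]
    apply ENNReal.ofReal_le_ofReal
    apply Real.exp_le_exp.2
    have h4 : 1 / (4 * t) ≤ 1 / (8 * ε) := by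
      apply one_div_le_one_div_of_le (by positivity)
      linarith
    have h5 : 1 / (4 * ε) = 2 * (1 / (8 * ε)) := by field_simp; norm_num
    have h6 : ‖ξ‖ ^ 2 / (4 * t) = 1 / (4 * t) * ‖ξ‖ ^ 2 := by ring
    unfold QF
    rw [h5, h6]
    nlinarith [sq_nonneg ⟪x θ, ξ⟫_ℝ]
  calc ENNReal.ofReal ((kap n t ε)⁻¹) *
        ∫⁻ θ, ENNReal.ofReal (Real.exp (-QF (x θ) (1 / (4 * t)) (1 / (4 * ε)) ξ)) ∂ρ
      ≤ ENNReal.ofReal ((kap n t ε)⁻¹) * ∫⁻ θ, ENNReal.ofReal (Real.exp (-(‖ξ‖ ^ 2 / (4 * t)))) *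
        ENNReal.ofReal (Real.exp (-(1 / (8 * ε) * ⟪x θ, ξ⟫_ℝ ^ 2))) ∂ρ := by
        gcongr with θ
        exact h3 θ
    _ = ENNReal.ofReal ((kap n t ε)⁻¹) * (ENNReal.ofReal (Real.exp (-(‖ξ‖ ^ 2 / (4 * t)))) *
        ∫⁻ θ, ENNReal.ofReal (Real.exp (-(1 / (8 * ε) * ⟪x θ, ξ⟫_ℝ ^ 2))) ∂ρ) := by
        rw [lintegral_const_mul' _ _ ENNReal.ofReal_ne_top]
    _ ≤ ENNReal.ofReal ((kap n t ε)⁻¹) * (ENNReal.ofReal (Real.exp (-(‖ξ‖ ^ 2 / (4 * t)))) *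
        ENNReal.ofReal (C₁ * ((√(1 / (8 * ε)))⁻¹ * ‖ξ‖⁻¹))) := by
        gcongr
        exact hT _ (by positivity) ξ hξ
    _ = ENNReal.ofReal (C₁ * (√(Real.pi / 2))⁻¹ * ((√(4 * Real.pi * t) ^ (n - 1))⁻¹ *
        Real.exp (-(‖ξ‖ ^ 2 / (4 * t))) * ‖ξ‖⁻¹)) := by
        rw [← ENNReal.ofReal_mul (by positivity), ← ENNReal.ofReal_mul (by positivity)]
        congr 1
        have h7 : √(Real.pi / 2) = √(4 * Real.pi * ε) * √(1 / (8 * ε)) := by
          rw [← Real.sqrt_mul (by positivity)]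
          congr 1
          field_simp
          norm_num
        have hs1 : √(4 * Real.pi * ε) ≠ 0 := (Real.sqrt_pos.2 (by positivity)).ne'
        have hs2 : √(1 / (8 * ε)) ≠ 0 := (Real.sqrt_pos.2 (by positivity)).ne'
        rw [h7, kap, mul_inv, mul_inv]
        ring

lemma key_t (hn : 0 < n) (μ : Measure (En n)) [IsFiniteMeasure μ] (ρ : Measure Θ) [SFinite ρ]
    (x : Θ → En n) (hxm : Measurable x) (hx1 : ∀ θ, ‖x θ‖ = 1) {C₁ : ℝ}
    (hT : ∀ a : ℝ, 0 < a → ∀ ξ : En n, ξ ≠ 0 →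
      ∫⁻ θ, ENNReal.ofReal (Real.exp (-(a * ⟪x θ, ξ⟫_ℝ ^ 2))) ∂ρ ≤
        ENNReal.ofReal (C₁ * ((√a)⁻¹ * ‖ξ‖⁻¹)))
    {t : ℝ} (ht : 0 < t) :
    ∫⁻ q : Θ × (En n × En n), ENNReal.ofReal (Real.exp (-(t *
        (‖q.2.1 - q.2.2‖ ^ 2 - ⟪x q.1, q.2.1 - q.2.2⟫_ℝ ^ 2)))) ∂(ρ.prod (μ.prod μ)) ≤
      ∫⁻ ξ, ENNReal.ofReal (C₁ * (√(Real.pi / 2))⁻¹ * ((√(4 * Real.pi * t) ^ (n - 1))⁻¹ *
        Real.exp (-(‖ξ‖ ^ 2 / (4 * t))) * ‖ξ‖⁻¹)) * MF μ ξ := by
  set B := ∫⁻ ξ, ENNReal.ofReal (C₁ * (√(Real.pi / 2))⁻¹ * ((√(4 * Real.pi * t) ^ (n - 1))⁻¹ *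
        Real.exp (-(‖ξ‖ ^ 2 / (4 * t))) * ‖ξ‖⁻¹)) * MF μ ξ with hB
  set ε : ℕ → ℝ := fun m => t / 2 * (1 / ((m : ℝ) + 1)) with hε
  have hε0 : ∀ m, 0 < ε m := fun m => by rw [hε]; positivity
  have hε1 : ∀ m, ε m ≤ t / 2 := by
    intro m
    rw [hε]
    have : 1 / ((m : ℝ) + 1) ≤ 1 := by
      rw [div_le_one (by positivity)]
      linarith [(Nat.cast_nonneg m : (0 : ℝ) ≤ m)]
    simp only
    nlinarith
  have hεlim : Tendsto ε atTop (𝓝 0) := by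
    have := (tendsto_one_div_add_atTop_nhds_zero_nat (𝕜 := ℝ)).const_mul (t / 2)
    rw [mul_zero] at this
    exact this
  set F : ℕ → Θ × (En n × En n) → ℝ≥0∞ := fun m q =>
    ENNReal.ofReal (Real.exp (-QF (x q.1) t (ε m) (q.2.1 - q.2.2))) with hF
  have hFm : ∀ m, Measurable (F m) := by
    intro m
    have h2 := measurable_QF_comp x hxm t (ε m)
      (fun q : Θ × (En n × En n) => q.1) (fun q => q.2.1 - q.2.2) measurable_fst
      ((measurable_fst.comp measurable_snd).sub (measurable_snd.comp measurable_snd))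
    exact (Real.measurable_exp.comp h2.neg).ennreal_ofReal
  have hlim : ∀ q : Θ × (En n × En n), Tendsto (fun m => F m q) atTop (𝓝
      (ENNReal.ofReal (Real.exp (-(t *
        (‖q.2.1 - q.2.2‖ ^ 2 - ⟪x q.1, q.2.1 - q.2.2⟫_ℝ ^ 2)))))) := by
    intro q
    apply ENNReal.tendsto_ofReal
    apply (Real.continuous_exp.tendsto _).comp
    apply Tendsto.neg
    unfold QF
    have h3 := (hεlim.mul_const (⟪x q.1, q.2.1 - q.2.2⟫_ℝ ^ 2)).const_add
      (t * (‖q.2.1 - q.2.2‖ ^ 2 - ⟪x q.1, q.2.1 - q.2.2⟫_ℝ ^ 2))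
    simpa using h3
  calc ∫⁻ q : Θ × (En n × En n), ENNReal.ofReal (Real.exp (-(t *
        (‖q.2.1 - q.2.2‖ ^ 2 - ⟪x q.1, q.2.1 - q.2.2⟫_ℝ ^ 2)))) ∂(ρ.prod (μ.prod μ))
      = ∫⁻ q : Θ × (En n × En n), liminf (fun m => F m q) atTop ∂(ρ.prod (μ.prod μ)) := by
        apply lintegral_congr
        intro q
        exact (hlim q).liminf_eq.symm
    _ ≤ liminf (fun m => ∫⁻ q, F m q ∂(ρ.prod (μ.prod μ))) atTop := lintegral_liminf_le hFm
    _ ≤ liminf (fun _ : ℕ => B) atTop := by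
        refine liminf_le_liminf (Eventually.of_forall fun m => ?_)
        rw [lintegral_prod _ (hFm m).aemeasurable]
        exact key_eps hn μ ρ x hxm hx1 hT ht (hε0 m) (hε1 m)
    _ = B := by simp

end Key

end Pool.Agent.Lib_MP_c56c8e_an
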