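import Pool.Agent.Lib_MP_c56c8e_an.Coding

namespace Pool.Agent.Lib_MP_c56c8e_an

open Set Filter Topology MeasureTheory
open scoped ENNReal NNReal

variable {n : ℕ}

/-- Kernel bound in terms of dyadic adjacency. -/
lemma kernel_bound (v : Fin n → ℤ) {s : ℝ} (hs : 0 < s) (x y : ℕ → (Fin n → Fin 2)) :
    edist (code v x) (code v y) ^ (-s) ≤
      ENNReal.ofReal ((2 : ℝ) ^ s) * ∑' k : ℕ, ENNReal.ofReal (((2 : ℝ) ^ s) ^ k) *
        (if Adj (pre x k) (pre y k) then 1 else 0) := by
  have h2s : (1 : ℝ) ≤ (2 : ℝ) ^ s := Real.one_le_rpow (by norm_num) hs.le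
  by_cases hxy : ∀ k : ℕ, ∀ i, |code v x i - code v y i| ≤ 1 / 2 ^ k
  · -- all adjacent: the right side is infinite
    have h1 : ∀ k : ℕ, (1 : ℝ≥0∞) ≤ ENNReal.ofReal (((2 : ℝ) ^ s) ^ k) *
        (if Adj (pre x k) (pre y k) then 1 else 0) := by
      intro k
      rw [if_pos (adj_of_close v x y k (hxy k)), mul_one]
      rw [← ENNReal.ofReal_one]
      exact ENNReal.ofReal_le_ofReal (one_le_pow₀ h2s)
    have h2 : ∑' k : ℕ, ENNReal.ofReal (((2 : ℝ) ^ s) ^ k) *
        (if Adj (pre x k) (pre y k) then 1 else 0) = ∞ := by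
      apply top_unique
      calc (∞ : ℝ≥0∞) = ∑' _ : ℕ, (1 : ℝ≥0∞) := by
            rw [ENNReal.tsum_const_eq_top_of_ne_zero one_ne_zero]
        _ ≤ _ := ENNReal.tsum_le_tsum h1
    rw [h2, ENNReal.mul_top]
    · exact le_top
    · rw [Ne, ENNReal.ofReal_eq_zero, not_le]; positivity
  · push Not at hxy
    classical
    set m := Nat.find hxy with hm
    obtain ⟨i, hi⟩ := Nat.find_spec hxy
    rw [← hm] at hi
    have hm0 : m ≠ 0 := by
      intro h0
      rw [h0] at hi
      have hx := code_bounds v x i 0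
      have hy := code_bounds v y i 0
      simp only [pre_zero, idx, Nat.cast_zero, pow_zero, add_zero, zero_add,
        div_one] at hx hy hi
      have : |code v x i - code v y i| ≤ 1 := abs_le.2 ⟨by linarith [hx.1, hy.2], by linarith [hx.2, hy.1]⟩
      linarith
    obtain ⟨k, hk⟩ := Nat.exists_eq_succ_of_ne_zero hm0
    have hclose : ∀ i, |code v x i - code v y i| ≤ 1 / 2 ^ k := by
      have := Nat.find_min hxy (m := k) (by rw [← hm, hk]; exact Nat.lt_succ_self k)
      push Not at this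
      exact this
    have hadj := adj_of_close v x y k hclose
    have hd : ENNReal.ofReal (1 / 2 ^ (k + 1)) ≤ edist (code v x) (code v y) := by
      rw [edist_dist]
      apply ENNReal.ofReal_le_ofReal
      rw [hk, Nat.succ_eq_add_one] at hi
      calc (1 : ℝ) / 2 ^ (k + 1) ≤ |code v x i - code v y i| := hi.le
        _ = ‖(code v x - code v y) i‖ := by simp
        _ ≤ ‖code v x - code v y‖ := PiLp.norm_apply_le _ i
        _ = dist (code v x) (code v y) := (dist_eq_norm _ _).symm
    have h3 : edist (code v x) (code v y) ^ (-s) ≤ (ENNReal.ofReal (1 / 2 ^ (k + 1))) ^ (-s) := by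
      rw [ENNReal.rpow_neg, ENNReal.rpow_neg]
      exact ENNReal.inv_le_inv.2 (ENNReal.rpow_le_rpow hd hs.le)
    refine h3.trans ?_
    have h4 : (ENNReal.ofReal (1 / 2 ^ (k + 1))) ^ (-s) =
        ENNReal.ofReal ((2 : ℝ) ^ s) * ENNReal.ofReal (((2 : ℝ) ^ s) ^ k) := by
      rw [ENNReal.ofReal_rpow_of_pos (by positivity), ← ENNReal.ofReal_mul (by positivity)]
      congr 1
      rw [one_div, Real.inv_rpow (by positivity), Real.rpow_neg (by positivity), inv_inv,
        ← pow_succ', ← Real.rpow_natCast, ← Real.rpow_natCast, ← Real.rpow_mul (by norm_num),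
        ← Real.rpow_mul (by norm_num), mul_comm]
    rw [h4]
    gcongr
    calc ENNReal.ofReal (((2 : ℝ) ^ s) ^ k)
        = ENNReal.ofReal (((2 : ℝ) ^ s) ^ k) * (if Adj (pre x k) (pre y k) then 1 else 0) := by
          rw [if_pos hadj, mul_one]
      _ ≤ _ := ENNReal.le_tsum k

/-- the diagonal-type bound -/
lemma gsum_adj_le (k : ℕ) (m : List (Fin n → Fin 2) → ℝ≥0∞) :
    gsum k (fun u => (gsum k (fun u' => (if Adj u u' then 1 else 0) * m u')) * m u) ≤
      2 * 5 ^ n * gsum k (fun u => m u ^ 2) := by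
  classical
  simp only [gsum_eq_sum]
  have h1 : ∀ a b : ℝ≥0∞, a * b ≤ a ^ 2 + b ^ 2 := by
    intro a b
    rcases le_total a b with h | h
    · calc a * b ≤ b * b := by gcongr
        _ = b ^ 2 := by ring
        _ ≤ _ := le_add_self
    · calc a * b ≤ a * a := by gcongr
        _ = a ^ 2 := by ring
        _ ≤ _ := le_self_add
  have hcard : ∀ u : List (Fin n → Fin 2),
      ∑ u' ∈ wds k, (if Adj u u' then (1 : ℝ≥0∞) else 0) ≤ 5 ^ n := by
    intro u
    rw [← Finset.sum_filter, Finset.sum_const, nsmul_eq_mul, mul_one]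
    exact_mod_cast card_adj k u
  calc ∑ u ∈ wds k, (∑ u' ∈ wds k, (if Adj u u' then 1 else 0) * m u') * m u
      = ∑ u ∈ wds k, ∑ u' ∈ wds k, (if Adj u u' then 1 else 0) * (m u' * m u) := by
        apply Finset.sum_congr rfl
        intro u _
        rw [Finset.sum_mul]
        apply Finset.sum_congr rfl
        intro u' _
        rw [mul_assoc]
    _ ≤ ∑ u ∈ wds k, ∑ u' ∈ wds k, ((if Adj u u' then 1 else 0) * m u' ^ 2 +
          (if Adj u u' then 1 else 0) * m u ^ 2) := by
        apply Finset.sum_le_sum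
        intro u _
        apply Finset.sum_le_sum
        intro u' _
        rw [← mul_add]
        gcongr
        exact h1 _ _
    _ = ∑ u' ∈ wds k, (∑ u ∈ wds k, (if Adj u' u then 1 else 0)) * m u' ^ 2 +
          ∑ u ∈ wds k, (∑ u' ∈ wds k, (if Adj u u' then 1 else 0)) * m u ^ 2 := by
        simp_rw [Finset.sum_add_distrib]
        congr 1
        · rw [Finset.sum_comm]
          apply Finset.sum_congr rfl
          intro u' _
          rw [Finset.sum_mul]
          apply Finset.sum_congr rfl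
          intro u _
          simp only [adj_comm u u']
        · apply Finset.sum_congr rfl
          intro u' _
          rw [Finset.sum_mul]
    _ ≤ ∑ u' ∈ wds k, 5 ^ n * m u' ^ 2 + ∑ u ∈ wds k, 5 ^ n * m u ^ 2 := by
        gcongr with u _ u _
        · exact hcard u
        · exact hcard u
    _ = 2 * 5 ^ n * ∑ u ∈ wds k, m u ^ 2 := by
        rw [← Finset.mul_sum]; ring

/-- finiteness of the energy of the image measure -/
lemma energy_code (v : Fin n → ℤ) {s : ℝ} (hs : 0 < s) (μ : Measure (ℕ → (Fin n → Fin 2)))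
    [IsFiniteMeasure μ]
    (h : ∑' k : ℕ, gsum k (fun u => ENNReal.ofReal (((2 : ℝ) ^ s) ^ k) * (μ (cyl u)) ^ 2) ≠ ∞) :
    ∫⁻ x, ∫⁻ y, edist (code v x) (code v y) ^ (-s) ∂μ ∂μ ≠ ∞ := by
  set A : ℕ → ℝ≥0∞ := fun k => ENNReal.ofReal (((2 : ℝ) ^ s) ^ k) with hA
  have hmeas1 : ∀ (k : ℕ) (x : ℕ → (Fin n → Fin 2)), Measurable
      (fun y : ℕ → (Fin n → Fin 2) => A k * (if Adj (pre x k) (pre y k) then (1 : ℝ≥0∞) else 0)) := by
    intro k x
    have h1 := (continuous_pre (α := Fin n → Fin 2) k).comp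
      (fun w => A k * (if Adj (pre x k) w then (1 : ℝ≥0∞) else 0))
    exact h1.continuous.measurable
  have hint : ∀ (k : ℕ) (x : ℕ → (Fin n → Fin 2)),
      ∫⁻ y, A k * (if Adj (pre x k) (pre y k) then (1 : ℝ≥0∞) else 0) ∂μ =
        A k * gsum k (fun u' => (if Adj (pre x k) u' then 1 else 0) * μ (cyl u')) := by
    intro k x
    rw [lintegral_const_mul' _ _ ENNReal.ofReal_ne_top]
    rw [← lintegral_pre μ k (fun u' => (if Adj (pre x k) u' then 1 else 0))]
  have hmeas2 : ∀ k : ℕ, Measurable (fun x : ℕ → (Fin n → Fin 2) =>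
      A k * gsum k (fun u' => (if Adj (pre x k) u' then 1 else 0) * μ (cyl u'))) := by
    intro k
    have h1 := (continuous_pre (α := Fin n → Fin 2) k).comp
      (fun w => A k * gsum k (fun u' => (if Adj w u' then 1 else 0) * μ (cyl u')))
    exact h1.continuous.measurable
  have key : ∫⁻ x, ∫⁻ y, edist (code v x) (code v y) ^ (-s) ∂μ ∂μ ≤
      ENNReal.ofReal ((2 : ℝ) ^ s) * (2 * 5 ^ n * ∑' k : ℕ, gsum k (fun u => A k * (μ (cyl u)) ^ 2)) := by
    calc ∫⁻ x, ∫⁻ y, edist (code v x) (code v y) ^ (-s) ∂μ ∂μ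
        ≤ ∫⁻ x, ∫⁻ y, ENNReal.ofReal ((2 : ℝ) ^ s) * ∑' k : ℕ, A k *
            (if Adj (pre x k) (pre y k) then 1 else 0) ∂μ ∂μ :=
          lintegral_mono fun x => lintegral_mono fun y => kernel_bound v hs x y
      _ = ∫⁻ x, ENNReal.ofReal ((2 : ℝ) ^ s) * ∑' k : ℕ, (A k *
            gsum k (fun u' => (if Adj (pre x k) u' then 1 else 0) * μ (cyl u'))) ∂μ := by
          apply lintegral_congr
          intro x
          rw [lintegral_const_mul' _ _ ENNReal.ofReal_ne_top, lintegral_tsum]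
          · simp_rw [hint]
          · intro k; exact (hmeas1 k x).aemeasurable
      _ = ENNReal.ofReal ((2 : ℝ) ^ s) * ∑' k : ℕ, (A k * gsum k (fun u =>
            (gsum k (fun u' => (if Adj u u' then 1 else 0) * μ (cyl u'))) * μ (cyl u))) := by
          rw [lintegral_const_mul' _ _ ENNReal.ofReal_ne_top, lintegral_tsum]
          · congr 1
            apply tsum_congr
            intro k
            rw [lintegral_const_mul' _ _ ENNReal.ofReal_ne_top]
            rw [← lintegral_pre μ k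
              (fun u => gsum k (fun u' => (if Adj u u' then 1 else 0) * μ (cyl u')))]
          · intro k; exact (hmeas2 k).aemeasurable
      _ ≤ ENNReal.ofReal ((2 : ℝ) ^ s) * ∑' k : ℕ, (A k * (2 * 5 ^ n * gsum k (fun u => μ (cyl u) ^ 2))) := by
          gcongr with k
          exact gsum_adj_le k _
      _ = _ := by
          congr 1
          rw [← ENNReal.tsum_mul_left]
          apply tsum_congr
          intro k
          simp only [gsum_eq_sum]
          rw [← Finset.mul_sum]
          ring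
  refine ne_top_of_le_ne_top ?_ key
  refine ENNReal.mul_ne_top ENNReal.ofReal_ne_top (ENNReal.mul_ne_top ?_ h)
  exact ENNReal.mul_ne_top (by simp) (by simp)

lemma ediam_code_cyl (v : Fin n → ℤ) (w : List (Fin n → Fin 2)) :
    Metric.ediam (code v '' cyl w) ≤ ENNReal.ofReal (n * (1 / 2) ^ w.length) := by
  apply Metric.ediam_le
  rintro _ ⟨x, hx, rfl⟩ _ ⟨y, hy, rfl⟩
  rw [edist_dist]
  apply ENNReal.ofReal_le_ofReal
  have hx' : pre x w.length = w := hx
  have hy' : pre y w.length = w := hy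
  rw [dist_eq_norm]
  calc ‖code v x - code v y‖ ≤ ∑ i, ‖(code v x - code v y) i‖ := by
        rw [EuclideanSpace.norm_eq]
        have h0 : 0 ≤ ∑ i, ‖(code v x - code v y) i‖ := Finset.sum_nonneg fun i _ => norm_nonneg _
        rw [Real.sqrt_le_left h0]
        exact Finset.sum_sq_le_sq_sum_of_nonneg (fun i _ => norm_nonneg _)
    _ ≤ ∑ _i : Fin n, (1 / 2 : ℝ) ^ w.length := by
        apply Finset.sum_le_sum
        intro i _
        have h1 := code_bounds v x i w.length
        have h2 := code_bounds v y i w.length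
        rw [hx'] at h1
        rw [hy'] at h2
        rw [PiLp.sub_apply, Real.norm_eq_abs, abs_le, one_div, inv_pow]
        rw [add_div, one_div] at h1 h2
        constructor <;> linarith [h1.1, h1.2, h2.1, h2.2]
    _ = n * (1 / 2) ^ w.length := by simp

/-- null capacity implies null Hausdorff measure -/
lemma hausdorff_null_of_cap {s s' : ℝ} (hs : 0 < s) (hss : s < s') (v : Fin n → ℤ)
    {A : Set (ℕ → (Fin n → Fin 2))} (hA : cap ((2 : ℝ) ^ (s / 2)) A = 0) :
    μH[s'] (code v '' A) = 0 := by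
  set t : ℝ := (2 : ℝ) ^ (-s') with ht
  have ht0 : 0 < t := by positivity
  have hs' : 0 < s' := hs.trans hss
  have ht1 : t < 1 := by
    rw [ht]; exact Real.rpow_lt_one_of_one_lt_of_neg (by norm_num) (by linarith)
  have htb : t * ((2 : ℝ) ^ (s / 2)) ^ 2 < 1 := by
    rw [ht, ← Real.rpow_natCast, ← Real.rpow_mul (by norm_num), ← Real.rpow_add (by norm_num)]
    apply Real.rpow_lt_one_of_one_lt_of_neg (by norm_num)
    push_cast
    linarith
  have hcov : ∀ m : ℕ, ∃ W : Set (List (Fin n → Fin 2)), A ⊆ ⋃ w ∈ W, cyl w ∧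
      ∑' w : W, ENNReal.ofReal (t ^ (w : List (Fin n → Fin 2)).length) ≤ ENNReal.ofReal (t ^ m) :=
    fun m => exists_cover (by positivity) ht0 htb hA (by positivity)
  choose W hWA hWt using hcov
  have hlen : ∀ m, ∀ w : W m, m ≤ (w : List (Fin n → Fin 2)).length := by
    intro m w
    have h1 : ENNReal.ofReal (t ^ (w : List (Fin n → Fin 2)).length) ≤ ENNReal.ofReal (t ^ m) :=
      (ENNReal.le_tsum w).trans (hWt m)
    rw [ENNReal.ofReal_le_ofReal_iff (by positivity)] at h1
    exact (pow_le_pow_iff_right_of_lt_one₀ ht0 ht1).1 h1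
  have hmain := Measure.hausdorffMeasure_le_liminf_tsum (X := EuclideanSpace ℝ (Fin n))
    s' (code v '' A) (l := atTop) (fun m : ℕ => ENNReal.ofReal (n * (1 / 2) ^ m)) ?_
    (ι := fun m => W m) (fun m w => code v '' cyl (w : List (Fin n → Fin 2))) ?_ ?_
  · apply le_antisymm _ bot_le
    refine hmain.trans ?_
    have hub : ∀ m, ∑' w : W m, Metric.ediam (code v '' cyl (w : List (Fin n → Fin 2))) ^ s' ≤
        ENNReal.ofReal ((n : ℝ) ^ s') * ENNReal.ofReal (t ^ m) := by
      intro m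
      calc ∑' w : W m, Metric.ediam (code v '' cyl (w : List (Fin n → Fin 2))) ^ s'
          ≤ ∑' w : W m, ENNReal.ofReal ((n : ℝ) ^ s') *
              ENNReal.ofReal (t ^ (w : List (Fin n → Fin 2)).length) := by
            apply ENNReal.tsum_le_tsum
            intro w
            refine (ENNReal.rpow_le_rpow (ediam_code_cyl v _) hs'.le).trans ?_
            rw [ENNReal.ofReal_rpow_of_nonneg (by positivity) hs'.le,
              ← ENNReal.ofReal_mul (by positivity)]
            apply ENNReal.ofReal_le_ofReal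
            rw [Real.mul_rpow (by positivity) (by positivity)]
            gcongr
            rw [ht, one_div, inv_pow, Real.inv_rpow (by positivity), ← Real.rpow_natCast,
              ← Real.rpow_natCast, ← Real.rpow_mul (by norm_num), ← Real.rpow_mul (by norm_num),
              ← Real.rpow_neg (by norm_num)]
            apply le_of_eq
            congr 1
            ring
        _ = ENNReal.ofReal ((n : ℝ) ^ s') *
              ∑' w : W m, ENNReal.ofReal (t ^ (w : List (Fin n → Fin 2)).length) :=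
            ENNReal.tsum_mul_left
        _ ≤ _ := by gcongr; exact hWt m
    have hlim : Tendsto (fun m : ℕ => ENNReal.ofReal ((n : ℝ) ^ s') * ENNReal.ofReal (t ^ m))
        atTop (𝓝 0) := by
      have h1 : Tendsto (fun m : ℕ => ENNReal.ofReal (t ^ m)) atTop (𝓝 0) := by
        rw [← ENNReal.ofReal_zero]
        exact ENNReal.tendsto_ofReal (tendsto_pow_atTop_nhds_zero_of_lt_one ht0.le ht1)
      have h2 := ENNReal.Tendsto.const_mul (a := ENNReal.ofReal ((n : ℝ) ^ s')) h1
        (Or.inr ENNReal.ofReal_ne_top)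
      simpa using h2
    calc liminf (fun m => ∑' w : W m, Metric.ediam (code v '' cyl (w : List (Fin n → Fin 2))) ^ s') atTop
        ≤ liminf (fun m : ℕ => ENNReal.ofReal ((n : ℝ) ^ s') * ENNReal.ofReal (t ^ m)) atTop :=
          liminf_le_liminf (Eventually.of_forall hub)
      _ = 0 := hlim.liminf_eq
  · rw [← ENNReal.ofReal_zero]
    apply ENNReal.tendsto_ofReal
    have := (tendsto_pow_atTop_nhds_zero_of_lt_one (r := (1 / 2 : ℝ)) (by norm_num)
      (by norm_num)).const_mul (n : ℝ)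
    simpa using this
  · apply Eventually.of_forall
    intro m w
    refine (ediam_code_cyl v _).trans ?_
    apply ENNReal.ofReal_le_ofReal
    have := pow_le_pow_of_le_one (a := (1 / 2 : ℝ)) (by norm_num) (by norm_num) (hlen m w)
    gcongr
  · apply Eventually.of_forall
    intro m
    rintro _ ⟨x, hx, rfl⟩
    obtain ⟨w, hw⟩ := mem_iUnion.1 (hWA m hx)
    obtain ⟨hw1, hw2⟩ := mem_iUnion.1 hw
    exact mem_iUnion.2 ⟨⟨w, hw1⟩, ⟨x, hw2, rfl⟩⟩

/-- energy of an image measure -/
lemma energy_map {Ω : Type*} [MeasurableSpace Ω] (μ' : Measure Ω) [SFinite μ']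
    (c : Ω → EuclideanSpace ℝ (Fin n)) (hcm : Measurable c) (s : ℝ) :
    ∫⁻ x, ∫⁻ y, edist x y ^ (-s) ∂(μ'.map c) ∂(μ'.map c) =
        ∫⁻ x, ∫⁻ y, edist (c x) (c y) ^ (-s) ∂μ' ∂μ' := by
  have hme : Measurable (fun p : EuclideanSpace ℝ (Fin n) × EuclideanSpace ℝ (Fin n) =>
      edist p.1 p.2 ^ (-s)) := measurable_edist.pow_const _
  have hme1 : ∀ x, Measurable (fun y : EuclideanSpace ℝ (Fin n) => edist x y ^ (-s)) :=
    fun x => (measurable_const.edist measurable_id).pow_const _
  have hin : ∀ x : EuclideanSpace ℝ (Fin n), ∫⁻ y, edist x y ^ (-s) ∂(μ'.map c) =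
      ∫⁻ y, edist x (c y) ^ (-s) ∂μ' := by
    intro x
    exact lintegral_map (hme1 x) hcm
  have hout : ∫⁻ x, ∫⁻ y, edist x y ^ (-s) ∂(μ'.map c) ∂(μ'.map c) =
      ∫⁻ x, ∫⁻ y, edist (c x) y ^ (-s) ∂(μ'.map c) ∂μ' :=
    lintegral_map (f := fun x => ∫⁻ y, edist x y ^ (-s) ∂(μ'.map c))
      hme.lintegral_prod_right' hcm
  rw [hout]
  simp_rw [hin]

/-- The energy form of Frostman's lemma for analytic sets. -/
theorem exists_energy_measure {Z : Set (EuclideanSpace ℝ (Fin n))} (hZ : AnalyticSet Z) {s : ℝ}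
    (hs : 0 < s) (hsd : ENNReal.ofReal s < dimH Z) :
    ∃ (μ : Measure (EuclideanSpace ℝ (Fin n))) (K : Set (EuclideanSpace ℝ (Fin n))),
      IsProbabilityMeasure μ ∧ K ⊆ Z ∧ IsCompact K ∧ μ Kᶜ = 0 ∧
      ∫⁻ x, ∫⁻ y, edist x y ^ (-s) ∂μ ∂μ ≠ ∞ := by
  obtain ⟨s', hs1, hs2⟩ := ENNReal.lt_iff_exists_nnreal_btwn.1 hsd
  have hss : s < s' := by
    rwa [← ENNReal.ofReal_coe_nnreal, ENNReal.ofReal_lt_ofReal_iff_of_nonneg hs.le] at hs1
  have hH : μH[(s' : ℝ)] Z = ∞ := hausdorffMeasure_of_lt_dimH hs2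
  have hZu : Z = ⋃ v : Fin n → ℤ, code v '' (code v ⁻¹' Z) := by
    ext z
    constructor
    · intro hz
      obtain ⟨v, x, hx⟩ := exists_code z
      exact mem_iUnion.2 ⟨v, ⟨x, by rw [mem_preimage, hx]; exact hz, hx⟩⟩
    · intro hz
      obtain ⟨v, x, hx, rfl⟩ := mem_iUnion.1 hz
      exact hx
  have hex : ∃ v : Fin n → ℤ, μH[(s' : ℝ)] (code v '' (code v ⁻¹' Z)) ≠ 0 := by
    by_contra hcon
    push Not at hcon
    have h0 : μH[(s' : ℝ)] Z = 0 := by
      rw [hZu]
      exact measure_iUnion_null hcon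
    rw [h0] at hH
    exact absurd hH (by simp)
  obtain ⟨v, hv⟩ := hex
  set b : ℝ := (2 : ℝ) ^ (s / 2) with hb
  have hb0 : 0 < b := by positivity
  have hcap : 0 < cap b (code v ⁻¹' Z) := by
    have hne : cap b (code v ⁻¹' Z) ≠ 0 := by
      intro h0
      exact hv (hausdorff_null_of_cap hs hss v h0)
    exact lt_of_le_of_ne (cap_nonneg _ _) (Ne.symm hne)
  have hanal : AnalyticSet (code v ⁻¹' Z) := hZ.preimage (continuous_code v)
  obtain ⟨K', hK'Z, hK'c, hK'cap⟩ := exists_compact_cap hb0.le hanal hcap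
  obtain ⟨μ', hμ'p, hμ'K, hμ'e⟩ := exists_measure_of_cap hb0 hK'c.isClosed hK'cap
  have hcm : Measurable (code v) := (continuous_code v).measurable
  refine ⟨μ'.map (code v), code v '' K', Measure.isProbabilityMeasure_map hcm.aemeasurable, ?_,
    hK'c.image (continuous_code v), ?_, ?_⟩
  · rintro _ ⟨x, hx, rfl⟩
    exact hK'Z hx
  · rw [Measure.map_apply hcm (hK'c.image (continuous_code v)).isClosed.measurableSet.compl]
    refine measure_mono_null ?_ hμ'K
    intro x hx hxK
    exact hx ⟨x, hxK, rfl⟩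
  · have hb2 : ∀ k : ℕ, (b ^ 2) ^ k = ((2 : ℝ) ^ s) ^ k := by
      intro k
      congr 1
      rw [hb, ← Real.rpow_natCast, ← Real.rpow_mul (by norm_num)]
      congr 1
      push_cast
      ring
    simp_rw [hb2] at hμ'e
    have h1 := energy_code v hs μ' hμ'e
    rw [energy_map μ' (code v) hcm s]
    exact h1

end Pool.Agent.Lib_MP_c56c8e_an
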