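import Pool.Agent.Lib_MP_c56c8e_an.EnergyIneq
import Pool.Agent.Lib_MP_c56c8e_an.RnEnergy
namespace Pool.Agent.Lib_MP_c56c8e_an

open MeasureTheory Set Filter Topology Metric
open scoped ENNReal NNReal InnerProductSpace

section General

variable {X : Type*} [MetricSpace X] [MeasurableSpace X] [BorelSpace X] [SecondCountableTopology X]

/-- Finite energy forces positive Hausdorff measure. -/
theorem hausdorff_ne_zero_of_energy (ν : Measure X) [IsFiniteMeasure ν] (hν : ν ≠ 0) (A : Set X)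
    (hA : ν Aᶜ = 0) {s : ℝ} (hs : 0 < s) (hI : ∫⁻ y, ∫⁻ z, edist y z ^ (-s) ∂ν ∂ν ≠ ∞) :
    μH[s] A ≠ 0 := by
  set U : X → ℝ≥0∞ := fun y => ∫⁻ z, edist y z ^ (-s) ∂ν with hU
  have hUm : Measurable U := by
    have h1 : Measurable (fun p : X × X => edist p.1 p.2 ^ (-s)) := measurable_edist.pow_const _
    exact h1.lintegral_prod_right'
  have hfin : ∀ᵐ y ∂ν, U y < ∞ := ae_lt_top hUm hI
  -- choose a level
  obtain ⟨M, hM⟩ : ∃ M : ℕ, ν {y | U y ≤ M} ≠ 0 := by
    by_contra hcon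
    push Not at hcon
    have h1 : ν (⋃ M : ℕ, {y | U y ≤ M}) = 0 := measure_iUnion_null hcon
    have h2 : ν (⋃ M : ℕ, {y | U y ≤ M})ᶜ = 0 := by
      have : ∀ᵐ y ∂ν, y ∈ ⋃ M : ℕ, {y | U y ≤ M} := by
        filter_upwards [hfin] with y hy
        obtain ⟨M, hM⟩ := ENNReal.exists_nat_gt hy.ne
        exact mem_iUnion.2 ⟨M, hM.le⟩
      exact this
    apply hν
    rw [← Measure.measure_univ_eq_zero, ← union_compl_self (⋃ M : ℕ, {y | U y ≤ M})]
    exact measure_union_null h1 h2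
  set B : Set X := {y | U y ≤ M} with hB
  have hBm : MeasurableSet B := measurableSet_le hUm measurable_const
  set c : ℝ≥0∞ := (M : ℝ≥0∞) + 1 with hc
  have hc0 : c ≠ 0 := by rw [hc]; simp
  have hct : c ≠ ∞ := by rw [hc]; simp
  have hcB : ∀ y ∈ B, U y ≤ c := fun y hy => le_trans hy le_self_add
  have hmass : ∀ V : Set X, ν.restrict B V ≤ c * ediam V ^ s := by
    intro V
    rw [Measure.restrict_apply' hBm]
    rcases (V ∩ B).eq_empty_or_nonempty with hemp | ⟨y, hyV, hyB⟩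
    · rw [hemp]; simp
    set r := ediam V with hr
    by_cases hrt : r = ∞
    · rw [hrt, ENNReal.top_rpow_of_pos hs, ENNReal.mul_top hc0]
      exact le_top
    have hsub : V ∩ B ⊆ {z | edist y z ≤ r} := by
      rintro z ⟨hz, _⟩
      exact edist_le_ediam_of_mem hyV hz
    have hmeas : MeasurableSet {z | edist y z ≤ r} :=
      measurableSet_le (measurable_const.edist measurable_id) measurable_const
    have h1 : r ^ (-s) * ν {z | edist y z ≤ r} ≤ c := by
      refine le_trans ?_ (hcB y hyB)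
      calc r ^ (-s) * ν {z | edist y z ≤ r} = ∫⁻ z in {z | edist y z ≤ r}, r ^ (-s) ∂ν := by
            rw [setLIntegral_const]
        _ ≤ ∫⁻ z in {z | edist y z ≤ r}, edist y z ^ (-s) ∂ν := by
            apply setLIntegral_mono' hmeas
            intro z hz
            rw [ENNReal.rpow_neg, ENNReal.rpow_neg]
            exact ENNReal.inv_le_inv.2 (ENNReal.rpow_le_rpow hz hs.le)
        _ ≤ U y := setLIntegral_le_lintegral _ _
    refine (measure_mono hsub).trans ?_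
    by_cases hr0 : r = 0
    · rw [hr0, ENNReal.zero_rpow_of_neg (by linarith)] at h1
      have h2 : ν {z | edist y z ≤ 0} = 0 := by
        by_contra h3
        rw [ENNReal.top_mul h3] at h1
        exact hct (top_unique h1)
      rw [hr0, h2]
      exact bot_le
    · have h4 : r ^ s * r ^ (-s) = 1 := by
        rw [← ENNReal.rpow_add _ _ hr0 hrt]; simp
      calc ν {z | edist y z ≤ r} = r ^ s * r ^ (-s) * ν {z | edist y z ≤ r} := by rw [h4, one_mul]
        _ = r ^ s * (r ^ (-s) * ν {z | edist y z ≤ r}) := by ring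
        _ ≤ r ^ s * c := by gcongr
        _ = c * r ^ s := mul_comm _ _
  have hle : c⁻¹ • ν.restrict B ≤ μH[s] := by
    apply Measure.le_hausdorffMeasure s _ 1 one_pos
    intro V _
    rw [Measure.smul_apply, smul_eq_mul]
    calc c⁻¹ * ν.restrict B V ≤ c⁻¹ * (c * ediam V ^ s) := by gcongr; exact hmass V
      _ = ediam V ^ s := by rw [← mul_assoc, ENNReal.inv_mul_cancel hc0 hct, one_mul]
  intro hcon
  have h5 : (c⁻¹ • ν.restrict B) A = 0 :=
    nonpos_iff_eq_zero.1 ((hle A).trans hcon.le)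
  rw [Measure.smul_apply, smul_eq_mul, Measure.restrict_apply' hBm, mul_eq_zero] at h5
  rcases h5 with h5 | h5
  · exact ENNReal.inv_ne_zero.2 hct h5
  · apply hM
    have h6 : B ⊆ (A ∩ B) ∪ Aᶜ := by
      intro y hy
      by_cases hyA : y ∈ A
      · exact Or.inl ⟨hyA, hy⟩
      · exact Or.inr hyA
    exact measure_mono_null h6 (measure_union_null h5 hA)

end General

variable {n : ℕ}

lemma norm_sq_proj (x : En n) (hx : ‖x‖ = 1) (u : En n) :
    ‖(ℝ ∙ x)ᗮ.starProjection u‖ ^ 2 = ‖u‖ ^ 2 - ⟪x, u⟫_ℝ ^ 2 := by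
  have h1 := Submodule.norm_sq_eq_add_norm_sq_starProjection u (ℝ ∙ x)
  rw [Submodule.starProjection_unit_singleton ℝ hx, norm_smul, hx, mul_one, Real.norm_eq_abs,
    sq_abs] at h1
  linarith

lemma energy_dimH (μ : Measure (En n)) [IsProbabilityMeasure μ] (K : Set (En n))
    (hK : IsCompact K)
    (hμK : μ Kᶜ = 0) (x : En n) (hx : ‖x‖ = 1) {s : ℝ} (hs : 0 < s)
    (hI : ∫⁻ p : En n × En n, (ENNReal.ofReal (‖p.1 - p.2‖ ^ 2 -
        ⟪x, p.1 - p.2⟫_ℝ ^ 2)) ^ (-(s / 2)) ∂(μ.prod μ) ≠ ∞) :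
    ENNReal.ofReal s ≤ dimH ((ℝ ∙ x)ᗮ.starProjection '' K) := by
  set P : En n → En n := (ℝ ∙ x)ᗮ.starProjection with hP
  have hPc : Continuous P := (ℝ ∙ x)ᗮ.starProjection.continuous
  have hPm : Measurable P := hPc.measurable
  have hprob : IsProbabilityMeasure (μ.map P) := Measure.isProbabilityMeasure_map hPm.aemeasurable
  have hpt : ∀ y z : En n, edist (P y) (P z) ^ (-s) =
      (ENNReal.ofReal (‖y - z‖ ^ 2 - ⟪x, y - z⟫_ℝ ^ 2)) ^ (-(s / 2)) := by
    intro y z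
    rw [← norm_sq_proj x hx, edist_dist, dist_eq_norm, ENNReal.ofReal_pow (norm_nonneg _),
      ← ENNReal.rpow_natCast, ← ENNReal.rpow_mul]
    have h1 : P y - P z = (ℝ ∙ x)ᗮ.starProjection (y - z) := by
      rw [hP, map_sub]
    rw [h1]
    congr 1
    push_cast
    ring
  have hE : ∫⁻ y, ∫⁻ z, edist y z ^ (-s) ∂(μ.map P) ∂(μ.map P) ≠ ∞ := by
    rw [energy_map μ P hPm s]
    simp_rw [hpt]
    have hm : Measurable (fun p : En n × En n => (ENNReal.ofReal (‖p.1 - p.2‖ ^ 2 -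
        ⟪x, p.1 - p.2⟫_ℝ ^ 2)) ^ (-(s / 2))) := by
      have : Continuous (fun p : En n × En n => ‖p.1 - p.2‖ ^ 2 - ⟪x, p.1 - p.2⟫_ℝ ^ 2) := by
        fun_prop
      exact (this.measurable.ennreal_ofReal).pow_const _
    rw [lintegral_prod _ hm.aemeasurable] at hI
    exact hI
  have hnull : (μ.map P) (P '' K)ᶜ = 0 := by
    rw [Measure.map_apply hPm (hK.image hPc).isClosed.measurableSet.compl]
    refine measure_mono_null ?_ hμK
    intro y hy hyK
    exact hy ⟨y, hyK, rfl⟩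
  have hH := hausdorff_ne_zero_of_energy (μ.map P) (IsProbabilityMeasure.ne_zero _) (P '' K)
    hnull hs hE
  have hs' : ((s.toNNReal : ℝ≥0) : ℝ) = s := Real.coe_toNNReal s hs.le
  have := le_dimH_of_hausdorffMeasure_ne_zero (d := s.toNNReal) (s := P '' K) (by rw [hs']; exact hH)
  exact this

/-- **Restricted projection theorem** under the tube estimate. -/
theorem restricted_projection {Θ : Type*} [MeasurableSpace Θ] (hn : 0 < n)
    {Z : Set (En n)} (hZ : AnalyticSet Z) (ρ : Measure Θ) [SFinite ρ]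
    (x : Θ → En n) (hxm : Measurable x) (hx1 : ∀ θ, ‖x θ‖ = 1) {C : ℝ} (hC0 : 0 < C)
    (hC : ∀ e : En n, ‖e‖ = 1 → ∀ δ : ℝ, 0 < δ →
      ρ {θ | |⟪x θ, e⟫_ℝ| < δ} ≤ ENNReal.ofReal (C * δ)) :
    ∀ᵐ θ ∂ρ, min (dimH Z) ((n - 1 : ℕ) : ℝ≥0∞) ≤ dimH ((ℝ ∙ x θ)ᗮ.starProjection '' Z) := by
  have hone : ∀ q : ℚ, 0 < (q : ℝ) → ENNReal.ofReal (q : ℝ) < min (dimH Z) ((n - 1 : ℕ) : ℝ≥0∞) →
      ∀ᵐ θ ∂ρ, ENNReal.ofReal (q : ℝ) ≤ dimH ((ℝ ∙ x θ)ᗮ.starProjection '' Z) := by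
    intro q hq0 hq
    obtain ⟨hq1, hq2⟩ := lt_min_iff.1 hq
    have hqn : (q : ℝ) < (n - 1 : ℕ) := by
      rw [← ENNReal.ofReal_natCast, ENNReal.ofReal_lt_ofReal_iff_of_nonneg hq0.le] at hq2
      exact hq2
    obtain ⟨μ, K, hμ, hKZ, hK, hμK, hE⟩ := exists_energy_measure hZ hq0 hq1
    have hE' : ∫⁻ p : En n × En n, (ENNReal.ofReal (‖p.1 - p.2‖ ^ 2)) ^ (-((q : ℝ) / 2))
        ∂(μ.prod μ) ≠ ∞ := by
      have hm : Measurable (fun p : En n × En n =>
          (ENNReal.ofReal (‖p.1 - p.2‖ ^ 2)) ^ (-((q : ℝ) / 2))) := by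
        have : Continuous (fun p : En n × En n => ‖p.1 - p.2‖ ^ 2) := by fun_prop
        exact (this.measurable.ennreal_ofReal).pow_const _
      rw [lintegral_prod _ hm.aemeasurable]
      have hpt : ∀ y z : En n, (ENNReal.ofReal (‖y - z‖ ^ 2)) ^ (-((q : ℝ) / 2)) =
          edist y z ^ (-(q : ℝ)) := by
        intro y z
        rw [edist_dist, dist_eq_norm, ENNReal.ofReal_pow (norm_nonneg _),
          ← ENNReal.rpow_natCast, ← ENNReal.rpow_mul]
        congr 1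
        push_cast
        ring
      simp_rw [hpt]
      exact hE
    have hfin := energy_finite hn μ ρ x hxm hx1 hC0 hC hq0 hqn hE'
    have hm : Measurable (fun q' : Θ × (En n × En n) => (ENNReal.ofReal (‖q'.2.1 - q'.2.2‖ ^ 2 -
        ⟪x q'.1, q'.2.1 - q'.2.2⟫_ℝ ^ 2)) ^ (-((q : ℝ) / 2))) := by
      have h2 := measurable_QF_comp x hxm 1 0
        (fun q : Θ × (En n × En n) => q.1) (fun q => q.2.1 - q.2.2) measurable_fst
        ((measurable_fst.comp measurable_snd).sub (measurable_snd.comp measurable_snd))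
      unfold QF at h2
      have h3 : Measurable (fun q : Θ × (En n × En n) =>
        ‖q.2.1 - q.2.2‖ ^ 2 - ⟪x q.1, q.2.1 - q.2.2⟫_ℝ ^ 2) := by simpa using h2
      exact (h3.ennreal_ofReal).pow_const _
    rw [lintegral_prod _ hm.aemeasurable] at hfin
    have hae := ae_lt_top hm.lintegral_prod_right' hfin
    filter_upwards [hae] with θ hθ
    exact (energy_dimH μ K hK hμK (x θ) (hx1 θ) hq0 hθ.ne).trans
      (dimH_mono (image_mono hKZ))
  have hall : ∀ᵐ θ ∂ρ, ∀ q : ℚ, 0 < (q : ℝ) →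
      ENNReal.ofReal (q : ℝ) < min (dimH Z) ((n - 1 : ℕ) : ℝ≥0∞) →
      ENNReal.ofReal (q : ℝ) ≤ dimH ((ℝ ∙ x θ)ᗮ.starProjection '' Z) := by
    rw [ae_all_iff]
    intro q
    by_cases h0 : 0 < (q : ℝ)
    · by_cases h1 : ENNReal.ofReal (q : ℝ) < min (dimH Z) ((n - 1 : ℕ) : ℝ≥0∞)
      · filter_upwards [hone q h0 h1] with θ hθ _ _ using hθ
      · exact ae_of_all _ fun θ _ h => absurd h h1
    · exact ae_of_all _ fun θ h => absurd h h0
  filter_upwards [hall] with θ hθ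
  apply le_of_forall_lt
  intro a ha
  obtain ⟨q, hq0, haq, hqb⟩ := ENNReal.lt_iff_exists_rat_btwn.1 ha
  have hqb' : ENNReal.ofReal (q : ℝ) < min (dimH Z) ((n - 1 : ℕ) : ℝ≥0∞) := hqb
  have haq' : a < ENNReal.ofReal (q : ℝ) := haq
  have hq0' : 0 < (q : ℝ) := by
    have : (0 : ℝ≥0∞) < ENNReal.ofReal (q : ℝ) := bot_le.trans_lt haq'
    exact ENNReal.ofReal_pos.1 this
  exact haq'.trans_le (hθ q hq0' hqb')

end Pool.Agent.Lib_MP_c56c8e_an
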