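import Pool.Agent.Lib_MP_c56c8e_an.Geometry
import Pool.Agent.Lib_MP_c56c8e_an.Restricted
namespace Pool.Agent.Lib_MP_c56c8e_an

open MeasureTheory Set Filter Topology Metric
open scoped ENNReal NNReal InnerProductSpace

variable {d n : ℕ} {φ : En d → En n} {U : Set (En d)}

lemma hausdorff_null_of_volume_null (d : ℕ) {A : Set (En d)} (h : volume A = 0) :
    μH[(d : ℝ)] A = 0 := by
  have h1 : (μH[(Module.finrank ℝ (En d) : ℝ)] : Measure (En d)) ≪ volume :=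
    Measure.absolutelyContinuous_isAddHaarMeasure _ _
  have h2 : Module.finrank ℝ (En d) = d := by simp
  rw [h2] at h1
  exact h1 h

/-- local version -/
lemma local_null (hd : 2 ≤ d) (hnd : n = d + 2) (hU : IsOpen U) (hφ : ContDiffOn ℝ 2 φ U)
    (himm : ∀ u ∈ U, Function.Injective (fderiv ℝ φ u)) (hsph : ∀ u ∈ U, ‖φ u‖ = 1)
    (hK : ∀ u ∈ U, ∀ a b : En d, LinearIndependent ℝ ![a, b] → 1 < secCurv φ u a b)
    {Z : Set (En n)} (hZ : AnalyticSet Z) {u₀ : En d} (hu₀ : u₀ ∈ U) :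
    ∃ r : ℝ, 0 < r ∧ ball u₀ r ⊆ U ∧ μH[(d : ℝ)] (φ '' {u | u ∈ ball u₀ r ∧
      ¬ (min (dimH Z) ((n - 1 : ℕ) : ℝ≥0∞) ≤ dimH ((ℝ ∙ φ u)ᗮ.starProjection '' Z))}) = 0 := by
  obtain ⟨r₁, hr₁, C, hC, hT⟩ := exists_tube hd hnd hU hφ himm hsph hK hu₀
  obtain ⟨r₂, hr₂, hr₂U⟩ := Metric.isOpen_iff.1 hU u₀ hu₀
  have hcd : ContDiffAt ℝ 1 φ u₀ := (hφ.contDiffAt (hU.mem_nhds hu₀)).of_le (by norm_num)
  obtain ⟨K, t, ht, hLip⟩ := hcd.exists_lipschitzOnWith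
  obtain ⟨r₃, hr₃, hr₃t⟩ := Metric.mem_nhds_iff.1 ht
  set r := min r₁ (min r₂ r₃) with hr
  have hr0 : 0 < r := lt_min hr₁ (lt_min hr₂ hr₃)
  have hrr₁ : r ≤ r₁ := min_le_left _ _
  have hrr₂ : r ≤ r₂ := (min_le_right _ _).trans (min_le_left _ _)
  have hrr₃ : r ≤ r₃ := (min_le_right _ _).trans (min_le_right _ _)
  have hBU : ball u₀ r ⊆ U := (ball_subset_ball hrr₂).trans hr₂U
  refine ⟨r, hr0, hBU, ?_⟩
  have hn : 0 < n := by omega
  -- the measurable unit vector field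
  classical
  set x : En d → En n := (ball u₀ r).piecewise φ (fun _ => EuclideanSpace.single ⟨0, hn⟩ 1) with hx
  have hxm : Measurable x := by
    apply ContinuousOn.measurable_piecewise
    · intro u hu
      exact (hasFDerivAt_of hU hφ (hBU hu)).continuousAt.continuousWithinAt
    · exact continuousOn_const
    · exact measurableSet_ball
  have hx1 : ∀ u, ‖x u‖ = 1 := by
    intro u
    by_cases hu : u ∈ ball u₀ r
    · rw [hx, piecewise_eq_of_mem _ _ _ hu]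
      exact hsph u (hBU hu)
    · rw [hx, piecewise_eq_of_notMem _ _ _ hu]
      simp
  have htube : ∀ e : En n, ‖e‖ = 1 → ∀ δ : ℝ, 0 < δ →
      (volume.restrict (ball u₀ r)) {u | |⟪x u, e⟫_ℝ| < δ} ≤ ENNReal.ofReal (C * δ) := by
    intro e he δ hδ
    rw [Measure.restrict_apply' measurableSet_ball]
    refine (measure_mono ?_).trans (hT e he δ hδ)
    rintro u ⟨hu1, hu2⟩
    refine ⟨ball_subset_ball hrr₁ hu2, ?_⟩
    have h1 : |⟪x u, e⟫_ℝ| < δ := hu1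
    rw [hx, piecewise_eq_of_mem _ _ _ hu2] at h1
    exact h1
  have hmain := restricted_projection hn hZ (volume.restrict (ball u₀ r)) x hxm hx1 hC htube
  rw [ae_restrict_iff' measurableSet_ball] at hmain
  have hnull : volume {u | u ∈ ball u₀ r ∧
      ¬ (min (dimH Z) ((n - 1 : ℕ) : ℝ≥0∞) ≤ dimH ((ℝ ∙ φ u)ᗮ.starProjection '' Z))} = 0 := by
    refine measure_mono_null ?_ (ae_iff.1 hmain)
    rintro u ⟨hu1, hu2⟩
    simp only [mem_ofPred_eq]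
    intro h
    apply hu2
    have := h hu1
    rw [hx, piecewise_eq_of_mem _ _ _ hu1] at this
    exact this
  have hL : LipschitzOnWith K φ {u | u ∈ ball u₀ r ∧
      ¬ (min (dimH Z) ((n - 1 : ℕ) : ℝ≥0∞) ≤ dimH ((ℝ ∙ φ u)ᗮ.starProjection '' Z))} :=
    hLip.mono fun u hu => hr₃t (ball_subset_ball hrr₃ hu.1)
  have h2 := hL.hausdorffMeasure_image_le (d := (d : ℝ)) (Nat.cast_nonneg d)
  rw [hausdorff_null_of_volume_null d hnull, mul_zero] at h2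
  exact nonpos_iff_eq_zero.1 h2

lemma dimH_proj_eq (x : En n) (Z : Set (En n)) :
    dimH ((ℝ ∙ x)ᗮ.starProjection '' Z) = dimH ((ℝ ∙ x)ᗮ.orthogonalProjectionOnto '' Z) := by
  have h1 : (ℝ ∙ x)ᗮ.starProjection '' Z =
      (ℝ ∙ x)ᗮ.subtypeₗᵢ '' ((ℝ ∙ x)ᗮ.orthogonalProjectionOnto '' Z) := by
    rw [image_image]
    rfl
  rw [h1, ((ℝ ∙ x)ᗮ.subtypeₗᵢ).isometry.dimH_image]

lemma dimH_proj_le (hn : 0 < n) {x : En n} (hx : ‖x‖ = 1) (Z : Set (En n)) :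
    dimH ((ℝ ∙ x)ᗮ.orthogonalProjectionOnto '' Z) ≤ min (dimH Z) ((n - 1 : ℕ) : ℝ≥0∞) := by
  apply le_min
  · exact dimH_orthogonalProjectionOnto_le _ _
  · have hx0 : x ≠ 0 := by
      rintro rfl
      simp at hx
    have h1 : Module.finrank ℝ (ℝ ∙ x)ᗮ = n - 1 := by
      have h2 : Module.finrank ℝ (ℝ ∙ x) + Module.finrank ℝ (ℝ ∙ x)ᗮ =
          Module.finrank ℝ (En n) := Submodule.finrank_add_finrank_orthogonal _
      rw [finrank_span_singleton hx0] at h2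
      have h3 : Module.finrank ℝ (En n) = n := by simp
      rw [h3] at h2
      omega
    calc dimH ((ℝ ∙ x)ᗮ.orthogonalProjectionOnto '' Z) ≤ dimH (univ : Set (ℝ ∙ x)ᗮ) :=
          dimH_mono (subset_univ _)
      _ = ((n - 1 : ℕ) : ℝ≥0∞) := by
          rw [Real.dimH_univ_eq_finrank, h1]

/-- **Restricted projections onto tangent hyperplanes of the sphere.** -/
theorem main (n : ℕ) (hn : 4 ≤ n) (Z : Set (EuclideanSpace ℝ (Fin n))) (hZ : AnalyticSet Z)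
    (S : Set (EuclideanSpace ℝ (Fin n))) (hS : S ⊆ sphere 0 1)
    (hM : IsC2Submanifold (n - 2) S) (hK : SecCurvGt (n - 2) S 1) :
    μH[((n - 2 : ℕ) : ℝ)] {x | x ∈ S ∧ dimProj (perp x) Z ≠
      min (dimH Z) ((n - 1 : ℕ) : ℝ≥0∞)} = 0 := by
  set d := n - 2 with hd
  have hd2 : 2 ≤ d := by omega
  have hnd : n = d + 2 := by omega
  have hn0 : 0 < n := by omega
  have hloc : ∀ p : S, ∃ V : Set (En n), IsOpen V ∧ (p : En n) ∈ V ∧
      μH[(d : ℝ)] (V ∩ {x | x ∈ S ∧ dimProj (perp x) Z ≠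
      min (dimH Z) ((n - 1 : ℕ) : ℝ≥0∞)}) = 0 := by
    rintro ⟨p, hp⟩
    obtain ⟨U, φ, hφ, u₀, hu₀, rfl⟩ := hM p hp
    have hUS : φ '' U ⊆ S := by
      obtain ⟨V, _, hV⟩ := hφ.isOpen_image U subset_rfl hφ.isOpen
      rw [hV]
      exact inter_subset_left
    have hsph : ∀ u ∈ U, ‖φ u‖ = 1 := by
      intro u hu
      have := hS (hUS ⟨u, hu, rfl⟩)
      simpa using this
    obtain ⟨r, hr, hrU, hnull⟩ := local_null hd2 hnd hφ.isOpen hφ.contDiffOn hφ.immersion hsph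
      (hK U φ hφ) hZ hu₀
    obtain ⟨V, hVo, hV⟩ := hφ.isOpen_image (ball u₀ r) hrU isOpen_ball
    refine ⟨V, hVo, ?_, ?_⟩
    · have : φ u₀ ∈ S ∩ V := by
        rw [← hV]
        exact ⟨u₀, mem_ball_self hr, rfl⟩
      exact this.2
    · refine measure_mono_null ?_ hnull
      rintro x ⟨hxV, hxS, hxd⟩
      have hxm : x ∈ φ '' ball u₀ r := by
        rw [hV]
        exact ⟨hxS, hxV⟩
      obtain ⟨u, hu, rfl⟩ := hxm
      refine ⟨u, ⟨hu, ?_⟩, rfl⟩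
      intro hle
      apply hxd
      rw [dimH_proj_eq] at hle
      exact le_antisymm (dimH_proj_le hn0 (hsph u (hrU hu)) Z) hle
  choose V hVo hpV hVn using hloc
  obtain ⟨T, hTc, hTU⟩ := TopologicalSpace.isOpen_iUnion_countable V hVo
  have hcov : {x | x ∈ S ∧ dimProj (perp x) Z ≠
      min (dimH Z) ((n - 1 : ℕ) : ℝ≥0∞)} ⊆ ⋃ p ∈ T, (V p ∩ {x | x ∈ S ∧
      dimProj (perp x) Z ≠ min (dimH Z) ((n - 1 : ℕ) : ℝ≥0∞)}) := by
    intro x hx
    have h1 : x ∈ ⋃ p ∈ T, V p := by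
      rw [hTU]
      exact mem_iUnion.2 ⟨⟨x, hx.1⟩, hpV _⟩
    obtain ⟨p, hpT, hxp⟩ := mem_iUnion₂.1 h1
    exact mem_iUnion₂.2 ⟨p, hpT, hxp, hx⟩
  refine measure_mono_null hcov ?_
  rw [measure_biUnion_null_iff hTc]
  intro p _
  exact hVn p

end Pool.Agent.Lib_MP_c56c8e_an
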