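import Pool.Agent.Lib_MP_c56c8e_an.Gauss
namespace Pool.Agent.Lib_MP_c56c8e_an

open MeasureTheory Set Filter Topology Complex
open scoped ENNReal NNReal InnerProductSpace

variable {n : ℕ}

/-- squared modulus of the Fourier transform of `μ` -/
noncomputable def MF (μ : Measure (En n)) (ξ : En n) : ℝ≥0∞ := ENNReal.ofReal (‖charFun μ ξ‖ ^ 2)

lemma measurable_MF (μ : Measure (En n)) [IsFiniteMeasure μ] : Measurable (MF μ) :=
  ((measurable_charFun.norm).pow_const 2).ennreal_ofReal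

lemma normSq_charFun (μ : Measure (En n)) [IsFiniteMeasure μ] (ξ : En n) :
    ((‖charFun μ ξ‖ ^ 2 : ℝ) : ℂ) =
      ∫ p : En n × En n, cexp (⟪p.1 - p.2, ξ⟫_ℝ * I) ∂(μ.prod μ) := by
  have h1 : ((‖charFun μ ξ‖ ^ 2 : ℝ) : ℂ) = charFun μ ξ * charFun μ (-ξ) := by
    rw [charFun_neg, Complex.mul_conj, Complex.normSq_eq_norm_sq]
  rw [h1, charFun_apply, charFun_apply, ← integral_prod_mul]
  apply integral_congr_ae
  apply ae_of_all
  intro p
  simp only
  rw [← Complex.exp_add, inner_sub_left, inner_neg_right]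
  congr 1
  push_cast
  ring

lemma parseval (μ : Measure (En n)) [IsFiniteMeasure μ] (g G : En n → ℝ)
    (hg : Integrable g) (hg0 : ∀ ξ, 0 ≤ g ξ) (hG0 : ∀ u, 0 ≤ G u) (hGm : Measurable G)
    (hgG : ∀ u, ∫ ξ, (g ξ : ℂ) * cexp (⟪u, ξ⟫_ℝ * I) = (G u : ℂ)) :
    ∫⁻ ξ, ENNReal.ofReal (g ξ) * MF μ ξ =
      ∫⁻ p, ENNReal.ofReal (G (p.1 - p.2)) ∂(μ.prod μ) := by
  have hexp : ∀ (p : En n × En n) (ξ : En n), ‖cexp (⟪p.1 - p.2, ξ⟫_ℝ * I)‖ = 1 := by
    intro p ξ
    exact Complex.norm_exp_ofReal_mul_I _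
  -- integrability on the product
  have hint : Integrable (Function.uncurry (fun (ξ : En n) (p : En n × En n) =>
      (g ξ : ℂ) * cexp (⟪p.1 - p.2, ξ⟫_ℝ * I))) (volume.prod (μ.prod μ)) := by
    have h1 : Integrable (fun q : En n × (En n × En n) => (g q.1 : ℂ) * (1 : ℂ))
        (volume.prod (μ.prod μ)) :=
      (hg.ofReal (𝕜 := ℂ)).mul_prod (integrable_const (1 : ℂ))
    refine h1.mono ?_ ?_
    · have hc : Continuous (fun q : En n × (En n × En n) =>
          cexp ((⟪q.2.1 - q.2.2, q.1⟫_ℝ : ℝ) * I)) := by fun_prop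
      have hg1 : AEStronglyMeasurable (fun q : En n × (En n × En n) => (g q.1 : ℂ))
          (volume.prod (μ.prod μ)) :=
        (hg.ofReal (𝕜 := ℂ)).aestronglyMeasurable.comp_fst
      exact hg1.mul hc.aestronglyMeasurable
    · apply ae_of_all
      intro q
      simp only [Function.uncurry]
      rw [norm_mul, norm_mul, hexp]
      simp
  have hswap := integral_integral_swap hint
  simp_rw [hgG (_ - _)] at hswap
  have hleft : ∀ ξ : En n, ∫ p : En n × En n, (g ξ : ℂ) * cexp (⟪p.1 - p.2, ξ⟫_ℝ * I) ∂(μ.prod μ)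
      = ((g ξ * ‖charFun μ ξ‖ ^ 2 : ℝ) : ℂ) := by
    intro ξ
    rw [integral_const_mul, ← normSq_charFun]
    push_cast
    rfl
  simp_rw [hleft] at hswap
  rw [integral_complex_ofReal, integral_complex_ofReal] at hswap
  have hreal : ∫ ξ, g ξ * ‖charFun μ ξ‖ ^ 2 = ∫ p : En n × En n, G (p.1 - p.2) ∂(μ.prod μ) := by
    exact_mod_cast hswap
  have hi1 : Integrable (fun ξ => g ξ * ‖charFun μ ξ‖ ^ 2) := by
    apply Integrable.mul_bdd (c := (μ.real univ) ^ 2) hg
    · exact ((measurable_charFun.norm).pow_const 2).aestronglyMeasurable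
    · apply ae_of_all
      intro ξ
      rw [norm_pow, norm_norm]
      gcongr
      exact norm_charFun_le ξ
  have hGb : ∀ u, ‖G u‖ ≤ ∫ ξ, g ξ := by
    intro u
    calc ‖G u‖ = ‖(G u : ℂ)‖ := by rw [Complex.norm_real]
      _ = ‖∫ ξ, (g ξ : ℂ) * cexp (⟪u, ξ⟫_ℝ * I)‖ := by rw [hgG]
      _ ≤ ∫ ξ, ‖(g ξ : ℂ) * cexp (⟪u, ξ⟫_ℝ * I)‖ := norm_integral_le_integral_norm _
      _ = ∫ ξ, g ξ := by
          apply integral_congr_ae
          apply ae_of_all
          intro ξ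
          simp only
          rw [norm_mul, Complex.norm_exp_ofReal_mul_I, mul_one, Complex.norm_real,
            Real.norm_of_nonneg (hg0 ξ)]
  have hi2 : Integrable (fun p : En n × En n => G (p.1 - p.2)) (μ.prod μ) := by
    apply Integrable.of_bound (C := ∫ ξ, g ξ)
    · exact (hGm.comp (measurable_fst.sub measurable_snd)).aestronglyMeasurable
    · exact ae_of_all _ fun p => hGb _
  rw [← ofReal_integral_eq_lintegral_ofReal hi2 (ae_of_all _ fun p => hG0 _), ← hreal,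
    ofReal_integral_eq_lintegral_ofReal hi1
      (ae_of_all _ fun ξ => mul_nonneg (hg0 ξ) (by positivity))]
  apply lintegral_congr
  intro ξ
  rw [MF, ENNReal.ofReal_mul (hg0 ξ)]

end Pool.Agent.Lib_MP_c56c8e_an
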