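import Pool.Agent.Lib_MP_c56c8e_an.Gauss
namespace Pool.Agent.Lib_MP_c56c8e_an

open MeasureTheory Set Filter Topology Metric
open scoped ENNReal NNReal InnerProductSpace

/-- One dimensional weighted estimate. -/
lemma weighted_bound {S : Set ℝ} {T b : ℝ} (hT : 0 < T) (hb : 0 ≤ b) (hS : S ⊆ Ioc 0 T)
    (hgrow : ∀ r₁ ∈ S, ∀ r₂ ∈ S, r₁ < r₂ → r₂ ^ 2 - r₁ ^ 2 ≤ b) {d : ℕ} (hd : 2 ≤ d) :
    ∫⁻ a in S, ENNReal.ofReal (a ^ (d - 1)) ≤ ENNReal.ofReal (T ^ (d - 2) * (b / 2)) := by
  rcases S.eq_empty_or_nonempty with rfl | hne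
  · simp
  have hbb : BddBelow S := ⟨0, fun r hr => (hS hr).1.le⟩
  have hba : BddAbove S := ⟨T, fun r hr => (hS hr).2⟩
  set α := sInf S with hα
  set β := sSup S with hβ
  have hα0 : 0 ≤ α := le_csInf hne fun r hr => (hS hr).1.le
  have hαβ : α ≤ β := csInf_le_csSup hne hbb hba
  have hβT : β ≤ T := csSup_le hne fun r hr => (hS hr).2
  have hSI : S ⊆ Icc α β := fun r hr => ⟨csInf_le hbb hr, le_csSup hba hr⟩
  have hle : ∀ r₂ ∈ S, r₂ ^ 2 - b ≤ α ^ 2 := by
    intro r₂ hr₂
    have h1 : ∀ r₁ ∈ S, r₂ ^ 2 - b ≤ r₁ ^ 2 := by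
      intro r₁ hr₁
      rcases lt_or_ge r₁ r₂ with h | h
      · linarith [hgrow r₁ hr₁ r₂ hr₂ h]
      · have := (hS hr₂).1
        nlinarith
    by_cases h2 : r₂ ^ 2 - b ≤ 0
    · exact h2.trans (sq_nonneg α)
    · push Not at h2
      have h3 : √(r₂ ^ 2 - b) ≤ α := by
        apply le_csInf hne
        intro r₁ hr₁
        rw [← Real.sqrt_sq (hS hr₁).1.le]
        exact Real.sqrt_le_sqrt (h1 r₁ hr₁)
      calc r₂ ^ 2 - b = √(r₂ ^ 2 - b) ^ 2 := (Real.sq_sqrt h2.le).symm
        _ ≤ α ^ 2 := by gcongr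
  have hβα : β ^ 2 - α ^ 2 ≤ b := by
    have h1 : β ≤ √(α ^ 2 + b) := by
      apply csSup_le hne
      intro r hr
      rw [← Real.sqrt_sq (hS hr).1.le]
      apply Real.sqrt_le_sqrt
      linarith [hle r hr]
    have h2 : β ^ 2 ≤ √(α ^ 2 + b) ^ 2 := by
      gcongr
      exact hα0.trans hαβ
    rw [Real.sq_sqrt (by positivity)] at h2
    linarith
  calc ∫⁻ a in S, ENNReal.ofReal (a ^ (d - 1))
      ≤ ∫⁻ a in Icc α β, ENNReal.ofReal (T ^ (d - 2)) * ENNReal.ofReal a := by
        refine (lintegral_mono_set hSI).trans ?_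
        apply setLIntegral_mono' measurableSet_Icc
        intro a ha
        have ha0 : 0 ≤ a := hα0.trans ha.1
        rw [← ENNReal.ofReal_mul (by positivity)]
        apply ENNReal.ofReal_le_ofReal
        have h1 : a ^ (d - 1) = a ^ (d - 2) * a := by
          rw [← pow_succ]
          congr 1
          omega
        rw [h1]
        gcongr
        exact ha.2.trans hβT
    _ = ENNReal.ofReal (T ^ (d - 2)) * ENNReal.ofReal ((β ^ 2 - α ^ 2) / 2) := by
        rw [lintegral_const_mul' _ _ ENNReal.ofReal_ne_top]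
        congr 1
        rw [← ofReal_integral_eq_lintegral_ofReal, integral_Icc_eq_integral_Ioc,
          ← intervalIntegral.integral_of_le hαβ, integral_id]
        · exact (continuous_id.integrableOn_Icc)
        · refine (ae_restrict_iff' measurableSet_Icc).2 (ae_of_all _ ?_)
          intro a ha
          exact hα0.trans ha.1
    _ ≤ ENNReal.ofReal (T ^ (d - 2)) * ENNReal.ofReal (b / 2) := by gcongr
    _ = ENNReal.ofReal (T ^ (d - 2) * (b / 2)) := by
        rw [← ENNReal.ofReal_mul (by positivity)]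

variable {d : ℕ}

/-- mass of the sphere -/
noncomputable def sphMass (d : ℕ) : ℝ≥0∞ := (volume : Measure (En d)).toSphere univ

lemma sphMass_ne_top (d : ℕ) : sphMass d ≠ ∞ := measure_ne_top _ _

/-- Polar coordinates estimate. -/
theorem polar_bound (hd : 2 ≤ d) (m : En d) {T : ℝ} (hT : 0 < T) {A : Set (En d)}
    (hA : MeasurableSet A) (hAT : A ⊆ closedBall m T) {b : ℝ} (hb : 0 ≤ b)
    (hgrow : ∀ ω : En d, ‖ω‖ = 1 → ∀ r₁ r₂ : ℝ, 0 < r₁ → r₁ < r₂ → m + r₁ • ω ∈ A →
      m + r₂ • ω ∈ A → r₂ ^ 2 - r₁ ^ 2 ≤ b) :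
    volume A ≤ sphMass d * ENNReal.ofReal (T ^ (d - 2) * (b / 2)) := by
  have hne : Nonempty (Fin d) := ⟨⟨0, by omega⟩⟩
  have hfr : Module.finrank ℝ (En d) = d := by simp
  set S : Set (sphere (0 : En d) 1 × Ioi (0 : ℝ)) := {p | m + (p.2 : ℝ) • (p.1 : En d) ∈ A} with hS
  have hSm : MeasurableSet S := by
    have hc : Continuous (fun p : sphere (0 : En d) 1 × Ioi (0 : ℝ) =>
        m + (p.2 : ℝ) • (p.1 : En d)) := by fun_prop
    exact hc.measurable hA
  have hmp := (volume : Measure (En d)).measurePreserving_homeomorphUnitSphereProd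
  have h1 : volume A = ((volume : Measure (En d)).toSphere.prod
      (Measure.volumeIoiPow (Module.finrank ℝ (En d) - 1))) S := by
    rw [← hmp.measure_preimage hSm.nullMeasurableSet,
      comap_subtype_coe_apply (measurableSet_singleton _).compl]
    have h2 : volume A = volume ((fun v => m + v) ⁻¹' A) := (measure_preimage_add _ m A).symm
    rw [h2]
    have h3 : (Subtype.val '' (homeomorphUnitSphereProd (En d) ⁻¹' S)) =
        ((fun v => m + v) ⁻¹' A) \ {0} := by
      ext v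
      constructor
      · rintro ⟨w, hw, rfl⟩
        have hw0 : (w : En d) ≠ 0 := w.2
        refine ⟨?_, hw0⟩
        have hw' : m + ‖(w : En d)‖ • (‖(w : En d)‖⁻¹ • (w : En d)) ∈ A := by
          simpa [hS] using hw
        rw [smul_smul, mul_inv_cancel₀ (norm_ne_zero_iff.2 hw0), one_smul] at hw'
        exact hw'
      · rintro ⟨hv, hv0⟩
        refine ⟨⟨v, hv0⟩, ?_, rfl⟩
        have hv' : m + ‖v‖ • (‖v‖⁻¹ • v) ∈ A := by
          rw [smul_smul, mul_inv_cancel₀ (norm_ne_zero_iff.2 hv0), one_smul]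
          exact hv
        simpa [hS] using hv'
    rw [h3, measure_sdiff_null (measure_singleton _)]
  rw [h1, Measure.prod_apply hSm, sphMass]
  calc ∫⁻ ω, (Measure.volumeIoiPow (Module.finrank ℝ (En d) - 1)) (Prod.mk ω ⁻¹' S)
        ∂(volume : Measure (En d)).toSphere
      ≤ ∫⁻ _ω, ENNReal.ofReal (T ^ (d - 2) * (b / 2)) ∂(volume : Measure (En d)).toSphere := by
        apply lintegral_mono
        intro ω
        simp only
        rw [hfr, Measure.volumeIoiPow, withDensity_apply _ (measurable_prodMk_left hSm),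
          setLIntegral_subtype measurableSet_Ioi _ fun a : ℝ ↦ ENNReal.ofReal (a ^ (d - 1))]
        have hωn : ‖(ω : En d)‖ = 1 := by simp
        apply weighted_bound hT hb _ _ hd
        · rintro _ ⟨r, hr, rfl⟩
          have hr' : m + (r : ℝ) • (ω : En d) ∈ A := hr
          refine ⟨r.2, ?_⟩
          have h4 := hAT hr'
          rw [mem_closedBall, dist_eq_norm, add_sub_cancel_left, norm_smul, hωn, mul_one,
            Real.norm_of_nonneg (le_of_lt r.2)] at h4
          exact h4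
        · rintro _ ⟨r₁, hr₁, rfl⟩ _ ⟨r₂, hr₂, rfl⟩ hlt
          exact hgrow ω hωn r₁ r₂ r₁.2 hlt hr₁ hr₂
    _ = _ := by rw [lintegral_const, mul_comm]

end Pool.Agent.Lib_MP_c56c8e_an
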