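import Pool.Agent.Lib_MP_c56c8e_an.TreeCap

namespace Pool.Agent.Lib_MP_c56c8e_an

open Set Filter Topology MeasureTheory
open scoped ENNReal NNReal

variable {α : Type*}

/-- The cylinder of a word. -/
def cyl (w : List α) : Set (ℕ → α) := {x | pre x w.length = w}

/-- Sets of zero capacity have small covers by cylinders. -/
theorem exists_cover {b t : ℝ} (hb : 0 < b) (ht : 0 < t) (htb : t * b ^ 2 < 1) {A : Set (ℕ → α)}
    (hA : cap b A = 0) {ε : ℝ} (hε : 0 < ε) :
    ∃ W : Set (List α), A ⊆ ⋃ w ∈ W, cyl w ∧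
      ∑' w : W, ENNReal.ofReal (t ^ (w : List α).length) ≤ ENNReal.ofReal ε := by
  set q : ℝ := b * Real.sqrt t with hq
  have hq0 : 0 < q := mul_pos hb (Real.sqrt_pos.2 ht)
  have hq2 : q ^ 2 = t * b ^ 2 := by rw [hq, mul_pow, Real.sq_sqrt ht.le]; ring
  have hq1 : q < 1 := by
    have : q ^ 2 < 1 := by rw [hq2]; exact htb
    nlinarith
  set c : ℝ := (1 - q) / 2 with hc
  have hc0 : 0 < c := by rw [hc]; linarith
  obtain ⟨F, hF, hFn⟩ := exists_feas (show cap b A < ε * c ^ 2 by rw [hA]; positivity)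
  refine ⟨{w | c * q ^ w.length ≤ b ^ w.length * F w}, ?_, ?_⟩
  · intro x hx
    by_contra hcon
    have hall : ∀ k : ℕ, b ^ k * F (pre x k) < c * q ^ k := by
      intro k
      by_contra hk
      apply hcon
      rw [mem_iUnion₂]
      refine ⟨pre x k, ?_, ?_⟩
      · rw [mem_ofPred_eq, length_pre]; exact not_lt.1 hk
      · simp [cyl]
    have h1 : ∑' k : ℕ, ENNReal.ofReal (b ^ k * F (pre x k))
        ≤ ∑' k : ℕ, ENNReal.ofReal (c * q ^ k) :=
      ENNReal.tsum_le_tsum fun k => ENNReal.ofReal_le_ofReal (hall k).le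
    have h2 : ∑' k : ℕ, ENNReal.ofReal (c * q ^ k) = ENNReal.ofReal (1 / 2) := by
      have hs : HasSum (fun k : ℕ => c * q ^ k) (c * (1 - q)⁻¹) :=
        (hasSum_geometric_of_lt_one hq0.le hq1).mul_left c
      rw [← ENNReal.ofReal_tsum_of_nonneg (fun k => by positivity) hs.summable, hs.tsum_eq, hc]
      congr 1
      have : 1 - q ≠ 0 := by linarith
      field_simp
    have h3 := (hF.2 x hx).trans (h1.trans_eq h2)
    rw [ENNReal.one_le_ofReal] at h3
    norm_num at h3
  · have hnorm := lp.hasSum_norm (E := fun _ : List α => ℝ) (p := 2) (by norm_num) F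
    simp only [ENNReal.toReal_ofNat, Real.rpow_ofNat] at hnorm
    have hle : ∀ w : {w : List α | c * q ^ w.length ≤ b ^ w.length * F w},
        ENNReal.ofReal (t ^ (w : List α).length)
          ≤ ENNReal.ofReal ((c ^ 2)⁻¹) * ENNReal.ofReal (‖F (w : List α)‖ ^ 2) := by
      rintro ⟨w, hw⟩
      rw [mem_ofPred_eq] at hw
      rw [← ENNReal.ofReal_mul (by positivity)]
      apply ENNReal.ofReal_le_ofReal
      have h0 : 0 ≤ c * q ^ w.length := by positivity
      have h1 : (c * q ^ w.length) ^ 2 ≤ (b ^ w.length * F w) ^ 2 := pow_le_pow_left₀ h0 hw 2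
      have hqw : (q ^ w.length) ^ 2 = t ^ w.length * (b ^ 2) ^ w.length := by
        rw [← pow_mul, mul_comm w.length 2, pow_mul, hq2, mul_pow]
      have hbw : (b ^ w.length) ^ 2 = (b ^ 2) ^ w.length := by
        rw [← pow_mul, mul_comm w.length 2, pow_mul]
      rw [mul_pow c, mul_pow (b ^ w.length), hqw, hbw] at h1
      have hbp : 0 < (b ^ 2) ^ w.length := by positivity
      have h2 : c ^ 2 * t ^ w.length ≤ F w ^ 2 := by
        have : (b ^ 2) ^ w.length * (c ^ 2 * t ^ w.length) ≤ (b ^ 2) ^ w.length * F w ^ 2 := by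
          linarith
        exact le_of_mul_le_mul_left this hbp
      rw [Real.norm_eq_abs, sq_abs]
      show t ^ w.length ≤ (c ^ 2)⁻¹ * F w ^ 2
      rw [inv_mul_eq_div, le_div_iff₀ (by positivity)]
      linarith
    calc _ ≤ ∑' w : {w : List α | c * q ^ w.length ≤ b ^ w.length * F w},
          ENNReal.ofReal ((c ^ 2)⁻¹) * ENNReal.ofReal (‖F (w : List α)‖ ^ 2) :=
            ENNReal.tsum_le_tsum hle
      _ = ENNReal.ofReal ((c ^ 2)⁻¹) * ∑' w : {w : List α | c * q ^ w.length ≤ b ^ w.length * F w},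
          ENNReal.ofReal (‖F (w : List α)‖ ^ 2) := ENNReal.tsum_mul_left
      _ ≤ ENNReal.ofReal ((c ^ 2)⁻¹) * ∑' w : List α, ENNReal.ofReal (‖F w‖ ^ 2) := by
          gcongr
          exact ENNReal.tsum_comp_le_tsum_of_injective Subtype.val_injective
            (fun w : List α => ENNReal.ofReal (‖F w‖ ^ 2))
      _ = ENNReal.ofReal ((c ^ 2)⁻¹) * ENNReal.ofReal (‖F‖ ^ 2) := by
          rw [← ENNReal.ofReal_tsum_of_nonneg (fun w => by positivity) hnorm.summable,
            hnorm.tsum_eq]
      _ ≤ ENNReal.ofReal ε := by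
          rw [← ENNReal.ofReal_mul (by positivity)]
          apply ENNReal.ofReal_le_ofReal
          rw [inv_mul_eq_div, div_le_iff₀ (by positivity)]
          exact hFn.le

section Top

variable [TopologicalSpace α] [DiscreteTopology α]

lemma continuous_pre (k : ℕ) : IsLocallyConstant (fun x : ℕ → α => pre x k) := by
  induction k with
  | zero => exact IsLocallyConstant.const _
  | succ k ih =>
    have h1 : IsLocallyConstant (fun x : ℕ → α => x k) :=
      (IsLocallyConstant.iff_continuous _).2 (continuous_apply k)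
    exact (h1.prodMk ih).comp (fun p : α × List α => p.1 :: p.2)

lemma isClopen_cyl (w : List α) : IsClopen (cyl w) :=
  (continuous_pre w.length).isClopen_fiber w

lemma isOpen_gt {b : ℝ} (F : HS α) :
    IsOpen {x : ℕ → α | 1 < ∑' k : ℕ, ENNReal.ofReal (b ^ k * F (pre x k))} := by
  have : LowerSemicontinuous
      (fun x : ℕ → α => ∑' k : ℕ, ENNReal.ofReal (b ^ k * F (pre x k))) := by
    apply lowerSemicontinuous_tsum
    intro k
    have h := (continuous_pre (α := α) k).comp (fun w => ENNReal.ofReal (b ^ k * F w))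
    exact h.continuous.lowerSemicontinuous
  exact this.isOpen_preimage 1

/-- Capacitability of analytic sets (for positivity of the capacity). -/
theorem exists_compact_cap {b : ℝ} (hb : 0 ≤ b) {A : Set (ℕ → α)} (hA : AnalyticSet A)
    (hcap : 0 < cap b A) : ∃ K ⊆ A, IsCompact K ∧ 0 < cap b K := by
  classical
  rw [AnalyticSet] at hA
  rcases hA with rfl | ⟨g, hg, hgA⟩
  · exfalso
    have : Feas b (0 : HS α) (∅ : Set (ℕ → α)) := ⟨fun w => le_rfl, fun x hx => absurd hx (by simp)⟩
    have := cap_le this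
    simp at this
    linarith
  set c : ℝ := cap b A / 2 with hc
  have hc0 : 0 < c := by positivity
  have hcA : c < cap b A := by rw [hc]; linarith
  let B : ℕ → (ℕ → ℕ) → Set (ℕ → ℕ) := fun m k => {σ | ∀ j < m, σ j ≤ k j}
  have step : ∀ (m : ℕ) (k : ℕ → ℕ), c < cap b (g '' B m k) →
      ∃ v : ℕ, c < cap b (g '' B (m + 1) (Function.update k m v)) := by
    intro m k hk
    by_contra hcon
    push Not at hcon
    have hun : g '' B m k = ⋃ v : ℕ, g '' B (m + 1) (Function.update k m v) := by
      rw [← image_iUnion]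
      congr 1
      ext σ
      simp only [B, mem_ofPred_eq, mem_iUnion]
      constructor
      · intro h
        refine ⟨σ m, fun j hj => ?_⟩
        rcases Nat.lt_succ_iff_lt_or_eq.1 hj with h1 | h1
        · rw [Function.update_of_ne (by omega)]; exact h j h1
        · subst h1; rw [Function.update_self]
      · rintro ⟨v, h⟩ j hj
        have := h j (by omega)
        rwa [Function.update_of_ne (by omega)] at this
    have hmono : Monotone (fun v : ℕ => g '' B (m + 1) (Function.update k m v)) := by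
      intro v v' hv
      apply image_mono
      intro σ h j hj
      have := h j hj
      rcases Nat.lt_succ_iff_lt_or_eq.1 hj with h1 | h1
      · rw [Function.update_of_ne (by omega)] at this ⊢; exact this
      · subst h1
        rw [Function.update_self] at this ⊢
        exact this.trans hv
    have := cap_iUnion hb _ hmono c hcon
    rw [← hun] at this
    linarith
  choose! v hv using step
  let K : ℕ → (ℕ → ℕ) := fun m => Nat.rec (fun _ => 0) (fun m k => Function.update k m (v m k)) m
  have hKs : ∀ m, K (m + 1) = Function.update (K m) m (v m (K m)) := fun m => rfl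
  have hP : ∀ m, c < cap b (g '' B m (K m)) := by
    intro m
    induction m with
    | zero =>
      have : B 0 (K 0) = univ := by ext σ; simp [B]
      rw [this, image_univ, hgA]; exact hcA
    | succ m ih => rw [hKs]; exact hv m (K m) ih
  let k : ℕ → ℕ := fun j => K (j + 1) j
  have hKk : ∀ m, ∀ j < m, K m j = k j := by
    intro m
    induction m with
    | zero => intro j hj; omega
    | succ m ih =>
      intro j hj
      rcases Nat.lt_succ_iff_lt_or_eq.1 hj with h1 | h1
      · rw [hKs, Function.update_of_ne (by omega)]; exact ih j h1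
      · subst h1; rfl
  have hBk : ∀ m, B m (K m) = B m k := by
    intro m
    ext σ
    simp only [B, mem_ofPred_eq]
    constructor
    · intro h j hj; rw [← hKk m j hj]; exact h j hj
    · intro h j hj; rw [hKk m j hj]; exact h j hj
  set C : Set (ℕ → ℕ) := Set.pi univ (fun j => Iic (k j)) with hC
  have hCc : IsCompact C := isCompact_univ_pi (fun j => (finite_Iic (k j)).isCompact)
  refine ⟨g '' C, ?_, hCc.image hg, ?_⟩
  · rw [← hgA]; exact image_subset_range _ _
  refine lt_of_lt_of_le hc0 ?_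
  by_contra hlt
  push Not at hlt
  obtain ⟨F, hF, hFn⟩ := exists_feas hlt
  -- enlarge slightly
  obtain ⟨η, hη1, hη⟩ : ∃ η : ℝ, 1 < η ∧ η ^ 2 * ‖F‖ ^ 2 < c := by
    have hcont : Tendsto (fun η : ℝ => η ^ 2 * ‖F‖ ^ 2) (𝓝[>] 1) (𝓝 (1 ^ 2 * ‖F‖ ^ 2)) :=
      ((continuous_pow 2).tendsto 1 |>.mul_const _).mono_left nhdsWithin_le_nhds
    have h1 : ∀ᶠ η : ℝ in 𝓝[>] 1, η ^ 2 * ‖F‖ ^ 2 < c := by
      apply hcont.eventually_lt_const
      rw [one_pow, one_mul]; exact hFn
    have h2 : ∀ᶠ η : ℝ in 𝓝[>] 1, 1 < η := eventually_mem_nhdsWithin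
    exact (h2.and h1).exists
  set F' : HS α := η • F with hF'
  have hsum' : ∀ x, ∑' k : ℕ, ENNReal.ofReal (b ^ k * F' (pre x k))
      = ENNReal.ofReal η * ∑' k : ℕ, ENNReal.ofReal (b ^ k * F (pre x k)) := by
    intro x
    rw [← ENNReal.tsum_mul_left]
    apply tsum_congr
    intro k
    rw [← ENNReal.ofReal_mul (by linarith)]
    congr 1
    simp only [hF', lp.coeFn_smul, Pi.smul_apply, smul_eq_mul]
    ring
  set U : Set (ℕ → α) := {x | 1 < ∑' k : ℕ, ENNReal.ofReal (b ^ k * F' (pre x k))} with hU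
  have hUo : IsOpen U := isOpen_gt F'
  have hCU : g '' C ⊆ U := by
    intro x hx
    rw [hU, mem_ofPred_eq, hsum']
    have h1 := hF.2 x hx
    calc (1 : ℝ≥0∞) < ENNReal.ofReal η := by
          rw [← ENNReal.ofReal_one]; exact (ENNReal.ofReal_lt_ofReal_iff (by linarith)).2 hη1
      _ = ENNReal.ofReal η * 1 := (mul_one _).symm
      _ ≤ _ := by gcongr
  have hm : ∃ m, g '' B m k ⊆ U := by
    by_contra hcon
    push Not at hcon
    have hex : ∀ m, ∃ σ ∈ B m k, g σ ∉ U := by
      intro m
      obtain ⟨x, hx, hxU⟩ := not_subset.1 (hcon m)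
      obtain ⟨σ, hσ, rfl⟩ := hx
      exact ⟨σ, hσ, hxU⟩
    choose σ hσB hσU using hex
    let τ : ℕ → (ℕ → ℕ) := fun m j => min (σ m j) (k j)
    have hτ : ∀ m, τ m ∈ C := by
      intro m j _
      show min (σ m j) (k j) ≤ k j
      exact min_le_right _ _
    obtain ⟨τ0, hτ0, φ, hφ, hlim⟩ := hCc.tendsto_subseq hτ
    have hlim2 : Tendsto (fun i => σ (φ i)) atTop (𝓝 τ0) := by
      rw [tendsto_pi_nhds] at hlim ⊢
      intro j
      refine (hlim j).congr' ?_
      filter_upwards [eventually_gt_atTop j] with i hi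
      have : j < φ i := lt_of_lt_of_le hi (hφ.id_le i)
      simp only [Function.comp_apply, τ]
      exact min_eq_left (hσB (φ i) j this)
    have hV : g ⁻¹' U ∈ 𝓝 τ0 := (hUo.preimage hg).mem_nhds (hCU ⟨τ0, hτ0, rfl⟩)
    obtain ⟨i, hi⟩ := (hlim2.eventually hV).exists
    exact hσU _ hi
  obtain ⟨m, hm⟩ := hm
  have hfe : Feas b F' (g '' B m k) := by
    constructor
    · intro w
      simp only [hF', lp.coeFn_smul, Pi.smul_apply, smul_eq_mul]
      exact mul_nonneg (by linarith) (hF.1 w)
    · intro x hx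
      exact (hm hx).le
  have h1 := cap_le hfe
  have h2 := hP m
  rw [hBk] at h2
  rw [hF', norm_smul, mul_pow, Real.norm_eq_abs, sq_abs] at h1
  linarith

end Top

end Pool.Agent.Lib_MP_c56c8e_an
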