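import Mathlib

/-!
# Capacities on a tree

`α` is an alphabet, `ℕ → α` the boundary of the tree of words.  Words are lists with the most recent
letter first, so that the children of `w` are the words `a :: w`.
-/

namespace Pool.Agent.Lib_MP_c56c8e_an

open Set Filter Topology
open scoped ENNReal NNReal

variable {α : Type*}

/-- Square summable functions on the set of words. -/
abbrev HS (α : Type*) := lp (fun _ : List α => ℝ) 2

/-- The first `k` letters of `x`, most recent first. -/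
def pre (x : ℕ → α) : ℕ → List α
  | 0 => []
  | k + 1 => x k :: pre x k

@[simp] lemma pre_zero (x : ℕ → α) : pre x 0 = [] := rfl
lemma pre_succ (x : ℕ → α) (k : ℕ) : pre x (k + 1) = x k :: pre x k := rfl

@[simp] lemma length_pre (x : ℕ → α) (k : ℕ) : (pre x k).length = k := by
  induction k with
  | zero => rfl
  | succ k ih => rw [pre_succ, List.length_cons, ih]

/-- `F` is feasible for `A`: nonnegative and `∑ b^k F(x|k) ≥ 1` on `A`. -/
def Feas (b : ℝ) (F : HS α) (A : Set (ℕ → α)) : Prop :=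
  (∀ w, 0 ≤ F w) ∧ ∀ x ∈ A, 1 ≤ ∑' k : ℕ, ENNReal.ofReal (b ^ k * F (pre x k))

/-- The capacity. -/
noncomputable def cap (b : ℝ) (A : Set (ℕ → α)) : ℝ :=
  sInf ((fun F : HS α => ‖F‖ ^ 2) '' {F | Feas b F A})

lemma Feas.mono_set {b : ℝ} {F : HS α} {A B : Set (ℕ → α)} (h : Feas b F B) (hAB : A ⊆ B) :
    Feas b F A := ⟨h.1, fun x hx => h.2 x (hAB hx)⟩

lemma Feas.mono_fun {b : ℝ} (hb : 0 ≤ b) {F G : HS α} {A : Set (ℕ → α)} (h : Feas b F A)
    (hFG : ∀ w, F w ≤ G w) : Feas b G A := by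
  refine ⟨fun w => (h.1 w).trans (hFG w), fun x hx => (h.2 x hx).trans ?_⟩
  apply ENNReal.tsum_le_tsum
  intro k
  apply ENNReal.ofReal_le_ofReal
  exact mul_le_mul_of_nonneg_left (hFG _) (pow_nonneg hb k)

lemma Feas.avg {b : ℝ} (hb : 0 ≤ b) {F G : HS α} {A : Set (ℕ → α)} (hF : Feas b F A)
    (hG : Feas b G A) : Feas b ((1 / 2 : ℝ) • (F + G)) A := by
  constructor
  · intro w
    have h1 := hF.1 w
    have h2 := hG.1 w
    simp only [lp.coeFn_smul, lp.coeFn_add, Pi.smul_apply, Pi.add_apply, smul_eq_mul]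
    positivity
  · intro x hx
    have e : ∀ k : ℕ, ENNReal.ofReal (b ^ k * ((1 / 2 : ℝ) • (F + G)) (pre x k))
        = ENNReal.ofReal (1 / 2) * ENNReal.ofReal (b ^ k * F (pre x k))
          + ENNReal.ofReal (1 / 2) * ENNReal.ofReal (b ^ k * G (pre x k)) := by
      intro k
      have h1 := hF.1 (pre x k)
      have h2 := hG.1 (pre x k)
      rw [← ENNReal.ofReal_mul (by norm_num), ← ENNReal.ofReal_mul (by norm_num),
        ← ENNReal.ofReal_add (by positivity) (by positivity)]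
      congr 1
      simp only [lp.coeFn_smul, lp.coeFn_add, Pi.smul_apply, Pi.add_apply, smul_eq_mul]
      ring
    rw [tsum_congr e, ENNReal.tsum_add, ENNReal.tsum_mul_left, ENNReal.tsum_mul_left]
    calc (1 : ℝ≥0∞) = ENNReal.ofReal (1 / 2) * 1 + ENNReal.ofReal (1 / 2) * 1 := by
          rw [mul_one, ← ENNReal.ofReal_add (by norm_num) (by norm_num)]; norm_num
      _ ≤ _ := by gcongr; exacts [hF.2 x hx, hG.2 x hx]

lemma exists_feas_root (b : ℝ) (A : Set (ℕ → α)) : ∃ F : HS α, Feas b F A ∧ ‖F‖ = 1 := by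
  classical
  refine ⟨lp.single 2 [] (1 : ℝ), ⟨?_, ?_⟩, ?_⟩
  · intro w
    by_cases h : w = []
    · subst h; rw [lp.single_apply_self]; norm_num
    · rw [lp.single_apply_ne _ _ _ h]
  · intro x _
    refine le_trans ?_ (ENNReal.le_tsum 0)
    rw [pre_zero, lp.single_apply_self]
    simp
  · rw [lp.norm_single (by norm_num)]; simp

lemma cap_image_nonempty (b : ℝ) (A : Set (ℕ → α)) :
    ((fun F : HS α => ‖F‖ ^ 2) '' {F | Feas b F A}).Nonempty := by
  obtain ⟨F, hF, _⟩ := exists_feas_root b A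
  exact ⟨_, ⟨F, hF, rfl⟩⟩

lemma cap_bddBelow (b : ℝ) (A : Set (ℕ → α)) :
    BddBelow ((fun F : HS α => ‖F‖ ^ 2) '' {F | Feas b F A}) :=
  ⟨0, by rintro _ ⟨F, _, rfl⟩; positivity⟩

lemma cap_nonneg (b : ℝ) (A : Set (ℕ → α)) : 0 ≤ cap b A :=
  le_csInf (cap_image_nonempty b A) (by rintro _ ⟨F, _, rfl⟩; positivity)

lemma cap_le {b : ℝ} {A : Set (ℕ → α)} {F : HS α} (h : Feas b F A) : cap b A ≤ ‖F‖ ^ 2 :=
  csInf_le (cap_bddBelow b A) ⟨F, h, rfl⟩

lemma exists_feas {b : ℝ} {A : Set (ℕ → α)} {c : ℝ} (h : cap b A < c) :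
    ∃ F : HS α, Feas b F A ∧ ‖F‖ ^ 2 < c := by
  obtain ⟨_, ⟨F, hF, rfl⟩, hlt⟩ := exists_lt_of_csInf_lt (cap_image_nonempty b A) h
  exact ⟨F, hF, hlt⟩

lemma cap_mono {b : ℝ} {A B : Set (ℕ → α)} (h : A ⊆ B) : cap b A ≤ cap b B := by
  apply le_csInf (cap_image_nonempty b B)
  rintro _ ⟨F, hF, rfl⟩
  exact cap_le (Feas.mono_set hF h)

/-- coordinatewise absolute value -/
noncomputable def absH (F : HS α) : HS α :=
  ⟨fun w => |F w|, by
    have h : Memℓp (fun w => ‖F w‖) 2 := (memℓp_norm_iff).2 (lp.memℓp F)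
    simp only [Real.norm_eq_abs] at h
    exact h⟩

@[simp] lemma absH_apply (F : HS α) (w : List α) : absH F w = |F w| := rfl

lemma norm_absH (F : HS α) : ‖absH F‖ = ‖F‖ := by
  rw [lp.norm_eq_tsum_rpow (by norm_num), lp.norm_eq_tsum_rpow (by norm_num)]
  simp

/-- evaluation as a continuous linear map -/
lemma continuous_eval (w : List α) : Continuous (fun F : HS α => F w) := by
  have := lp.lipschitzWith_one_eval (E := fun _ : List α => ℝ) 2 w
  exact this.continuous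

lemma hasSum_apply {f : ℕ → HS α} (hf : Summable f) (w : List α) :
    HasSum (fun j => f j w) ((∑' j, f j) w) := by
  have h := hf.hasSum
  have h2 := (continuous_eval w).tendsto (∑' j, f j)
  have h3 := h2.comp h
  refine h3.congr ?_
  intro s
  simp only [Function.comp_apply, lp.coeFn_sum]
  exact Finset.sum_apply _ _ _

theorem cap_iUnion {b : ℝ} (hb : 0 ≤ b) (A : ℕ → Set (ℕ → α)) (hA : Monotone A) (L : ℝ)
    (hL : ∀ i, cap b (A i) ≤ L) : cap b (⋃ i, A i) ≤ L := by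
  classical
  set a : ℕ → ℝ := fun i => cap b (A i) with ha
  have hbdd : BddAbove (range a) := ⟨L, by rintro _ ⟨i, rfl⟩; exact hL i⟩
  set l : ℝ := ⨆ i, a i with hl
  have hlL : l ≤ L := ciSup_le hL
  have hal : ∀ i, a i ≤ l := fun i => le_ciSup hbdd i
  have hl0 : 0 ≤ l := (cap_nonneg b (A 0)).trans (hal 0)
  have hamono : Monotone a := fun i j hij => cap_mono (hA hij)
  -- choose indices
  have hex : ∀ m : ℕ, ∃ n : ℕ, m ≤ n ∧ l - (1 / 4 : ℝ) ^ m < a n := by
    intro m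
    obtain ⟨i, hi⟩ := exists_lt_of_lt_ciSup
      (show l - (1 / 4 : ℝ) ^ m < ⨆ i, a i by rw [← hl]; linarith [pow_pos (show (0:ℝ) < 1/4 by norm_num) m])
    exact ⟨max m i, le_max_left _ _, hi.trans_le (hamono (le_max_right _ _))⟩
  choose n hn1 hn2 using hex
  have hF : ∀ m : ℕ, ∃ F : HS α, Feas b F (A (n m)) ∧ ‖F‖ ^ 2 < l + (1 / 4 : ℝ) ^ m := by
    intro m
    apply exists_feas
    have := hal (n m)
    have h4 := pow_pos (show (0:ℝ) < 1/4 by norm_num) m
    linarith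
  choose F hF1 hF2 using hF
  -- consecutive differences
  have hdiff : ∀ m : ℕ, ‖F (m + 1) - F m‖ ≤ 3 * (1 / 2 : ℝ) ^ m := by
    intro m
    set q : ℕ := min (n m) (n (m + 1)) with hq
    have hq1 : Feas b (F m) (A q) := (hF1 m).mono_set (hA (min_le_left _ _))
    have hq2 : Feas b (F (m + 1)) (A q) := (hF1 (m + 1)).mono_set (hA (min_le_right _ _))
    have hc := cap_le (Feas.avg hb hq2 hq1)
    rw [norm_smul, mul_pow] at hc
    have hpar := parallelogram_law_with_norm ℝ (F (m + 1)) (F m)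
    have h1 := hF2 m
    have h2 := hF2 (m + 1)
    have h41 : (1 / 4 : ℝ) ^ (m + 1) = (1 / 4 : ℝ) ^ m / 4 := by rw [pow_succ]; ring
    rw [h41] at h2
    have h4 := pow_pos (show (0:ℝ) < 1/4 by norm_num) m
    have hqa : l - (1 / 4 : ℝ) ^ m < cap b (A q) := by
      rcases min_choice (n m) (n (m + 1)) with h | h
      · rw [hq, h]; exact hn2 m
      · rw [hq, h]
        have := hn2 (m + 1)
        rw [h41] at this
        simp only [ha] at this
        linarith
    have hhalf : ‖(1 / 2 : ℝ)‖ ^ 2 = 1 / 4 := by rw [Real.norm_eq_abs, sq_abs]; norm_num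
    rw [hhalf] at hc
    have h14 : (1 / 4 : ℝ) ^ m = ((1 / 2 : ℝ) ^ m) ^ 2 := by
      rw [← pow_mul, mul_comm, pow_mul]; norm_num
    have hsq : ‖F (m + 1) - F m‖ ^ 2 ≤ (3 * (1 / 2 : ℝ) ^ m) ^ 2 := by
      rw [mul_pow, ← h14]
      nlinarith
    exact abs_le_of_sq_le_sq' hsq (by positivity) |>.2
  -- absolute differences
  set D : ℕ → HS α := fun m => absH (F (m + 1) - F m) with hD
  have hDn : ∀ m, ‖D m‖ ≤ 3 * (1 / 2 : ℝ) ^ m := fun m => by rw [hD, norm_absH]; exact hdiff m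
  have hgeo : Summable (fun m : ℕ => 3 * (1 / 2 : ℝ) ^ m) :=
    (summable_geometric_of_lt_one (by norm_num) (by norm_num)).mul_left 3
  have hDJ : ∀ J : ℕ, Summable (fun j => D (J + j)) := by
    intro J
    refine Summable.of_norm_bounded (g := fun j => 3 * (1 / 2 : ℝ) ^ (J + j)) ?_ (fun j => hDn _)
    exact hgeo.comp_injective (add_right_injective J)
  have hDJn : ∀ J : ℕ, ‖∑' j, D (J + j)‖ ≤ 6 * (1 / 2 : ℝ) ^ J := by
    intro J
    refine tsum_of_norm_bounded (g := fun j => 3 * (1 / 2 : ℝ) ^ (J + j)) ?_ (fun j => hDn _)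
    have h1 := (hasSum_geometric_of_lt_one (show (0:ℝ) ≤ 1/2 by norm_num) (by norm_num)).mul_left
      (3 * (1 / 2 : ℝ) ^ J)
    have h2 : (fun j : ℕ => 3 * (1 / 2 : ℝ) ^ (J + j))
        = fun j : ℕ => 3 * (1 / 2 : ℝ) ^ J * (1 / 2 : ℝ) ^ j := by
      ext j; rw [pow_add]; ring
    have h3 : 6 * (1 / 2 : ℝ) ^ J = 3 * (1 / 2 : ℝ) ^ J * (1 - 1 / 2)⁻¹ := by ring
    rw [h2, h3]
    exact h1
  -- the majorant
  set G : ℕ → HS α := fun J => F J + ∑' j, D (J + j) with hG
  have hGF : ∀ J i w, F (J + i) w ≤ G J w := by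
    intro J i w
    have hs := hasSum_apply (hDJ J) w
    have hpart : ∀ i, F (J + i) w ≤ F J w + ∑ j ∈ Finset.range i, D (J + j) w := by
      intro i
      induction i with
      | zero => simp
      | succ i ih =>
        rw [Finset.sum_range_succ]
        have : F (J + (i + 1)) w - F (J + i) w ≤ D (J + i) w := by
          simp only [hD, absH_apply, lp.coeFn_sub, Pi.sub_apply]
          exact le_abs_self _
        linarith
    have hle : ∑ j ∈ Finset.range i, D (J + j) w ≤ (∑' j, D (J + j)) w := by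
      rw [← hs.tsum_eq]
      apply hs.summable.sum_le_tsum
      intro j _
      simp only [hD, absH_apply]
      exact abs_nonneg _
    have := hpart i
    simp only [hG, lp.coeFn_add, Pi.add_apply]
    linarith
  have hGfeas : ∀ J, Feas b (G J) (⋃ i, A i) := by
    intro J
    constructor
    · intro w
      exact ((hF1 J).1 w).trans (by simpa using hGF J 0 w)
    · intro x hx
      obtain ⟨i, hi⟩ := mem_iUnion.1 hx
      have h1 : Feas b (F (J + i)) (A i) := (hF1 (J + i)).mono_set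
        (hA ((Nat.le_add_left i J).trans (hn1 (J + i))))
      exact (h1.mono_fun hb (hGF J i)).2 x hi
  have hbound : ∀ J : ℕ, cap b (⋃ i, A i)
      ≤ (Real.sqrt (l + (1 / 4 : ℝ) ^ J) + 6 * (1 / 2 : ℝ) ^ J) ^ 2 := by
    intro J
    refine (cap_le (hGfeas J)).trans ?_
    apply pow_le_pow_left₀ (norm_nonneg _)
    refine (norm_add_le _ _).trans (add_le_add ?_ (hDJn J))
    apply Real.le_sqrt_of_sq_le
    exact (hF2 J).le
  have t1 : Tendsto (fun J : ℕ => (1 / 4 : ℝ) ^ J) atTop (𝓝 0) :=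
    tendsto_pow_atTop_nhds_zero_of_lt_one (by norm_num) (by norm_num)
  have t2 : Tendsto (fun J : ℕ => (1 / 2 : ℝ) ^ J) atTop (𝓝 0) :=
    tendsto_pow_atTop_nhds_zero_of_lt_one (by norm_num) (by norm_num)
  have t3 : Tendsto (fun J : ℕ => (Real.sqrt (l + (1 / 4 : ℝ) ^ J) + 6 * (1 / 2 : ℝ) ^ J) ^ 2) atTop
      (𝓝 ((Real.sqrt (l + 0) + 6 * 0) ^ 2)) :=
    ((((tendsto_const_nhds.add t1).sqrt).add (t2.const_mul 6)).pow 2)
  rw [add_zero, mul_zero, add_zero, Real.sq_sqrt hl0] at t3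
  exact (ge_of_tendsto' t3 hbound).trans hlL

end Pool.Agent.Lib_MP_c56c8e_an
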