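import Pool.Agent.Lib_MP_c56c8e_an.TreeAnalytic

namespace Pool.Agent.Lib_MP_c56c8e_an

open Set Filter Topology MeasureTheory
open scoped ENNReal NNReal

/-! ### Sums over the words of given length -/

section gsum

variable {α : Type*} [Fintype α]

/-- `gsum k f = ∑_{|u| = k} f u`. -/
def gsum {M : Type*} [AddCommMonoid M] : ℕ → (List α → M) → M
  | 0, f => f []
  | k + 1, f => gsum k (fun u => ∑ a, f (a :: u))

variable {M : Type*} [AddCommMonoid M]

lemma gsum_zero (f : List α → M) : gsum 0 f = f [] := rfl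
lemma gsum_succ (k : ℕ) (f : List α → M) : gsum (k + 1) f = gsum k (fun u => ∑ a, f (a :: u)) := rfl

lemma gsum_congr {k : ℕ} {f g : List α → M} (h : ∀ u : List α, u.length = k → f u = g u) :
    gsum k f = gsum k g := by
  induction k generalizing f g with
  | zero => exact h [] rfl
  | succ k ih =>
    rw [gsum_succ, gsum_succ]
    apply ih
    intro u hu
    exact Finset.sum_congr rfl fun a _ => h _ (by simp [hu])

lemma gsum_add (k : ℕ) (f g : List α → M) : gsum k (fun u => f u + g u) = gsum k f + gsum k g := by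
  induction k generalizing f g with
  | zero => rfl
  | succ k ih =>
    rw [gsum_succ, gsum_succ, gsum_succ, ← ih]
    congr 1
    ext u
    exact Finset.sum_add_distrib

lemma gsum_map {M' : Type*} [AddCommMonoid M'] (φ : M →+ M') (k : ℕ) (f : List α → M) :
    φ (gsum k f) = gsum k (fun u => φ (f u)) := by
  induction k generalizing f with
  | zero => rfl
  | succ k ih =>
    rw [gsum_succ, gsum_succ, ih]
    congr 1
    ext u
    exact map_sum φ _ _

lemma gsum_zero_fun (k : ℕ) : gsum k (fun _ : List α => (0 : M)) = 0 := by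
  have := gsum_map (0 : M →+ M) k (fun _ : List α => (0 : M))
  simpa using this.symm

lemma gsum_le {k : ℕ} {f g : List α → ℝ≥0∞} (h : ∀ u : List α, u.length = k → f u ≤ g u) :
    gsum k f ≤ gsum k g := by
  induction k generalizing f g with
  | zero => exact h [] rfl
  | succ k ih =>
    rw [gsum_succ, gsum_succ]
    apply ih
    intro u hu
    exact Finset.sum_le_sum fun a _ => h _ (by simp [hu])

lemma gsum_le_real {k : ℕ} {f g : List α → ℝ} (h : ∀ u : List α, u.length = k → f u ≤ g u) :
    gsum k f ≤ gsum k g := by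
  induction k generalizing f g with
  | zero => exact h [] rfl
  | succ k ih =>
    rw [gsum_succ, gsum_succ]
    apply ih
    intro u hu
    exact Finset.sum_le_sum fun a _ => h _ (by simp [hu])

lemma gsum_single [DecidableEq α] (f : List α → M) (w : List α) :
    gsum w.length (fun u => if u = w then f u else 0) = f w := by
  induction w generalizing f with
  | nil => simp [gsum_zero]
  | cons a w ih =>
    rw [List.length_cons, gsum_succ, ← ih (fun u => f (a :: u))]
    congr 1
    ext u
    by_cases h : u = w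
    · subst h
      rw [if_pos rfl, Finset.sum_eq_single a]
      · simp
      · intro b _ hb; rw [if_neg]; intro e; exact hb (List.cons.inj e).1
      · intro h; exact absurd (Finset.mem_univ _) h
    · rw [if_neg h]
      apply Finset.sum_eq_zero
      intro b _
      rw [if_neg]; intro e; exact h (List.cons.inj e).2

end gsum

/-! ### Local capacities -/

section Flow

variable {α : Type*}

/-- Feasibility below the word `w`. -/
def FeasAt (b : ℝ) (K : Set (ℕ → α)) (w : List α) (F : HS α) : Prop :=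
  (∀ u, 0 ≤ F u) ∧ (∀ u, F u ≠ 0 → w <:+ u) ∧
    ∀ x ∈ K ∩ cyl w, 1 ≤ ∑' k : ℕ, ENNReal.ofReal (b ^ k * F (pre x k))

/-- Local capacity. -/
noncomputable def lcap (b : ℝ) (K : Set (ℕ → α)) (w : List α) : ℝ :=
  sInf ((fun F : HS α => ‖F‖ ^ 2) '' {F | FeasAt b K w F})

lemma suffix_pre (x : ℕ → α) (k j : ℕ) : pre x k <:+ pre x (k + j) := by
  induction j with
  | zero => exact List.suffix_rfl
  | succ j ih =>
    rw [← add_assoc, pre_succ]
    exact ih.trans (List.suffix_cons _ _)

lemma exists_feasAt {b : ℝ} (hb : 0 < b) (K : Set (ℕ → α)) (w : List α) :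
    ∃ F : HS α, FeasAt b K w F := by
  classical
  refine ⟨lp.single 2 w ((b ^ w.length)⁻¹ : ℝ), ⟨?_, ?_, ?_⟩⟩
  · intro u
    by_cases h : u = w
    · subst h; rw [lp.single_apply_self]; positivity
    · rw [lp.single_apply_ne _ _ _ h]
  · intro u hu
    by_cases h : u = w
    · subst h; exact List.suffix_rfl
    · rw [lp.single_apply_ne _ _ _ h] at hu; exact absurd rfl hu
  · intro x hx
    refine le_trans ?_ (ENNReal.le_tsum w.length)
    have : pre x w.length = w := hx.2
    rw [this, lp.single_apply_self, mul_inv_cancel₀ (by positivity)]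
    simp

lemma lcap_image_nonempty {b : ℝ} (hb : 0 < b) (K : Set (ℕ → α)) (w : List α) :
    ((fun F : HS α => ‖F‖ ^ 2) '' {F | FeasAt b K w F}).Nonempty := by
  obtain ⟨F, hF⟩ := exists_feasAt hb K w
  exact ⟨_, ⟨F, hF, rfl⟩⟩

lemma lcap_nonneg {b : ℝ} (hb : 0 < b) (K : Set (ℕ → α)) (w : List α) : 0 ≤ lcap b K w :=
  le_csInf (lcap_image_nonempty hb K w) (by rintro _ ⟨F, _, rfl⟩; positivity)

lemma lcap_le {b : ℝ} {K : Set (ℕ → α)} {w : List α} {F : HS α} (h : FeasAt b K w F) :
    lcap b K w ≤ ‖F‖ ^ 2 :=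
  csInf_le ⟨0, by rintro _ ⟨F, _, rfl⟩; positivity⟩ ⟨F, h, rfl⟩

lemma exists_feasAt_lt {b : ℝ} (hb : 0 < b) {K : Set (ℕ → α)} {w : List α} {c : ℝ}
    (h : lcap b K w < c) : ∃ F : HS α, FeasAt b K w F ∧ ‖F‖ ^ 2 < c := by
  obtain ⟨_, ⟨F, hF, rfl⟩, hlt⟩ := exists_lt_of_csInf_lt (lcap_image_nonempty hb K w) h
  exact ⟨F, hF, hlt⟩

lemma cap_le_lcap_nil {b : ℝ} (hb : 0 < b) (K : Set (ℕ → α)) : cap b K ≤ lcap b K [] := by
  apply le_csInf (lcap_image_nonempty hb K [])
  rintro _ ⟨F, hF, rfl⟩
  exact cap_le ⟨hF.1, fun x hx => hF.2.2 x ⟨hx, rfl⟩⟩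

lemma lcap_eq_zero {b : ℝ} (hb : 0 < b) {K : Set (ℕ → α)} {w : List α} (h : K ∩ cyl w = ∅) :
    lcap b K w = 0 := by
  apply le_antisymm _ (lcap_nonneg hb K w)
  have : FeasAt b K w (0 : HS α) :=
    ⟨fun u => le_rfl, fun u hu => absurd rfl hu, fun x hx => by rw [h] at hx; exact absurd hx (by simp)⟩
  simpa using lcap_le this

lemma hasSum_sq (F : HS α) : HasSum (fun u => F u ^ 2) (‖F‖ ^ 2) := by
  have h := lp.hasSum_norm (E := fun _ : List α => ℝ) (p := 2) (by norm_num) F
  simp only [ENNReal.toReal_ofNat, Real.rpow_ofNat, Real.norm_eq_abs, sq_abs] at h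
  exact h

variable [Fintype α]

lemma lcap_rec {b : ℝ} (hb : 0 < b) (K : Set (ℕ → α)) (w : List α) {t : ℝ} (ht0 : 0 ≤ t)
    (ht1 : t ≤ 1) :
    lcap b K w ≤ (1 - t) ^ 2 * ∑ a, lcap b K (a :: w) + t ^ 2 * ((b ^ 2)⁻¹) ^ w.length := by
  classical
  apply le_of_forall_pos_le_add
  intro ε hε
  have hN : (0 : ℝ) < Fintype.card α + 1 := by positivity
  have hex : ∀ a : α, ∃ F : HS α, FeasAt b K (a :: w) F ∧
      ‖F‖ ^ 2 < lcap b K (a :: w) + ε / (Fintype.card α + 1) := fun a =>
    exists_feasAt_lt hb (by have : 0 < ε / (Fintype.card α + 1) := by positivity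
                            linarith)
  choose F hF hFn using hex
  set e : HS α := lp.single 2 w ((b ^ w.length)⁻¹ : ℝ) with he
  have he0 : ∀ u, u ≠ w → e u = 0 := fun u hu => by rw [he, lp.single_apply_ne _ _ _ hu]
  have hew : e w = (b ^ w.length)⁻¹ := by rw [he, lp.single_apply_self]
  have henn : ∀ u, 0 ≤ e u := by
    intro u
    by_cases h : u = w
    · subst h; rw [hew]; positivity
    · rw [he0 u h]
  set G : HS α := (1 - t) • (∑ a, F a) + t • e with hG
  have hGapp : ∀ u, G u = (1 - t) * (∑ a, F a u) + t * e u := by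
    intro u
    simp only [hG, lp.coeFn_add, lp.coeFn_smul, Pi.add_apply, Pi.smul_apply, smul_eq_mul,
      lp.coeFn_sum]
    rw [Finset.sum_apply]
  -- supports
  have hdis : ∀ u a a', F a u ≠ 0 → F a' u ≠ 0 → a = a' := by
    intro u a a' h h'
    have h1 := (hF a).2.1 u h
    have h2 := (hF a').2.1 u h'
    have h3 := List.suffix_of_suffix_length_le h1 h2 (by simp)
    have h4 := h3.eq_of_length (by simp)
    exact (List.cons.inj h4).1
  have hdw : ∀ a, F a w = 0 := by
    intro a
    by_contra h
    have h1 := (hF a).2.1 w h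
    have := h1.length_le
    simp at this
  have hsq : ∀ u, G u ^ 2 = (1 - t) ^ 2 * (∑ a, F a u ^ 2) + t ^ 2 * e u ^ 2 := by
    intro u
    rw [hGapp]
    by_cases huw : u = w
    · subst huw
      simp only [hdw]
      simp
      ring
    · rw [he0 u huw]
      by_cases hall : ∀ a, F a u = 0
      · simp [hall]
      · push Not at hall
        obtain ⟨a0, ha0⟩ := hall
        have hz : ∀ a, a ≠ a0 → F a u = 0 := by
          intro a ha
          by_contra hne
          exact ha (hdis u a a0 hne ha0)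
        rw [Finset.sum_eq_single a0 (fun a _ ha => hz a ha) (fun h => absurd (Finset.mem_univ _) h),
          Finset.sum_eq_single a0 (fun a _ ha => by rw [hz a ha]; ring)
            (fun h => absurd (Finset.mem_univ _) h)]
        ring
  have hnorm : ‖G‖ ^ 2 = (1 - t) ^ 2 * (∑ a, ‖F a‖ ^ 2) + t ^ 2 * ‖e‖ ^ 2 := by
    have h1 := hasSum_sq G
    have h2 : HasSum (fun u => (1 - t) ^ 2 * (∑ a, F a u ^ 2) + t ^ 2 * e u ^ 2)
        ((1 - t) ^ 2 * (∑ a, ‖F a‖ ^ 2) + t ^ 2 * ‖e‖ ^ 2) :=
      ((hasSum_sum (fun a _ => hasSum_sq (F a))).mul_left _).add ((hasSum_sq e).mul_left _)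
    refine h1.unique ?_
    convert h2 using 1
    ext u
    exact hsq u
  have hen : ‖e‖ ^ 2 = ((b ^ 2)⁻¹) ^ w.length := by
    rw [he, lp.norm_single (by norm_num), Real.norm_eq_abs, sq_abs, inv_pow, inv_pow, ← pow_mul,
      ← pow_mul, mul_comm 2]
  have hfeas : FeasAt b K w G := by
    have h1t : 0 ≤ 1 - t := by linarith
    refine ⟨?_, ?_, ?_⟩
    · intro u
      rw [hGapp]
      have : 0 ≤ ∑ a, F a u := Finset.sum_nonneg fun a _ => (hF a).1 u
      have := henn u
      positivity
    · intro u hu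
      rw [hGapp] at hu
      by_cases huw : u = w
      · subst huw; exact List.suffix_rfl
      · rw [he0 u huw] at hu
        have : ∃ a, F a u ≠ 0 := by
          by_contra hcon
          push Not at hcon
          simp [hcon] at hu
        obtain ⟨a, ha⟩ := this
        exact (List.suffix_cons a w).trans ((hF a).2.1 u ha)
    · intro x hx
      have hxw : pre x w.length = w := hx.2
      set a := x w.length with ha
      have hxa : x ∈ K ∩ cyl (a :: w) := by
        refine ⟨hx.1, ?_⟩
        show pre x (a :: w).length = a :: w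
        rw [List.length_cons, pre_succ, hxw]
      have h1 := (hF a).2.2 x hxa
      have h2 : ∀ k : ℕ, ENNReal.ofReal (1 - t) * ENNReal.ofReal (b ^ k * F a (pre x k))
          + (if k = w.length then ENNReal.ofReal t else 0)
          ≤ ENNReal.ofReal (b ^ k * G (pre x k)) := by
        intro k
        have hFn : 0 ≤ F a (pre x k) := (hF a).1 _
        have hsum : F a (pre x k) ≤ ∑ a, F a (pre x k) :=
          Finset.single_le_sum (f := fun a => F a (pre x k)) (fun a _ => (hF a).1 _)
            (Finset.mem_univ a)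
        rw [← ENNReal.ofReal_mul h1t, hGapp]
        have hbk : 0 < b ^ k := by positivity
        split_ifs with hk
        · rw [← ENNReal.ofReal_add (by positivity) ht0]
          apply ENNReal.ofReal_le_ofReal
          subst hk
          rw [hxw, hew]
          rw [hxw] at hsum
          have : b ^ w.length * (t * (b ^ w.length)⁻¹) = t := by
            field_simp
          have h3 : (1 - t) * F a w ≤ (1 - t) * ∑ a, F a w := by gcongr
          have h4 : b ^ w.length * ((1 - t) * F a w) ≤ b ^ w.length * ((1 - t) * ∑ a, F a w) := by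
            gcongr
          nlinarith
        · rw [add_zero]
          apply ENNReal.ofReal_le_ofReal
          have h3 : (1 - t) * F a (pre x k) ≤ (1 - t) * ∑ a, F a (pre x k) := by gcongr
          have h5 : 0 ≤ t * e (pre x k) := mul_nonneg ht0 (henn _)
          have h4 : b ^ k * ((1 - t) * F a (pre x k))
              ≤ b ^ k * ((1 - t) * ∑ a, F a (pre x k) + t * e (pre x k)) := by
            gcongr; linarith
          linarith
      calc (1 : ℝ≥0∞) = ENNReal.ofReal (1 - t) * 1 + ENNReal.ofReal t := by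
            rw [mul_one, ← ENNReal.ofReal_add h1t ht0]; norm_num
        _ ≤ ENNReal.ofReal (1 - t) * (∑' k : ℕ, ENNReal.ofReal (b ^ k * F a (pre x k)))
            + ENNReal.ofReal t := by gcongr
        _ = ∑' k : ℕ, (ENNReal.ofReal (1 - t) * ENNReal.ofReal (b ^ k * F a (pre x k))
            + (if k = w.length then ENNReal.ofReal t else 0)) := by
            rw [ENNReal.tsum_add, ENNReal.tsum_mul_left, tsum_ite_eq]
        _ ≤ _ := ENNReal.tsum_le_tsum h2
  have h1 := lcap_le hfeas
  rw [hnorm, hen] at h1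
  have h2 : ∑ a, ‖F a‖ ^ 2 ≤ ∑ a, lcap b K (a :: w) + ε := by
    have h3 : ∑ a, ‖F a‖ ^ 2 ≤ ∑ a : α, (lcap b K (a :: w) + ε / (Fintype.card α + 1)) :=
      Finset.sum_le_sum fun a _ => (hFn a).le
    rw [Finset.sum_add_distrib, Finset.sum_const, Finset.card_univ, nsmul_eq_mul] at h3
    have h4 : (Fintype.card α : ℝ) * (ε / (Fintype.card α + 1)) ≤ ε := by
      rw [← mul_div_assoc, div_le_iff₀ hN]
      nlinarith
    linarith
  have h5 : (1 - t) ^ 2 ≤ 1 := by nlinarith
  have h6 : 0 ≤ (1 - t) ^ 2 := by positivity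
  nlinarith

end Flow

end Pool.Agent.Lib_MP_c56c8e_an
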