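import Pool.Agent.Lib_MP_c56c8e_an.TreeFlow

namespace Pool.Agent.Lib_MP_c56c8e_an

open Set Filter Topology MeasureTheory
open scoped ENNReal NNReal

variable {α : Type*} [Fintype α]

/-- The mass of the cylinder of `w` under the natural flow. -/
noncomputable def mass (b : ℝ) (K : Set (ℕ → α)) : List α → ℝ
  | [] => 1
  | a :: w => mass b K w * (lcap b K (a :: w) / ∑ a', lcap b K (a' :: w))

lemma mass_cons (b : ℝ) (K : Set (ℕ → α)) (a : α) (w : List α) :
    mass b K (a :: w) = mass b K w * (lcap b K (a :: w) / ∑ a', lcap b K (a' :: w)) := rfl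

lemma mass_nonneg {b : ℝ} (hb : 0 < b) (K : Set (ℕ → α)) (w : List α) : 0 ≤ mass b K w := by
  induction w with
  | nil => simp [mass]
  | cons a w ih =>
    rw [mass_cons]
    have h1 := lcap_nonneg hb K (a :: w)
    have h2 : 0 ≤ ∑ a', lcap b K (a' :: w) := Finset.sum_nonneg fun a' _ => lcap_nonneg hb K _
    positivity

lemma lcap_mul_le {b : ℝ} (hb : 0 < b) (K : Set (ℕ → α)) (w : List α) :
    lcap b K w * (((b ^ 2)⁻¹) ^ w.length + ∑ a, lcap b K (a :: w))
      ≤ ((b ^ 2)⁻¹) ^ w.length * ∑ a, lcap b K (a :: w) := by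
  set β := ((b ^ 2)⁻¹) ^ w.length with hβ
  set S := ∑ a, lcap b K (a :: w) with hS
  have hβ0 : 0 < β := by positivity
  have hS0 : 0 ≤ S := Finset.sum_nonneg fun a' _ => lcap_nonneg hb K _
  have hne : 0 < β + S := by positivity
  have h := lcap_rec hb K w (t := S / (β + S)) (by positivity) (by
    rw [div_le_one hne]; linarith)
  rw [← hS, ← hβ] at h
  have e1 : 1 - S / (β + S) = β / (β + S) := by field_simp; ring
  rw [e1] at h
  have e2 : (β / (β + S)) ^ 2 * S + (S / (β + S)) ^ 2 * β = β * S / (β + S) := by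
    field_simp
  rw [e2, le_div_iff₀ hne] at h
  exact h

lemma lcap_eq_zero_of_sum {b : ℝ} (hb : 0 < b) (K : Set (ℕ → α)) (w : List α)
    (h : ∑ a, lcap b K (a :: w) = 0) : lcap b K w = 0 := by
  have h1 := lcap_mul_le hb K w
  rw [h, mul_zero, add_zero] at h1
  have hβ0 : 0 < ((b ^ 2)⁻¹) ^ w.length := by positivity
  have h2 := lcap_nonneg hb K w
  by_contra hne
  have : 0 < lcap b K w := lt_of_le_of_ne h2 (Ne.symm hne)
  have : 0 < lcap b K w * ((b ^ 2)⁻¹) ^ w.length := by positivity
  linarith

lemma mass_eq_zero {b : ℝ} (hb : 0 < b) {K : Set (ℕ → α)} (hK : 0 < lcap b K []) (w : List α)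
    (h : lcap b K w = 0) : mass b K w = 0 := by
  cases w with
  | nil => rw [h] at hK; exact absurd hK (lt_irrefl _)
  | cons a w => rw [mass_cons, h]; simp

lemma sum_mass {b : ℝ} (hb : 0 < b) {K : Set (ℕ → α)} (hK : 0 < lcap b K []) (w : List α) :
    ∑ a, mass b K (a :: w) = mass b K w := by
  simp only [mass_cons]
  rw [← Finset.mul_sum, ← Finset.sum_div]
  by_cases h : ∑ a, lcap b K (a :: w) = 0
  · rw [h]
    rw [mass_eq_zero hb hK w (lcap_eq_zero_of_sum hb K w h)]
    simp
  · rw [div_self h, mul_one]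

/-- one step of the energy estimate -/
lemma energy_step {b : ℝ} (hb : 0 < b) {K : Set (ℕ → α)} (hK : 0 < lcap b K []) (w : List α) :
    (b ^ 2) ^ w.length * mass b K w ^ 2 + ∑ a, mass b K (a :: w) ^ 2 / lcap b K (a :: w)
      ≤ mass b K w ^ 2 / lcap b K w := by
  by_cases h0 : lcap b K w = 0
  · have hm := mass_eq_zero hb hK w h0
    have h1 : ∀ a, mass b K (a :: w) = 0 := fun a => by rw [mass_cons, hm, zero_mul]
    simp [h0, hm, h1]
  · have hpos : 0 < lcap b K w := lt_of_le_of_ne (lcap_nonneg hb K w) (Ne.symm h0)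
    have hS : ∑ a, lcap b K (a :: w) ≠ 0 := fun h => h0 (lcap_eq_zero_of_sum hb K w h)
    set S := ∑ a, lcap b K (a :: w) with hSdef
    have hS0 : 0 < S := lt_of_le_of_ne (Finset.sum_nonneg fun a' _ => lcap_nonneg hb K _)
      (Ne.symm hS)
    have hle := lcap_mul_le hb K w
    rw [← hSdef] at hle
    set β := ((b ^ 2)⁻¹) ^ w.length with hβ
    have hβ0 : 0 < β := by positivity
    have hβinv : (b ^ 2) ^ w.length = β⁻¹ := by rw [hβ, inv_pow, inv_inv]
    have h1 : ∀ a, mass b K (a :: w) ^ 2 / lcap b K (a :: w)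
        = mass b K w ^ 2 / S ^ 2 * lcap b K (a :: w) := by
      intro a
      rw [mass_cons, ← hSdef]
      by_cases ha : lcap b K (a :: w) = 0
      · rw [ha]; simp
      · field_simp
    simp only [h1]
    rw [← Finset.mul_sum, ← hSdef, hβinv]
    have h2 : β⁻¹ * mass b K w ^ 2 + mass b K w ^ 2 / S ^ 2 * S
        = mass b K w ^ 2 * ((β + S) / (β * S)) := by
      field_simp
      ring
    rw [h2, div_eq_mul_inv (mass b K w ^ 2)]
    apply mul_le_mul_of_nonneg_left _ (by positivity)
    rw [div_le_iff₀ (by positivity), inv_mul_eq_div, le_div_iff₀ hpos]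
    linarith

lemma energy_bound {b : ℝ} (hb : 0 < b) {K : Set (ℕ → α)} (hK : 0 < lcap b K []) (N : ℕ) :
    ∑ k ∈ Finset.range N, gsum k (fun u => (b ^ 2) ^ k * mass b K u ^ 2)
      + gsum N (fun u => mass b K u ^ 2 / lcap b K u) ≤ 1 / lcap b K [] := by
  induction N with
  | zero => simp [gsum_zero, mass]
  | succ N ih =>
    refine le_trans ?_ ih
    rw [Finset.sum_range_succ, add_assoc]
    gcongr
    rw [gsum_succ, ← gsum_add]
    apply gsum_le_real
    intro u hu
    have := energy_step hb hK u
    rwa [hu] at this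

/-! ### The measure -/

section Measure

variable [TopologicalSpace α] [DiscreteTopology α] [MeasurableSpace α] [BorelSpace α]

/-- Continuation of a word by a fixed letter. -/
def extw (a0 : α) : List α → (ℕ → α)
  | [] => fun _ => a0
  | a :: u => Function.update (extw a0 u) u.length a

omit [Fintype α] [TopologicalSpace α] [DiscreteTopology α] [MeasurableSpace α] [BorelSpace α] in
lemma pre_update (x : ℕ → α) (j : ℕ) (a : α) (k : ℕ) (h : k ≤ j) :
    pre (Function.update x j a) k = pre x k := by
  induction k with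
  | zero => rfl
  | succ k ih =>
    rw [pre_succ, pre_succ, ih (by omega), Function.update_of_ne (by omega)]

omit [Fintype α] [TopologicalSpace α] [DiscreteTopology α] [MeasurableSpace α] [BorelSpace α] in
lemma pre_extw (a0 : α) (u : List α) : pre (extw a0 u) u.length = u := by
  induction u with
  | nil => rfl
  | cons a u ih =>
    rw [List.length_cons, pre_succ, extw, Function.update_self, pre_update _ _ _ _ le_rfl, ih]

omit [Fintype α] [TopologicalSpace α] [DiscreteTopology α] [MeasurableSpace α] [BorelSpace α] in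
lemma extw_mem_cyl (a0 : α) (u w : List α) (h : w.length ≤ u.length) :
    extw a0 u ∈ cyl w ↔ w <:+ u := by
  have h1 : pre (extw a0 u) w.length <:+ u := by
    have := suffix_pre (extw a0 u) w.length (u.length - w.length)
    rwa [Nat.add_sub_cancel' h, pre_extw] at this
  constructor
  · intro h2
    have : pre (extw a0 u) w.length = w := h2
    rwa [this] at h1
  · intro h2
    exact (List.suffix_of_suffix_length_le h1 h2 (by simp)).eq_of_length (by simp)

/-- evaluation of measures as an additive map -/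
noncomputable def evalHom (S : Set (ℕ → α)) : Measure (ℕ → α) →+ ℝ≥0∞ where
  toFun μ := μ S
  map_zero' := by simp
  map_add' μ ν := by simp

/-- approximating measures -/
noncomputable def apx (b : ℝ) (K : Set (ℕ → α)) (a0 : α) (N : ℕ) : Measure (ℕ → α) :=
  gsum N (fun u => ENNReal.ofReal (mass b K u) • Measure.dirac (extw a0 u))

lemma apx_cyl {b : ℝ} (hb : 0 < b) {K : Set (ℕ → α)} (hK : 0 < lcap b K []) (a0 : α) (w : List α)
    (N : ℕ) (hN : w.length ≤ N) : apx b K a0 N (cyl w) = ENNReal.ofReal (mass b K w) := by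
  classical
  have h0 : apx b K a0 N (cyl w)
      = gsum N (fun u => if w <:+ u then ENNReal.ofReal (mass b K u) else 0) := by
    have := gsum_map (evalHom (cyl w)) N
      (fun u => ENNReal.ofReal (mass b K u) • Measure.dirac (extw a0 u))
    refine Eq.trans this ?_
    apply gsum_congr
    intro u hu
    show (ENNReal.ofReal (mass b K u) • Measure.dirac (extw a0 u)) (cyl w) = _
    rw [Measure.smul_apply, Measure.dirac_apply' _ (isClopen_cyl w).2.measurableSet, smul_eq_mul]
    by_cases h : w <:+ u
    · rw [if_pos h, indicator_of_mem ((extw_mem_cyl a0 u w (by omega)).2 h)]; simp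
    · rw [if_neg h, indicator_of_notMem (fun h' => h ((extw_mem_cyl a0 u w (by omega)).1 h'))]; simp
  rw [h0]
  clear h0
  induction N, hN using Nat.le_induction with
  | base =>
    rw [← gsum_single (fun u => ENNReal.ofReal (mass b K u)) w]
    apply gsum_congr
    intro u hu
    by_cases h : u = w
    · subst h; simp
    · rw [if_neg h, if_neg]
      intro h'
      exact h (h'.eq_of_length hu.symm).symm
  | succ N hN ih =>
    rw [gsum_succ, ← ih]
    apply gsum_congr
    intro u hu
    have hiff : ∀ a, (w <:+ a :: u) ↔ w <:+ u := by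
      intro a
      constructor
      · intro h
        exact List.suffix_of_suffix_length_le h (List.suffix_cons a u) (by omega)
      · intro h
        exact h.trans (List.suffix_cons a u)
    by_cases h : w <:+ u
    · simp only [hiff, if_pos h]
      rw [← ENNReal.ofReal_sum_of_nonneg (fun a _ => mass_nonneg hb K _), sum_mass hb hK]
    · simp only [hiff, if_neg h]
      simp

omit [Fintype α] [TopologicalSpace α] [DiscreteTopology α] [MeasurableSpace α] [BorelSpace α] in
lemma cyl_nil : cyl ([] : List α) = univ := by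
  ext x; simp [cyl]

theorem exists_measure_cyl {b : ℝ} (hb : 0 < b) {K : Set (ℕ → α)} (hK : 0 < lcap b K []) (a0 : α) :
    ∃ μ : ProbabilityMeasure (ℕ → α), ∀ w : List α,
      (μ : Measure (ℕ → α)) (cyl w) = ENNReal.ofReal (mass b K w) := by
  have hP : ∀ N, IsProbabilityMeasure (apx b K a0 N) := by
    intro N
    constructor
    rw [← cyl_nil, apx_cyl hb hK a0 [] N (by simp)]
    simp [mass]
  let ν : ℕ → ProbabilityMeasure (ℕ → α) := fun N => ⟨apx b K a0 N, hP N⟩
  have : CompactSpace α := Finite.compactSpace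
  obtain ⟨μ, -, hμ⟩ := isCompact_univ.ultrafilter_le_nhds
    (Ultrafilter.map ν (hyperfilter ℕ)) (by simp)
  refine ⟨μ, fun w => ?_⟩
  have htend : Tendsto ν (hyperfilter ℕ : Filter ℕ) (𝓝 μ) := hμ
  have h1 := ProbabilityMeasure.tendsto_measure_of_isClopen_of_tendsto htend (isClopen_cyl w)
  have h2 : Tendsto (fun N => (ν N : Measure (ℕ → α)) (cyl w)) (hyperfilter ℕ : Filter ℕ)
      (𝓝 (ENNReal.ofReal (mass b K w))) := by
    apply tendsto_const_nhds.congr'
    have : ∀ᶠ N in (hyperfilter ℕ : Filter ℕ), w.length ≤ N := by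
      apply (Nat.hyperfilter_le_atTop) 
      exact eventually_ge_atTop _
    filter_upwards [this] with N hN
    exact (apx_cyl hb hK a0 w N hN).symm
  have h3 : Tendsto (fun N => (ν N : Measure (ℕ → α)) (cyl w)) (hyperfilter ℕ : Filter ℕ)
      (𝓝 ((μ : Measure (ℕ → α)) (cyl w))) := by
    have h4 := (ENNReal.tendsto_coe (f := (hyperfilter ℕ : Filter ℕ))).2 h1
    simpa only [ProbabilityMeasure.ennreal_coeFn_eq_coeFn_toMeasure] using h4
  exact tendsto_nhds_unique h3 h2

omit [Fintype α] [MeasurableSpace α] [BorelSpace α] in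
lemma exists_cyl_disjoint {K : Set (ℕ → α)} (hK : IsClosed K) {x : ℕ → α} (hx : x ∉ K) :
    ∃ n, K ∩ cyl (pre x n) = ∅ := by
  by_contra hcon
  push Not at hcon
  have hex : ∀ n, ∃ y ∈ K, pre y n = pre x n := by
    intro n
    obtain ⟨y, hy1, hy2⟩ := hcon n
    have : pre y (pre x n).length = pre x n := hy2
    rw [length_pre] at this
    exact ⟨y, hy1, this⟩
  choose y hy1 hy2 using hex
  have hcoord : ∀ n i, i < n → y n i = x i := by
    intro n
    have : ∀ m, pre (y n) m = pre x m → ∀ i < m, y n i = x i := by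
      intro m
      induction m with
      | zero => intro _ i hi; omega
      | succ m ih =>
        intro h i hi
        rw [pre_succ, pre_succ] at h
        obtain ⟨h1, h2⟩ := List.cons.inj h
        rcases Nat.lt_succ_iff_lt_or_eq.1 hi with h3 | h3
        · exact ih h2 i h3
        · subst h3; exact h1
    exact this n (hy2 n)
  have hlim : Tendsto y atTop (𝓝 x) := by
    rw [tendsto_pi_nhds]
    intro i
    apply tendsto_const_nhds.congr'
    filter_upwards [eventually_gt_atTop i] with n hn
    exact (hcoord n i hn).symm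
  exact hx (hK.mem_of_tendsto hlim (Eventually.of_forall hy1))

/-- A closed set of positive capacity carries a probability measure of finite energy. -/
theorem exists_measure_of_cap {b : ℝ} (hb : 0 < b) {K : Set (ℕ → α)} (hKc : IsClosed K)
    (hcap : 0 < cap b K) : ∃ μ : Measure (ℕ → α), IsProbabilityMeasure μ ∧ μ Kᶜ = 0 ∧
      ∑' k : ℕ, gsum k (fun u => ENNReal.ofReal ((b ^ 2) ^ k) * (μ (cyl u)) ^ 2) ≠ ∞ := by
  classical
  have hK : 0 < lcap b K [] := hcap.trans_le (cap_le_lcap_nil hb K)
  have hne : K.Nonempty := by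
    by_contra h
    rw [not_nonempty_iff_eq_empty] at h
    subst h
    rw [lcap_eq_zero hb (by simp)] at hK
    exact lt_irrefl _ hK
  obtain ⟨x0, _⟩ := hne
  obtain ⟨μ, hμ⟩ := exists_measure_cyl hb hK (x0 0)
  refine ⟨μ, inferInstance, ?_, ?_⟩
  · have hsub : Kᶜ ⊆ ⋃ w ∈ {w : List α | K ∩ cyl w = ∅}, cyl w := by
      intro x hx
      obtain ⟨n, hn⟩ := exists_cyl_disjoint hKc hx
      rw [mem_iUnion₂]
      exact ⟨pre x n, hn, by simp [cyl]⟩
    refine measure_mono_null hsub ?_
    rw [measure_biUnion_null_iff (to_countable _)]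
    intro w hw
    rw [hμ, mass_eq_zero hb hK w (lcap_eq_zero hb hw)]
    simp
  · have hbound : ∀ N, ∑ k ∈ Finset.range N,
        gsum k (fun u => ENNReal.ofReal ((b ^ 2) ^ k) * ((μ : Measure (ℕ → α)) (cyl u)) ^ 2)
          ≤ ENNReal.ofReal (1 / lcap b K []) := by
      intro N
      have h1 : ∀ k, gsum k (fun u => ENNReal.ofReal ((b ^ 2) ^ k)
            * ((μ : Measure (ℕ → α)) (cyl u)) ^ 2)
          = ENNReal.ofReal (gsum k (fun u => (b ^ 2) ^ k * mass b K u ^ 2)) := by
        intro k
        have hgen : ∀ (k : ℕ) (f : List α → ℝ), (∀ u, 0 ≤ f u) →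
            gsum k (fun u => ENNReal.ofReal (f u)) = ENNReal.ofReal (gsum k f) := by
          intro k
          induction k with
          | zero => intro f _; rfl
          | succ k ih =>
            intro f hf
            rw [gsum_succ, gsum_succ, ← ih _ (fun u => Finset.sum_nonneg fun a _ => hf _)]
            apply gsum_congr
            intro u _
            rw [ENNReal.ofReal_sum_of_nonneg (fun a _ => hf _)]
        rw [← hgen _ _ (fun u => by positivity)]
        apply gsum_congr
        intro u _
        rw [hμ, ← ENNReal.ofReal_pow (mass_nonneg hb K u), ← ENNReal.ofReal_mul (by positivity)]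
      have hnn : ∀ k, 0 ≤ gsum k (fun u : List α => (b ^ 2) ^ k * mass b K u ^ 2) := by
        intro k
        have := gsum_le_real (k := k) (f := fun _ : List α => (0 : ℝ))
          (g := fun u => (b ^ 2) ^ k * mass b K u ^ 2) (fun u _ => by positivity)
        rwa [gsum_zero_fun] at this
      rw [Finset.sum_congr rfl (fun k _ => h1 k), ← ENNReal.ofReal_sum_of_nonneg (fun k _ => hnn k)]
      apply ENNReal.ofReal_le_ofReal
      have h2 := energy_bound hb hK N
      have h3 : 0 ≤ gsum N (fun u : List α => mass b K u ^ 2 / lcap b K u) := by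
        have := gsum_le_real (k := N) (f := fun _ : List α => (0 : ℝ))
          (g := fun u => mass b K u ^ 2 / lcap b K u)
          (fun u _ => div_nonneg (by positivity) (lcap_nonneg hb K u))
        rwa [gsum_zero_fun] at this
      linarith
    rw [ENNReal.tsum_eq_iSup_nat]
    exact ne_top_of_le_ne_top ENNReal.ofReal_ne_top (iSup_le hbound)

end Measure

end Pool.Agent.Lib_MP_c56c8e_an
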