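import Pool.Agent.Lib_MP_c56c8e_an.Parseval
namespace Pool.Agent.Lib_MP_c56c8e_an

open MeasureTheory Set Filter Topology
open scoped ENNReal NNReal InnerProductSpace

variable {n : ℕ}

lemma QF_nonneg (x : En n) (hx : ‖x‖ = 1) {t ε : ℝ} (ht : 0 ≤ t) (hε : 0 ≤ ε) (u : En n) :
    0 ≤ QF x t ε u := by
  have h1 : ⟪x, u⟫_ℝ ^ 2 ≤ ‖u‖ ^ 2 := by
    have := abs_real_inner_le_norm x u
    rw [hx, one_mul] at this
    rw [← sq_abs]
    gcongr
  unfold QF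
  have h2 : 0 ≤ ‖u‖ ^ 2 - ⟪x, u⟫_ℝ ^ 2 := by linarith
  positivity

lemma continuous_QF (x : En n) (t ε : ℝ) : Continuous (QF x t ε) := by
  unfold QF; fun_prop

lemma gauss_parseval (hn : 0 < n) (μ : Measure (En n)) [IsFiniteMeasure μ] (x : En n)
    (hx : ‖x‖ = 1) {t ε : ℝ} (ht : 0 < t) (hε : 0 < ε) :
    ∫⁻ ξ, ENNReal.ofReal (Real.exp (-QF x (1 / (4 * t)) (1 / (4 * ε)) ξ)) * MF μ ξ =
      ENNReal.ofReal (kap n t ε) *
        ∫⁻ p, ENNReal.ofReal (Real.exp (-QF x t ε (p.1 - p.2))) ∂(μ.prod μ) := by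
  set g : En n → ℝ := fun ξ => Real.exp (-QF x (1 / (4 * t)) (1 / (4 * ε)) ξ) with hg
  have hgc : Continuous g := by
    rw [hg]; exact Real.continuous_exp.comp (continuous_QF _ _ _).neg
  have hft : ∀ u, ∫ ξ, (g ξ : ℂ) * Complex.exp (⟪u, ξ⟫_ℝ * Complex.I) =
      ((kap n t ε * Real.exp (-QF x t ε u) : ℝ) : ℂ) := by
    intro u
    have h := gauss_ft hn x hx ht hε u
    push_cast at h ⊢
    rw [← h]
    apply integral_congr_ae
    apply ae_of_all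
    intro ξ
    simp only [hg]
    rw [Complex.ofReal_exp, ← Complex.exp_add]
    push_cast
    rfl
  have hgi : Integrable g := by
    have h0 := hft 0
    simp only [inner_zero_left, Complex.ofReal_zero, zero_mul, Complex.exp_zero, mul_one] at h0
    rw [integral_complex_ofReal] at h0
    by_contra hcon
    rw [integral_undef hcon] at h0
    have hk := kap_pos n ht hε
    have : kap n t ε * Real.exp (-QF x t ε 0) ≠ 0 := by positivity
    exact this (by exact_mod_cast h0.symm)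
  have hk := kap_pos n ht hε
  have h := parseval μ g (fun u => kap n t ε * Real.exp (-QF x t ε u)) hgi
    (fun ξ => (Real.exp_pos _).le) (fun u => by positivity)
    (((Real.continuous_exp.comp (continuous_QF _ _ _).neg).measurable).const_mul _) hft
  rw [h, ← lintegral_const_mul' _ _ ENNReal.ofReal_ne_top]
  apply lintegral_congr
  intro p
  rw [ENNReal.ofReal_mul hk.le]

/-- The averaged Gaussian in terms of the tube estimate. -/
lemma tube_avg {Θ : Type*} [MeasurableSpace Θ] (ρ : Measure Θ) (x : Θ → En n) (hxm : Measurable x)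
    {C : ℝ} (hC0 : 0 < C)
    (hC : ∀ e : En n, ‖e‖ = 1 → ∀ δ : ℝ, 0 < δ → ρ {θ | |⟪x θ, e⟫_ℝ| < δ} ≤ ENNReal.ofReal (C * δ)) :
    ∃ C₁ : ℝ, 0 < C₁ ∧ ∀ a : ℝ, 0 < a → ∀ ξ : En n, ξ ≠ 0 →
      ∫⁻ θ, ENNReal.ofReal (Real.exp (-(a * ⟪x θ, ξ⟫_ℝ ^ 2))) ∂ρ ≤
        ENNReal.ofReal (C₁ * ((√a)⁻¹ * ‖ξ‖⁻¹)) := by
  have hsum : Summable (fun k : ℕ => Real.exp (-(k : ℝ)) * (C * (k + 1))) := by
    have h1 := Real.summable_pow_mul_exp_neg_nat_mul 1 (r := 1) one_pos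
    have h2 := Real.summable_pow_mul_exp_neg_nat_mul 0 (r := 1) one_pos
    have h3 := (h1.add h2).mul_left C
    refine h3.congr ?_
    intro k
    simp
    ring
  refine ⟨∑' k : ℕ, Real.exp (-(k : ℝ)) * (C * (k + 1)), ?_, ?_⟩
  · exact hsum.tsum_pos (fun k => by positivity) 0 (by positivity)
  intro a ha ξ hξ
  have hξ0 : 0 < ‖ξ‖ := norm_pos_iff.2 hξ
  have hsa : 0 < √a := Real.sqrt_pos.2 ha
  have hpt : ∀ θ, ENNReal.ofReal (Real.exp (-(a * ⟪x θ, ξ⟫_ℝ ^ 2))) ≤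
      ∑' k : ℕ, ENNReal.ofReal (Real.exp (-(k : ℝ))) *
        ({θ | √a * |⟪x θ, ξ⟫_ℝ| < k + 1} : Set Θ).indicator 1 θ := by
    intro θ
    set y : ℝ := √a * |⟪x θ, ξ⟫_ℝ| with hy
    have hy0 : 0 ≤ y := by positivity
    have hy2 : y ^ 2 = a * ⟪x θ, ξ⟫_ℝ ^ 2 := by
      rw [hy, mul_pow, Real.sq_sqrt ha.le, sq_abs]
    have hk1 : (⌊y⌋₊ : ℝ) ≤ y := Nat.floor_le hy0
    have hk2 : y < ⌊y⌋₊ + 1 := Nat.lt_floor_add_one y
    refine le_trans ?_ (ENNReal.le_tsum ⌊y⌋₊)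
    rw [indicator_of_mem (show θ ∈ {θ | √a * |⟪x θ, ξ⟫_ℝ| < (⌊y⌋₊ : ℝ) + 1} from hk2),
      Pi.one_apply, mul_one]
    apply ENNReal.ofReal_le_ofReal
    apply Real.exp_le_exp.2
    rw [← hy2]
    rcases Nat.eq_zero_or_pos ⌊y⌋₊ with h0 | h0
    · rw [h0]; simp; positivity
    · have h1 : (1 : ℝ) ≤ ⌊y⌋₊ := by exact_mod_cast h0
      nlinarith
  have hms : ∀ k : ℕ, MeasurableSet ({θ | √a * |⟪x θ, ξ⟫_ℝ| < (k : ℝ) + 1} : Set Θ) := by
    intro k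
    apply measurableSet_lt _ measurable_const
    exact ((hxm.inner (𝕜 := ℝ) measurable_const).norm).const_mul _
  calc ∫⁻ θ, ENNReal.ofReal (Real.exp (-(a * ⟪x θ, ξ⟫_ℝ ^ 2))) ∂ρ
      ≤ ∫⁻ θ, ∑' k : ℕ, ENNReal.ofReal (Real.exp (-(k : ℝ))) *
        ({θ | √a * |⟪x θ, ξ⟫_ℝ| < k + 1} : Set Θ).indicator 1 θ ∂ρ := lintegral_mono hpt
    _ = ∑' k : ℕ, ENNReal.ofReal (Real.exp (-(k : ℝ))) *
        ρ {θ | √a * |⟪x θ, ξ⟫_ℝ| < k + 1} := by
        rw [lintegral_tsum]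
        · apply tsum_congr
          intro k
          rw [lintegral_const_mul' _ _ ENNReal.ofReal_ne_top, lintegral_indicator_one (hms k)]
        · intro k
          exact ((measurable_one.indicator (hms k)).const_mul _).aemeasurable
    _ ≤ ∑' k : ℕ, ENNReal.ofReal (Real.exp (-(k : ℝ)) * (C * (k + 1)) * ((√a)⁻¹ * ‖ξ‖⁻¹)) := by
        apply ENNReal.tsum_le_tsum
        intro k
        have he : ‖(‖ξ‖⁻¹ • ξ : En n)‖ = 1 := by
          rw [norm_smul, norm_inv, norm_norm, inv_mul_cancel₀ hξ0.ne']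
        have hset : {θ | √a * |⟪x θ, ξ⟫_ℝ| < (k : ℝ) + 1} =
            {θ | |⟪x θ, ‖ξ‖⁻¹ • ξ⟫_ℝ| < ((k : ℝ) + 1) * ((√a)⁻¹ * ‖ξ‖⁻¹)} := by
          ext θ
          simp only [mem_ofPred_eq]
          rw [inner_smul_right, abs_mul, abs_of_pos (inv_pos.2 hξ0)]
          constructor
          · intro h
            calc ‖ξ‖⁻¹ * |⟪x θ, ξ⟫_ℝ| = (√a * |⟪x θ, ξ⟫_ℝ|) * ((√a)⁻¹ * ‖ξ‖⁻¹) := by
                  field_simp
              _ < _ := by gcongr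
          · intro h
            have h2 : (‖ξ‖⁻¹ * |⟪x θ, ξ⟫_ℝ|) * (√a * ‖ξ‖) <
                (((k : ℝ) + 1) * ((√a)⁻¹ * ‖ξ‖⁻¹)) * (√a * ‖ξ‖) := by gcongr
            calc √a * |⟪x θ, ξ⟫_ℝ| = (‖ξ‖⁻¹ * |⟪x θ, ξ⟫_ℝ|) * (√a * ‖ξ‖) := by field_simp
              _ < _ := h2
              _ = (k : ℝ) + 1 := by field_simp
        rw [hset]
        calc _ ≤ ENNReal.ofReal (Real.exp (-(k : ℝ))) *
              ENNReal.ofReal (C * (((k : ℝ) + 1) * ((√a)⁻¹ * ‖ξ‖⁻¹))) := by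
              gcongr
              exact hC _ he _ (by positivity)
          _ = _ := by
              rw [← ENNReal.ofReal_mul (by positivity)]
              congr 1
              ring
    _ = ENNReal.ofReal ((∑' k : ℕ, Real.exp (-(k : ℝ)) * (C * (k + 1))) * ((√a)⁻¹ * ‖ξ‖⁻¹)) := by
        rw [← ENNReal.ofReal_tsum_of_nonneg (fun k => by positivity) (hsum.mul_right _),
          tsum_mul_right]

end Pool.Agent.Lib_MP_c56c8e_an
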