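import Pool.Agent.Lib_MP_c56c8e_an.TubeLocal
namespace Pool.Agent.Lib_MP_c56c8e_an

open MeasureTheory Set Filter Topology Metric
open scoped ENNReal NNReal InnerProductSpace

variable {d n : ℕ} {φ : En d → En n} {U : Set (En d)}

lemma vec_expand (a : En d) : a = ∑ i, a i • (EuclideanSpace.single i (1 : ℝ) : En d) := by
  ext j
  simp [Pi.single_apply]

lemma D2_expand (hU : IsOpen U) (hφ : ContDiffOn ℝ 2 φ U) {u : En d} (hu : u ∈ U) (a b : En d) :
    D2 φ u a b = ∑ i, a i • fderiv ℝ (fun v => fderiv ℝ φ v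
      (EuclideanSpace.single i (1 : ℝ) : En d)) u b := by
  have h1 : (fun v => fderiv ℝ φ v a) = fun v => ∑ i, a i • fderiv ℝ φ v
      (EuclideanSpace.single i (1 : ℝ) : En d) := by
    funext v
    conv_lhs => rw [vec_expand a]
    rw [map_sum]
    simp only [map_smul]
  have h2 : HasFDerivAt (fun v => ∑ i, a i • fderiv ℝ φ v
      (EuclideanSpace.single i (1 : ℝ) : En d)) (∑ i, a i • fderiv ℝ (fun v => fderiv ℝ φ v
      (EuclideanSpace.single i (1 : ℝ) : En d)) u) u := by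
    apply HasFDerivAt.fun_sum
    intro i _
    exact (hasFDerivAt_dir hU hφ _ hu).const_smul (a i)
  have h3 : D2 φ u a b = fderiv ℝ (fun v => fderiv ℝ φ v a) u b := rfl
  rw [h3, h1, h2.fderiv]
  simp

lemma D2_smul (hU : IsOpen U) (hφ : ContDiffOn ℝ 2 φ U) {u : En d} (hu : u ∈ U) (t : ℝ)
    (a b : En d) : D2 φ u (t • a) (t • b) = t ^ 2 • D2 φ u a b := by
  have h1 : (fun v => fderiv ℝ φ v (t • a)) = fun v => t • fderiv ℝ φ v a := by
    funext v
    rw [map_smul]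
  have h2 : HasFDerivAt (fun v => t • fderiv ℝ φ v a)
      (t • fderiv ℝ (fun v => fderiv ℝ φ v a) u) u :=
    (hasFDerivAt_dir hU hφ a hu).const_smul t
  have h3 : D2 φ u (t • a) (t • b) = fderiv ℝ (fun v => fderiv ℝ φ v (t • a)) u (t • b) := rfl
  rw [h3, h1, h2.fderiv, map_smul, _root_.smul_apply, smul_smul, sq]
  rfl

/-- the Hessian form of `⟪φ, e⟫` -/
noncomputable def hess (φ : En d → En n) (q : En d × En n) (a : En d) : ℝ :=
  ∑ i, a i * ⟪fderiv ℝ (fun v => fderiv ℝ φ v (EuclideanSpace.single i (1 : ℝ) : En d)) q.1 a,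
    q.2⟫_ℝ

lemma hess_eq (hU : IsOpen U) (hφ : ContDiffOn ℝ 2 φ U) {u : En d} (hu : u ∈ U) (e : En n)
    (a : En d) : ⟪D2 φ u a a, e⟫_ℝ = hess φ (u, e) a := by
  rw [D2_expand hU hφ hu, sum_inner, hess]
  apply Finset.sum_congr rfl
  intro i _
  rw [inner_smul_left]
  simp

lemma continuousAt_hess (hU : IsOpen U) (hφ : ContDiffOn ℝ 2 φ U) {u₀ : En d} (hu₀ : u₀ ∈ U)
    (e₀ : En n) (a₀ : En d) :
    ContinuousAt (fun q : (En d × En n) × En d => hess φ q.1 q.2) ((u₀, e₀), a₀) := by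
  unfold hess
  apply tendsto_finsetSum
  intro i _
  have h0 : ContinuousAt (fun q : (En d × En n) × En d => q.1.1) ((u₀, e₀), a₀) := by fun_prop
  have h1 : ContinuousAt (fun q : (En d × En n) × En d => fderiv ℝ (fun v => fderiv ℝ φ v
      (EuclideanSpace.single i (1 : ℝ) : En d)) q.1.1) ((u₀, e₀), a₀) :=
    ContinuousAt.comp (f := fun q : (En d × En n) × En d => q.1.1)
      (g := fderiv ℝ (fun v => fderiv ℝ φ v (EuclideanSpace.single i (1 : ℝ) : En d)))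
      (continuousAt_fderiv_dir hU hφ _ hu₀) h0
  have h2 : ContinuousAt (fun q : (En d × En n) × En d => q.2) ((u₀, e₀), a₀) := by fun_prop
  have h3 : ContinuousAt (fun q : (En d × En n) × En d => q.1.2) ((u₀, e₀), a₀) := by fun_prop
  have h4 : ContinuousAt (fun q : (En d × En n) × En d => q.2 i) ((u₀, e₀), a₀) := by fun_prop
  exact h4.mul ((h1.clm_apply h2).inner h3)

lemma unit_to_all (hU : IsOpen U) (hφ : ContDiffOn ℝ 2 φ U) {u : En d} (hu : u ∈ U) {e : En n}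
    {c : ℝ} (h : ∀ a : En d, ‖a‖ = 1 → c ≤ ⟪D2 φ u a a, e⟫_ℝ) (a : En d) :
    c * ‖a‖ ^ 2 ≤ ⟪D2 φ u a a, e⟫_ℝ := by
  by_cases ha : a = 0
  · subst ha
    have : D2 φ u (0 : En d) 0 = 0 := by
      have := D2_smul hU hφ hu 0 (0 : En d) 0
      simpa using this
    rw [this]; simp
  · have hn : ‖a‖ ≠ 0 := norm_ne_zero_iff.2 ha
    have h1 : a = ‖a‖ • (‖a‖⁻¹ • a) := by
      rw [smul_smul, mul_inv_cancel₀ hn, one_smul]
    have h2 : ‖‖a‖⁻¹ • a‖ = 1 := by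
      rw [norm_smul, norm_inv, norm_norm, inv_mul_cancel₀ hn]
    have h3 := h _ h2
    have h4 : D2 φ u a a = ‖a‖ ^ 2 • D2 φ u (‖a‖⁻¹ • a) (‖a‖⁻¹ • a) := by
      conv_lhs => rw [h1]
      exact D2_smul hU hφ hu _ _ _
    rw [h4, inner_smul_left]
    simp only [conj_trivial]
    nlinarith [sq_nonneg ‖a‖]

lemma localTube_case3 (hd : 2 ≤ d) (hU : IsOpen U) (hφ : ContDiffOn ℝ 2 φ U) {u₀ : En d}
    (hu₀ : u₀ ∈ U) {e₀ : En n} {c : ℝ} (hc : 0 < c)
    (h0 : ∀ a : En d, ‖a‖ = 1 → c < ⟪D2 φ u₀ a a, e₀⟫_ℝ) : LocalTube φ u₀ e₀ := by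
  -- uniform convexity nearby
  have hev : ∀ᶠ q in 𝓝 (u₀, e₀), ∀ a ∈ sphere (0 : En d) 1, c < hess φ q a := by
    apply (isCompact_sphere (0 : En d) 1).eventually_forall_of_forall_eventually
    intro a ha
    have ha1 : ‖a‖ = 1 := by simpa using ha
    have h1 := continuousAt_hess hU hφ hu₀ e₀ a
    apply h1.eventually (lt_mem_nhds _)
    simp only
    rw [← hess_eq hU hφ hu₀]
    exact h0 a ha1
  have hevU : ∀ᶠ q : En d × En n in 𝓝 (u₀, e₀), q.1 ∈ U :=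
    (continuous_fst.tendsto (u₀, e₀)).eventually (hU.mem_nhds hu₀)
  obtain ⟨r, hr, N, hN, h⟩ := exists_ball_nhds (hev.and hevU)
  have hNne : N.Nonempty := ⟨e₀, mem_of_mem_nhds hN⟩
  have hBU : closedBall u₀ r ⊆ U := fun u hu => (h u hu _ hNne.some_mem).2
  have hconv : ∀ e ∈ N, ∀ u ∈ closedBall u₀ r, ∀ a : En d, c * ‖a‖ ^ 2 ≤ ⟪D2 φ u a a, e⟫_ℝ := by
    intro e he u hu
    apply unit_to_all hU hφ (hBU hu)
    intro a ha
    rw [hess_eq hU hφ (hBU hu)]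
    exact ((h u hu e he).1 a (by simpa using ha)).le
  have hT0 : 0 < 2 * r := by positivity
  refine ⟨r, hr, N, hN, (sphMass d).toReal * ((2 * r) ^ (d - 2) * (4 / c)) + 1, by positivity, ?_⟩
  intro e he δ hδ
  -- minimiser
  have hcφ : ContinuousOn (fun u => ⟪φ u, e⟫_ℝ) (closedBall u₀ r) := by
    intro u hu
    have : ContinuousAt φ u := (hasFDerivAt_of hU hφ (hBU hu)).continuousAt
    exact (this.inner continuousAt_const).continuousWithinAt
  obtain ⟨m, hm, hmin⟩ := (isCompact_closedBall u₀ r).exists_isMinOn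
    ⟨u₀, mem_closedBall_self hr.le⟩ hcφ
  have hmain : volume {u | u ∈ ball u₀ r ∧ |⟪φ u, e⟫_ℝ| < δ} ≤
      sphMass d * ENNReal.ofReal ((2 * r) ^ (d - 2) * ((8 / c * δ) / 2)) := by
    apply polar_bound hd m hT0 (measurable_set_aux hU hφ hBU e δ)
    · rintro u ⟨hu, _⟩
      rw [mem_closedBall]
      have h1 : dist u u₀ < r := hu
      have h2 : dist m u₀ ≤ r := hm
      calc dist u m ≤ dist u u₀ + dist m u₀ := dist_triangle_right _ _ _
        _ ≤ 2 * r := by linarith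
    · positivity
    · rintro ω hω r₁ r₂ hr₁ hr₂ ⟨hu₁, hh₁⟩ ⟨hu₂, hh₂⟩
      have hr₂0 : 0 < r₂ := hr₁.trans hr₂
      have hsc := strong_convex hU hφ e hBU (convex_closedBall u₀ r) (hconv e he) hm
        (ball_subset_closedBall hu₂) (l := r₁ / r₂) (by positivity)
        ((div_le_one hr₂0).2 hr₂.le)
      have h1 : m + (r₁ / r₂) • (m + r₂ • ω - m) = m + r₁ • ω := by
        rw [add_sub_cancel_left, smul_smul, div_mul_cancel₀ _ hr₂0.ne']
      have h2 : ‖m + r₂ • ω - m‖ = r₂ := by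
        rw [add_sub_cancel_left, norm_smul, hω, mul_one, Real.norm_of_nonneg hr₂0.le]
      rw [h1, h2] at hsc
      have h3 : ⟪φ m, e⟫_ℝ ≤ ⟪φ (m + r₁ • ω), e⟫_ℝ := hmin (ball_subset_closedBall hu₁)
      have h4 := (abs_lt.1 hh₁).1
      have h5 := (abs_lt.1 hh₂).2
      set A := ⟪φ (m + r₁ • ω), e⟫_ℝ with hA
      set B := ⟪φ (m + r₂ • ω), e⟫_ℝ with hB
      set M := ⟪φ m, e⟫_ℝ with hM
      set l := r₁ / r₂ with hl
      have hl1 : l < 1 := (div_lt_one hr₂0).2 hr₂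
      have hl0 : 0 < l := by rw [hl]; positivity
      have h6 : c / 2 * (l * (1 - l)) * r₂ ^ 2 ≤ l * (B - A) := by nlinarith
      have h7 : c / 2 * (1 - l) * r₂ ^ 2 ≤ B - A := by
        have : l * (c / 2 * (1 - l) * r₂ ^ 2) ≤ l * (B - A) := by linarith
        exact le_of_mul_le_mul_left this hl0
      have h8 : (1 - l) * r₂ ^ 2 = r₂ * (r₂ - r₁) := by
        rw [hl]; field_simp
      have h9 : c / 2 * (r₂ * (r₂ - r₁)) ≤ 2 * δ := by
        have : c / 2 * (1 - l) * r₂ ^ 2 = c / 2 * (r₂ * (r₂ - r₁)) := by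
          rw [← h8]; ring
        linarith
      have h10 : r₂ ^ 2 - r₁ ^ 2 ≤ 2 * (r₂ * (r₂ - r₁)) := by nlinarith
      have h11 : r₂ * (r₂ - r₁) ≤ 4 * δ / c := by
        rw [le_div_iff₀ hc]
        linarith
      calc r₂ ^ 2 - r₁ ^ 2 ≤ 2 * (r₂ * (r₂ - r₁)) := h10
        _ ≤ 2 * (4 * δ / c) := by linarith
        _ = 8 / c * δ := by ring
  refine hmain.trans ?_
  rw [sphMass_mul]
  apply ENNReal.ofReal_le_ofReal
  have : (sphMass d).toReal * ((2 * r) ^ (d - 2) * ((8 / c * δ) / 2)) =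
    ((sphMass d).toReal * ((2 * r) ^ (d - 2) * (4 / c))) * δ := by ring
  rw [this]
  nlinarith

/-- Compactness of the sphere: a tube estimate uniform in the direction. -/
lemma tube_of_local {u₀ : En d} (h : ∀ e : En n, ‖e‖ = 1 → LocalTube φ u₀ e) :
    ∃ r : ℝ, 0 < r ∧ ∃ C : ℝ, 0 < C ∧ ∀ e : En n, ‖e‖ = 1 → ∀ δ : ℝ, 0 < δ →
      volume {u | u ∈ ball u₀ r ∧ |⟪φ u, e⟫_ℝ| < δ} ≤ ENNReal.ofReal (C * δ) := by
  have hK : IsCompact (sphere (0 : En n) 1) := isCompact_sphere 0 1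
  have key := hK.induction_on (p := fun s => ∃ r : ℝ, 0 < r ∧ ∃ C : ℝ, 0 < C ∧ ∀ e ∈ s,
      ∀ δ : ℝ, 0 < δ →
      volume {u | u ∈ ball u₀ r ∧ |⟪φ u, e⟫_ℝ| < δ} ≤ ENNReal.ofReal (C * δ)) ?_ ?_ ?_ ?_
  · obtain ⟨r, hr, C, hC, h1⟩ := key
    exact ⟨r, hr, C, hC, fun e he => h1 e (by simpa using he)⟩
  · exact ⟨1, one_pos, 1, one_pos, fun e he => absurd he (notMem_empty e)⟩
  · rintro s t hst ⟨r, hr, C, hC, h1⟩
    exact ⟨r, hr, C, hC, fun e he => h1 e (hst he)⟩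
  · rintro s t ⟨r, hr, C, hC, h1⟩ ⟨r', hr', C', hC', h1'⟩
    refine ⟨min r r', lt_min hr hr', max C C', lt_max_of_lt_left hC, ?_⟩
    rintro e (he | he) δ hδ
    · calc volume {u | u ∈ ball u₀ (min r r') ∧ |⟪φ u, e⟫_ℝ| < δ}
          ≤ volume {u | u ∈ ball u₀ r ∧ |⟪φ u, e⟫_ℝ| < δ} :=
            measure_mono fun u hu => ⟨ball_subset_ball (min_le_left _ _) hu.1, hu.2⟩
        _ ≤ ENNReal.ofReal (C * δ) := h1 e he δ hδ
        _ ≤ ENNReal.ofReal (max C C' * δ) := by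
            apply ENNReal.ofReal_le_ofReal
            gcongr
            exact le_max_left _ _
    · calc volume {u | u ∈ ball u₀ (min r r') ∧ |⟪φ u, e⟫_ℝ| < δ}
          ≤ volume {u | u ∈ ball u₀ r' ∧ |⟪φ u, e⟫_ℝ| < δ} :=
            measure_mono fun u hu => ⟨ball_subset_ball (min_le_right _ _) hu.1, hu.2⟩
        _ ≤ ENNReal.ofReal (C' * δ) := h1' e he δ hδ
        _ ≤ ENNReal.ofReal (max C C' * δ) := by
            apply ENNReal.ofReal_le_ofReal
            gcongr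
            exact le_max_right _ _
  · intro e he
    obtain ⟨r, hr, N, hN, C, hC, h1⟩ := h e (by simpa using he)
    exact ⟨N, mem_nhdsWithin_of_mem_nhds hN, r, hr, C, hC, h1⟩

end Pool.Agent.Lib_MP_c56c8e_an
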