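import Pool.Agent.Lib_MP_c56c8e_an.Polar
import Pool.Agent.Lib_MP_c56c8e_an.Defs
namespace Pool.Agent.Lib_MP_c56c8e_an

open MeasureTheory Set Filter Topology Metric
open scoped ENNReal NNReal InnerProductSpace

variable {d n : ℕ}

section Calc

variable {φ : En d → En n} {U : Set (En d)}

lemma hasFDerivAt_of (hU : IsOpen U) (hφ : ContDiffOn ℝ 2 φ U) {u : En d} (hu : u ∈ U) :
    HasFDerivAt φ (fderiv ℝ φ u) u :=
  ((hφ.contDiffAt (hU.mem_nhds hu)).differentiableAt (by norm_num)).hasFDerivAt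

lemma contDiffOn_dir (hU : IsOpen U) (hφ : ContDiffOn ℝ 2 φ U) (a : En d) :
    ContDiffOn ℝ 1 (fun v => fderiv ℝ φ v a) U := by
  have h1 : ContDiffOn ℝ 1 (fderiv ℝ φ) U := hφ.fderiv_of_isOpen hU (by norm_num)
  exact h1.clm_apply contDiffOn_const

lemma hasFDerivAt_dir (hU : IsOpen U) (hφ : ContDiffOn ℝ 2 φ U) (a : En d) {u : En d}
    (hu : u ∈ U) :
    HasFDerivAt (fun v => fderiv ℝ φ v a) (fderiv ℝ (fun v => fderiv ℝ φ v a) u) u :=
  (((contDiffOn_dir hU hφ a).contDiffAt (hU.mem_nhds hu)).differentiableAt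
    (by norm_num)).hasFDerivAt

lemma continuousAt_fderiv (hU : IsOpen U) (hφ : ContDiffOn ℝ 2 φ U) {u : En d} (hu : u ∈ U) :
    ContinuousAt (fderiv ℝ φ) u :=
  (hφ.continuousOn_fderiv_of_isOpen hU (by norm_num)).continuousAt (hU.mem_nhds hu)

lemma continuousAt_fderiv_dir (hU : IsOpen U) (hφ : ContDiffOn ℝ 2 φ U) (a : En d) {u : En d}
    (hu : u ∈ U) : ContinuousAt (fderiv ℝ (fun v => fderiv ℝ φ v a)) u :=
  ((contDiffOn_dir hU hφ a).continuousOn_fderiv_of_isOpen hU le_rfl).continuousAt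
    (hU.mem_nhds hu)

lemma line_deriv (hU : IsOpen U) (hφ : ContDiffOn ℝ 2 φ U) (e : En n) {m w : En d} {t : ℝ}
    (ht : m + t • w ∈ U) :
    HasDerivAt (fun t : ℝ => ⟪φ (m + t • w), e⟫_ℝ) ⟪fderiv ℝ φ (m + t • w) w, e⟫_ℝ t := by
  have h1 : HasDerivAt (fun t : ℝ => m + t • w) w t := by
    simpa using ((hasDerivAt_id t).smul_const w).const_add m
  have h2 := (hasFDerivAt_of hU hφ ht).comp_hasDerivAt t h1
  have h3 := h2.inner ℝ (hasDerivAt_const t e)
  simpa using h3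

lemma line_deriv2 (hU : IsOpen U) (hφ : ContDiffOn ℝ 2 φ U) (e : En n) {m w : En d} {t : ℝ}
    (ht : m + t • w ∈ U) :
    HasDerivAt (fun t : ℝ => ⟪fderiv ℝ φ (m + t • w) w, e⟫_ℝ) ⟪D2 φ (m + t • w) w w, e⟫_ℝ t := by
  have h1 : HasDerivAt (fun t : ℝ => m + t • w) w t := by
    simpa using ((hasDerivAt_id t).smul_const w).const_add m
  have h2 := (hasFDerivAt_dir hU hφ w ht).comp_hasDerivAt t h1
  have h4 := h2.inner ℝ (hasDerivAt_const t e)
  simpa [D2, D1] using h4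

/-- Uniform convexity along segments. -/
lemma strong_convex (hU : IsOpen U) (hφ : ContDiffOn ℝ 2 φ U) (e : En n) {c : ℝ}
    {B : Set (En d)} (hBU : B ⊆ U) (hB : Convex ℝ B)
    (hc : ∀ u ∈ B, ∀ a : En d, c * ‖a‖ ^ 2 ≤ ⟪D2 φ u a a, e⟫_ℝ) {x y : En d} (hx : x ∈ B)
    (hy : y ∈ B) {l : ℝ} (hl0 : 0 ≤ l) (hl1 : l ≤ 1) :
    ⟪φ (x + l • (y - x)), e⟫_ℝ ≤ (1 - l) * ⟪φ x, e⟫_ℝ + l * ⟪φ y, e⟫_ℝ -
      c / 2 * (l * (1 - l)) * ‖y - x‖ ^ 2 := by
  set w := y - x with hw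
  have hmem : ∀ t ∈ Icc (0 : ℝ) 1, x + t • w ∈ B := by
    intro t ht
    exact hB.add_smul_sub_mem hx hy ht
  set g : ℝ → ℝ := fun t => ⟪φ (x + t • w), e⟫_ℝ - c / 2 * ‖w‖ ^ 2 * t ^ 2 with hg
  set g' : ℝ → ℝ := fun t => ⟪fderiv ℝ φ (x + t • w) w, e⟫_ℝ - c * ‖w‖ ^ 2 * t with hg'
  have hd1 : ∀ t ∈ Icc (0 : ℝ) 1, HasDerivAt g (g' t) t := by
    intro t ht
    have h1 := line_deriv hU hφ e (hBU (hmem t ht))
    have h2 := ((hasDerivAt_pow 2 t).const_mul (c / 2 * ‖w‖ ^ 2))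
    have h3 := h1.sub h2
    have e1 : g' t = ⟪fderiv ℝ φ (x + t • w) w, e⟫_ℝ - c / 2 * ‖w‖ ^ 2 * (((2 : ℕ) : ℝ) * t ^ (2 - 1)) := by
      simp only [hg']
      push_cast
      ring
    rw [e1]
    exact h3
  have hd2 : ∀ t ∈ Icc (0 : ℝ) 1, HasDerivAt g' (⟪D2 φ (x + t • w) w w, e⟫_ℝ - c * ‖w‖ ^ 2) t := by
    intro t ht
    have h1 := line_deriv2 hU hφ e (hBU (hmem t ht))
    have h2 := ((hasDerivAt_id t).const_mul (c * ‖w‖ ^ 2))
    have h3 := h1.sub h2
    rw [mul_one] at h3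
    exact h3
  have hmono : MonotoneOn g' (Icc 0 1) := by
    apply monotoneOn_of_deriv_nonneg (convex_Icc 0 1)
    · exact fun t ht => (hd2 t ht).continuousAt.continuousWithinAt
    · intro t ht
      exact (hd2 t (interior_subset ht)).differentiableAt.differentiableWithinAt
    · intro t ht
      have ht' := interior_subset ht
      rw [(hd2 t ht').deriv]
      linarith [hc _ (hmem t ht') w]
  have hconv : ConvexOn ℝ (Icc (0 : ℝ) 1) g := by
    have hmi : MonotoneOn g' (interior (Icc (0 : ℝ) 1)) := hmono.mono interior_subset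
    have hmd : MonotoneOn (deriv g) (interior (Icc (0 : ℝ) 1)) := by
      intro s hs t ht hst
      rw [(hd1 s (interior_subset hs)).deriv, (hd1 t (interior_subset ht)).deriv]
      exact hmi hs ht hst
    exact hmd.convexOn_of_deriv (convex_Icc 0 1)
      (fun t ht => (hd1 t ht).continuousAt.continuousWithinAt)
      (fun t ht => (hd1 t (interior_subset ht)).differentiableAt.differentiableWithinAt)
  have h := hconv.2 (left_mem_Icc.2 zero_le_one) (right_mem_Icc.2 zero_le_one)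
    (show 0 ≤ 1 - l by linarith) hl0 (by ring)
  simp only [smul_eq_mul, mul_zero, mul_one, zero_add, hg] at h
  have e2 : x + (1 : ℝ) • w = y := by rw [hw]; simp
  have e3 : x + (0 : ℝ) • w = x := by simp
  rw [e2, e3] at h
  nlinarith [h]

end Calc

/-- A local tube estimate, uniform near `e₀`. -/
def LocalTube (φ : En d → En n) (u₀ : En d) (e₀ : En n) : Prop :=
  ∃ r : ℝ, 0 < r ∧ ∃ N ∈ 𝓝 e₀, ∃ C : ℝ, 0 < C ∧ ∀ e ∈ N, ∀ δ : ℝ, 0 < δ →
    volume {u | u ∈ ball u₀ r ∧ |⟪φ u, e⟫_ℝ| < δ} ≤ ENNReal.ofReal (C * δ)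

variable {φ : En d → En n} {U : Set (En d)}

lemma localTube_neg {u₀ : En d} {e₀ : En n} (h : LocalTube φ u₀ (-e₀)) : LocalTube φ u₀ e₀ := by
  obtain ⟨r, hr, N, hN, C, hC, h⟩ := h
  refine ⟨r, hr, (fun e => -e) ⁻¹' N, ?_, C, hC, ?_⟩
  · exact (continuous_neg.tendsto e₀) hN
  · intro e he δ hδ
    have := h (-e) he δ hδ
    simpa [inner_neg_right] using this

/-- a ball and a neighbourhood from an eventual statement -/
lemma exists_ball_nhds {u₀ : En d} {e₀ : En n} {P : En d × En n → Prop}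
    (h : ∀ᶠ q in 𝓝 (u₀, e₀), P q) : ∃ r : ℝ, 0 < r ∧ ∃ N ∈ 𝓝 e₀, ∀ u ∈ closedBall u₀ r,
      ∀ e ∈ N, P (u, e) := by
  rw [nhds_prod_eq] at h
  obtain ⟨V, hV, N, hN, hVN⟩ := Filter.mem_prod_iff.1 h
  obtain ⟨r, hr, hrV⟩ := Metric.nhds_basis_closedBall.mem_iff.1 hV
  exact ⟨r, hr, N, hN, fun u hu e he => hVN (mk_mem_prod (hrV hu) he)⟩

lemma localTube_case1 (hU : IsOpen U) (hφ : ContDiffOn ℝ 2 φ U) {u₀ : En d} (hu₀ : u₀ ∈ U)
    {e₀ : En n} (h0 : ⟪φ u₀, e₀⟫_ℝ ≠ 0) : LocalTube φ u₀ e₀ := by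
  have hcφ : ContinuousAt φ u₀ := (hasFDerivAt_of hU hφ hu₀).continuousAt
  have hc : ContinuousAt (fun q : En d × En n => |⟪φ q.1, q.2⟫_ℝ|) (u₀, e₀) := by
    have h1 : ContinuousAt (fun q : En d × En n => φ q.1) (u₀, e₀) :=
      ContinuousAt.comp (f := Prod.fst) (g := φ) hcφ continuousAt_fst
    exact (h1.inner continuousAt_snd).abs
  set c := |⟪φ u₀, e₀⟫_ℝ| / 2 with hcdef
  have hc0 : 0 < |⟪φ u₀, e₀⟫_ℝ| := abs_pos.2 h0
  have hc1 : 0 < c := by rw [hcdef]; positivity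
  have hev : ∀ᶠ q in 𝓝 (u₀, e₀), c < |⟪φ q.1, q.2⟫_ℝ| :=
    hc.eventually (lt_mem_nhds (show c < |⟪φ u₀, e₀⟫_ℝ| by rw [hcdef]; linarith))
  obtain ⟨r, hr, N, hN, h⟩ := exists_ball_nhds hev
  have hvol : volume (ball u₀ r) ≠ ∞ := measure_ball_lt_top.ne
  refine ⟨r, hr, N, hN, (volume (ball u₀ r)).toReal / c + 1, by positivity, ?_⟩
  intro e he δ hδ
  by_cases hδc : δ ≤ c
  · have hemp : {u | u ∈ ball u₀ r ∧ |⟪φ u, e⟫_ℝ| < δ} = ∅ := by
      ext u
      simp only [mem_ofPred_eq, mem_empty_iff_false, iff_false, not_and, not_lt]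
      intro hu
      exact hδc.trans (h u (ball_subset_closedBall hu) e he).le
    rw [hemp]; simp
  · push Not at hδc
    calc volume {u | u ∈ ball u₀ r ∧ |⟪φ u, e⟫_ℝ| < δ} ≤ volume (ball u₀ r) :=
          measure_mono fun u hu => hu.1
      _ = ENNReal.ofReal (volume (ball u₀ r)).toReal := (ENNReal.ofReal_toReal hvol).symm
      _ ≤ _ := by
          apply ENNReal.ofReal_le_ofReal
          have h2 : (volume (ball u₀ r)).toReal = (volume (ball u₀ r)).toReal / c * c := by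
            field_simp
          have h3 : 0 ≤ (volume (ball u₀ r)).toReal / c := by positivity
          nlinarith

lemma measurable_set_aux (hU : IsOpen U) (hφ : ContDiffOn ℝ 2 φ U) {u₀ : En d} {r : ℝ}
    (hr : closedBall u₀ r ⊆ U) (e : En n) (δ : ℝ) :
    MeasurableSet {u | u ∈ ball u₀ r ∧ |⟪φ u, e⟫_ℝ| < δ} := by
  have hc : ContinuousOn (fun u => |⟪φ u, e⟫_ℝ|) (ball u₀ r) := by
    intro u hu
    have hcφ : ContinuousAt φ u :=
      (hasFDerivAt_of hU hφ (hr (ball_subset_closedBall hu))).continuousAt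
    exact ((hcφ.inner continuousAt_const).abs).continuousWithinAt
  have := hc.isOpen_inter_preimage isOpen_ball (isOpen_Iio (a := δ))
  exact this.measurableSet

lemma sphMass_mul (x : ℝ) :
    sphMass d * ENNReal.ofReal x = ENNReal.ofReal ((sphMass d).toReal * x) := by
  rw [ENNReal.ofReal_mul ENNReal.toReal_nonneg, ENNReal.ofReal_toReal (sphMass_ne_top d)]

lemma localTube_case2 (hd : 2 ≤ d) (hU : IsOpen U) (hφ : ContDiffOn ℝ 2 φ U) {u₀ : En d}
    (hu₀ : u₀ ∈ U)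
    {e₀ : En n} (a : En d) (h0 : 0 < ⟪fderiv ℝ φ u₀ a, e₀⟫_ℝ) : LocalTube φ u₀ e₀ := by
  set m := u₀ - a with hm
  have hcd : ContinuousAt (fderiv ℝ φ) u₀ := continuousAt_fderiv hU hφ hu₀
  have hc : ContinuousAt (fun q : En d × En n => ⟪fderiv ℝ φ q.1 (q.1 - m), q.2⟫_ℝ) (u₀, e₀) := by
    have h1 : ContinuousAt (fun q : En d × En n => fderiv ℝ φ q.1) (u₀, e₀) :=
      ContinuousAt.comp (f := Prod.fst) (g := fderiv ℝ φ) hcd continuousAt_fst
    have h2 : ContinuousAt (fun q : En d × En n => q.1 - m) (u₀, e₀) :=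
      continuousAt_fst.sub continuousAt_const
    exact (h1.clm_apply h2).inner continuousAt_snd
  set c := ⟪fderiv ℝ φ u₀ a, e₀⟫_ℝ / 2 with hcdef
  have hc1 : 0 < c := by rw [hcdef]; positivity
  have hval : ⟪fderiv ℝ φ u₀ (u₀ - m), e₀⟫_ℝ = ⟪fderiv ℝ φ u₀ a, e₀⟫_ℝ := by
    rw [hm, sub_sub_cancel]
  have hev : ∀ᶠ q in 𝓝 (u₀, e₀), c < ⟪fderiv ℝ φ q.1 (q.1 - m), q.2⟫_ℝ := by
    apply hc.eventually (lt_mem_nhds _)
    simp only
    rw [hval, hcdef]
    linarith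
  have hevU : ∀ᶠ q : En d × En n in 𝓝 (u₀, e₀), q.1 ∈ U :=
    (continuous_fst.tendsto (u₀, e₀)).eventually (hU.mem_nhds hu₀)
  obtain ⟨r, hr, N, hN, h⟩ := exists_ball_nhds (hev.and hevU)
  have hNne : N.Nonempty := ⟨e₀, mem_of_mem_nhds hN⟩
  have hBU : closedBall u₀ r ⊆ U := fun u hu => (h u hu _ hNne.some_mem).2
  set T := r + ‖a‖ with hT
  have hT0 : 0 < T := by positivity
  refine ⟨r, hr, N, hN, (sphMass d).toReal * (T ^ (d - 2) * (2 * T ^ 2 / c)) + 1, by positivity, ?_⟩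
  intro e he δ hδ
  have hmain : volume {u | u ∈ ball u₀ r ∧ |⟪φ u, e⟫_ℝ| < δ} ≤
      sphMass d * ENNReal.ofReal (T ^ (d - 2) * ((4 * T ^ 2 / c * δ) / 2)) := by
    apply polar_bound hd m hT0 (measurable_set_aux hU hφ hBU e δ)
    · rintro u ⟨hu, _⟩
      rw [mem_closedBall, hm]
      have h1 : dist u u₀ < r := hu
      calc dist u (u₀ - a) ≤ dist u u₀ + dist u₀ (u₀ - a) := dist_triangle _ _ _
        _ ≤ r + ‖a‖ := by
            rw [dist_eq_norm u₀, sub_sub_cancel]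
            linarith
    · positivity
    · rintro ω hω r₁ r₂ hr₁ hr₂ ⟨hu₁, hh₁⟩ ⟨hu₂, hh₂⟩
      have hseg : ∀ t ∈ Icc r₁ r₂, m + t • ω ∈ ball u₀ r := by
        intro t ht
        have h1 := (convex_ball u₀ r).add_smul_sub_mem hu₁ hu₂
          (t := (t - r₁) / (r₂ - r₁)) ⟨div_nonneg (by linarith [ht.1]) (by linarith),
            (div_le_one (by linarith)).2 (by linarith [ht.2])⟩
        have h2 : m + r₁ • ω + ((t - r₁) / (r₂ - r₁)) • (m + r₂ • ω - (m + r₁ • ω)) =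
            m + t • ω := by
          have h3 : m + r₂ • ω - (m + r₁ • ω) = (r₂ - r₁) • ω := by
            rw [add_sub_add_left_eq_sub, sub_smul]
          rw [h3, smul_smul, div_mul_cancel₀ _ (by linarith : r₂ - r₁ ≠ 0), sub_smul]
          abel
        rwa [h2] at h1
      have hr₂T : r₂ ≤ T := by
        have h1 : dist (m + r₂ • ω) u₀ < r := hu₂
        have h2 : ‖r₂ • ω‖ ≤ ‖m + r₂ • ω - u₀‖ + ‖a‖ := by
          calc ‖r₂ • ω‖ = ‖(m + r₂ • ω - u₀) + a‖ := by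
                congr 1
                rw [hm]; abel
            _ ≤ _ := norm_add_le _ _
        rw [norm_smul, hω, mul_one, Real.norm_of_nonneg (by linarith)] at h2
        rw [dist_eq_norm] at h1
        linarith
      set g : ℝ → ℝ := fun t => ⟪φ (m + t • ω), e⟫_ℝ with hg
      have hder : ∀ t ∈ Icc r₁ r₂, HasDerivAt g ⟪fderiv ℝ φ (m + t • ω) ω, e⟫_ℝ t := by
        intro t ht
        exact line_deriv hU hφ e (hBU (ball_subset_closedBall (hseg t ht)))
      have hlow : ∀ t ∈ Icc r₁ r₂, c / T ≤ ⟪fderiv ℝ φ (m + t • ω) ω, e⟫_ℝ := by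
        intro t ht
        have h1 := (h _ (ball_subset_closedBall (hseg t ht)) e he).1
        simp only [add_sub_cancel_left, map_smul, inner_smul_left, conj_trivial] at h1
        have ht0 : 0 < t := hr₁.trans_le ht.1
        have htT : t ≤ T := ht.2.trans hr₂T
        rw [div_le_iff₀ hT0]
        have h4 : 0 < ⟪fderiv ℝ φ (m + t • ω) ω, e⟫_ℝ := by
          by_contra h5
          push Not at h5
          nlinarith
        nlinarith
      have hmv := (convex_Icc r₁ r₂).mul_sub_le_image_sub_of_le_deriv (f := g) (C := c / T)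
        (fun t ht => (hder t ht).continuousAt.continuousWithinAt)
        (fun t ht => (hder t (interior_subset ht)).differentiableAt.differentiableWithinAt)
        (fun t ht => by
          rw [(hder t (interior_subset ht)).deriv]
          exact hlow t (interior_subset ht))
        r₁ (left_mem_Icc.2 hr₂.le) r₂ (right_mem_Icc.2 hr₂.le) hr₂.le
      have h6 : g r₂ - g r₁ ≤ 2 * δ := by
        have h7 := (abs_lt.1 hh₁).1
        have h8 := (abs_lt.1 hh₂).2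
        simp only [hg]
        linarith
      have h9 : r₂ - r₁ ≤ 2 * δ * T / c := by
        rw [le_div_iff₀ hc1]
        have h10 : c / T * (r₂ - r₁) ≤ 2 * δ := hmv.trans h6
        rw [div_mul_eq_mul_div, div_le_iff₀ hT0] at h10
        linarith
      calc r₂ ^ 2 - r₁ ^ 2 = (r₂ - r₁) * (r₂ + r₁) := by ring
        _ ≤ (2 * δ * T / c) * (2 * T) := by
            apply mul_le_mul h9 (by linarith) (by linarith) (by positivity)
        _ = 4 * T ^ 2 / c * δ := by ring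
  refine hmain.trans ?_
  rw [sphMass_mul]
  apply ENNReal.ofReal_le_ofReal
  have : (sphMass d).toReal * (T ^ (d - 2) * ((4 * T ^ 2 / c * δ) / 2)) =
    ((sphMass d).toReal * (T ^ (d - 2) * (2 * T ^ 2 / c))) * δ := by ring
  rw [this]
  nlinarith

end Pool.Agent.Lib_MP_c56c8e_an
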